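import Mathlib

set_option autoImplicit false

/-!
# Arithmetic lemma for flat ternary cyclotomic polynomials
-/

namespace Pool.Agent.H67.Flat

/-- Uniqueness of the residue. -/
theorem emod_eq_of {N x y c : ℤ} (h : x = N * c + y) (h0 : 0 ≤ y) (h1 : y < N) : x % N = y := by
  rw [h, Int.add_comm, Int.add_mul_emod_self_left]
  exact Int.emod_eq_of_lt h0 h1

/-- If `(u k mod pq) < q (ν k mod p)` for all `0 < k < p` then `u` is close to `0` or to `ν q`. -/
theorem arith {p q ν u : ℤ} (hp : 3 ≤ p) (hpq : p < q) (hν0 : 0 < ν) (hνp : ν < p)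
    (hcop : IsCoprime ν p) (hu0 : 0 < u) (huν : u < ν * q)
    (huq : ∀ k : ℤ, 0 < k → k < p → (u * k) % (p * q) ≠ 0)
    (h : ∀ k : ℤ, 0 < k → k < p → (u * k) % (p * q) < q * ((ν * k) % p)) :
    ∃ K : ℤ, 0 < K ∧ K < p ∧ (ν * K) % p = 1 ∧ (u * K < q ∨ (ν * q - u) * K < q) := by
  -- the inverse of `ν`
  have hp0 : (0 : ℤ) < p := by omega
  obtain ⟨K, hK0, hKp, hK1⟩ : ∃ K : ℤ, 0 < K ∧ K < p ∧ (ν * K) % p = 1 := by
    obtain ⟨a, b, hab⟩ := hcop
    refine ⟨a % p, ?_, Int.emod_lt_of_pos _ hp0, ?_⟩
    · rcases (Int.emod_nonneg a hp0.ne').lt_or_eq with h1 | h1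
      · exact h1
      · exfalso
        have : p ∣ a := Int.dvd_of_emod_eq_zero h1.symm
        have h2 : p ∣ 1 := by
          rw [← hab]
          exact dvd_add (this.mul_right _) (dvd_mul_left _ _)
        have := Int.le_of_dvd one_pos h2
        omega
    · have : (ν * (a % p)) % p = (ν * a) % p := by
        rw [Int.mul_emod, Int.emod_emod_of_dvd _ (dvd_refl p), ← Int.mul_emod]
      rw [this]
      have h3 : ν * a = p * (-b) + 1 := by linarith
      exact emod_eq_of h3 (by norm_num) (by omega)
  refine ⟨K, hK0, hKp, hK1, ?_⟩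
  obtain ⟨n, hn⟩ : ∃ n, ν * K = p * n + 1 := ⟨(ν * K) / p, by
    have := Int.mul_ediv_add_emod (ν * K) p
    rw [hK1] at this; linarith⟩
  set m := (u * K) / (p * q) with hm
  set τ := (u * K) % (p * q) with hτ
  have hq0' : (0 : ℤ) < q := by omega
  have hN : (0 : ℤ) < p * q := by positivity
  have hmτ : u * K = p * q * m + τ := by
    have := Int.mul_ediv_add_emod (u * K) (p * q)
    linarith
  have hτ0 : 0 < τ := by
    rcases (Int.emod_nonneg (u * K) hN.ne').lt_or_eq with h1 | h1
    · exact h1
    · exact absurd h1.symm (huq K hK0 hKp)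
  have hτq : τ < q := by
    have := h K hK0 hKp
    rw [hK1, mul_one] at this
    exact this
  have hm0 : 0 ≤ m := by
    apply Int.ediv_nonneg
    · positivity
    · exact hN.le
  have hmn : m ≤ n := by
    have h1 : u * K < ν * q * K := by nlinarith
    have h2 : p * q * m < q * (p * n + 1) := by
      have : ν * q * K = q * (p * n + 1) := by rw [← hn]; ring
      linarith
    have h3 : q * (p * m) < q * (p * n + 1) := by linarith [mul_comm (p * q) m]
    have hq0 : 0 < q := by omega
    have h4 : p * m < p * n + 1 := lt_of_mul_lt_mul_left h3 hq0.le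
    have h5 : p * m ≤ p * n := by omega
    exact le_of_mul_le_mul_left h5 hp0
  rcases hm0.eq_or_lt with h1 | h1
  · left
    rw [hmτ, ← h1]; linarith
  rcases hmn.eq_or_lt with h2 | h2
  · right
    have : (ν * q - u) * K = q - τ := by
      have e : (ν * q - u) * K = q * (ν * K) - u * K := by ring
      rw [e, hn, hmτ, h2]; ring
    rw [this]; linarith
  -- `0 < m < n`
  exfalso
  have hnK : n < K := by
    have h3 : p * n + 1 < p * K := by
      rw [← hn]
      exact mul_lt_mul_of_pos_right hνp hK0
    have h4 : p * n < p * K := by linarith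
    exact lt_of_mul_lt_mul_left h4 hp0.le
  have hK2 : 2 ≤ K := by omega
  have hcn : IsCoprime n K := by
    refine ⟨-p, ν, ?_⟩
    linarith
  -- inverse of `n` mod `K`
  obtain ⟨k1, b, hk0, hkK, hk1⟩ : ∃ k1 b : ℤ, 0 < k1 ∧ k1 < K ∧ n * k1 = K * b + 1 := by
    obtain ⟨a, c, hac⟩ := hcn
    have hdiv := Int.mul_ediv_add_emod a K
    refine ⟨a % K, -c - n * (a / K), ?_, Int.emod_lt_of_pos _ hK0, ?_⟩
    · rcases (Int.emod_nonneg a hK0.ne').lt_or_eq with h1 | h1
      · exact h1
      · exfalso
        have h5 : K ∣ a := Int.dvd_of_emod_eq_zero h1.symm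
        have h6 : K ∣ 1 := by
          rw [← hac]
          exact dvd_add (h5.mul_right _) (dvd_mul_left _ _)
        have := Int.le_of_dvd one_pos h6
        omega
    · have : a % K = a - K * (a / K) := by linarith
      rw [this]
      linear_combination hac
  set c := (m * k1) / K with hc
  set r := (m * k1) % K with hr
  have hcr : m * k1 = K * c + r := by
    have := Int.mul_ediv_add_emod (m * k1) K
    linarith
  have hr0 : 0 ≤ r := Int.emod_nonneg _ hK0.ne'
  have hrK : r < K := Int.emod_lt_of_pos _ hK0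
  -- `r ≥ 2`
  have hk1K : IsCoprime k1 K := ⟨n, -b, by linear_combination hk1⟩
  have hr2 : 2 ≤ r := by
    by_contra hlt
    have h01 : r = 0 ∨ r = 1 := by omega
    rcases h01 with h0 | h0
    · rw [h0, add_zero] at hcr
      have h5 : K ∣ m * k1 := ⟨c, hcr⟩
      have h6 : K ∣ m := hk1K.symm.dvd_of_dvd_mul_right h5
      have := Int.le_of_dvd h1 h6
      omega
    · rw [h0] at hcr
      have h5 : K ∣ (n - m) * k1 := ⟨b - c, by linear_combination hk1 - hcr⟩
      have h6 : K ∣ n - m := hk1K.symm.dvd_of_dvd_mul_right h5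
      have := Int.le_of_dvd (by omega) h6
      omega
  have hk1p : k1 < p := by omega
  have hq0 : 0 < q := by omega
  -- residues
  have hy : (u * k1) % (p * q) * K = p * q * r + τ * k1 := by
    have e1 : (u * k1 - p * q * c) * K = p * q * r + τ * k1 := by
      linear_combination k1 * hmτ + p * q * hcr
    have h7 : 0 < p * q * r + τ * k1 := by positivity
    have h8 : p * q * r + τ * k1 < p * q * K := by
      have : p * q * r ≤ p * q * (K - 1) := by
        apply mul_le_mul_of_nonneg_left _ hN.le
        omega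
      have h9 : τ * k1 < p * q := by
        have : τ * k1 < q * K := by nlinarith
        have : q * K < q * p := by nlinarith
        nlinarith
      nlinarith
    have h9 : 0 < u * k1 - p * q * c := by
      rw [← e1] at h7
      exact (pos_iff_pos_of_mul_pos h7).mpr hK0
    have h10 : u * k1 - p * q * c < p * q := by
      rw [← e1] at h8
      exact lt_of_mul_lt_mul_right h8 hK0.le
    rw [emod_eq_of (N := p * q) (x := u * k1) (y := u * k1 - p * q * c) (c := c) (by ring) h9.le
      h10]
    exact e1
  have hz : (ν * k1) % p * K = k1 + p := by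
    have e1 : (ν * k1 - p * b) * K = k1 + p := by
      linear_combination k1 * hn + p * hk1
    have h7 : k1 + p < p * K := by nlinarith
    have h9 : 0 < ν * k1 - p * b := by
      have : 0 < (ν * k1 - p * b) * K := by rw [e1]; omega
      exact (pos_iff_pos_of_mul_pos this).mpr hK0
    have h10 : ν * k1 - p * b < p := by
      rw [← e1] at h7
      exact lt_of_mul_lt_mul_right h7 hK0.le
    rw [emod_eq_of (N := p) (x := ν * k1) (y := ν * k1 - p * b) (c := b) (by ring) h9.le h10]
    exact e1
  have hfin := h k1 hk0 hk1p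
  have h11 : (u * k1) % (p * q) * K < q * ((ν * k1) % p * K) := by
    have := mul_lt_mul_of_pos_right hfin hK0
    linarith [mul_assoc q ((ν * k1) % p) K]
  rw [hy, hz] at h11
  have h12 : p * q * 2 ≤ p * q * r := mul_le_mul_of_nonneg_left hr2 hN.le
  have h13 : 0 < τ * k1 := by positivity
  have h14 : q * k1 < q * p := mul_lt_mul_of_pos_left hk1p hq0
  nlinarith

end Pool.Agent.H67.Flat
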