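import Mathlib

set_option autoImplicit false

/-!
# Coefficients of ternary cyclotomic polynomials
-/

namespace Pool.Agent.H67.Flat

open PowerSeries

/-- indicator of the semigroup generated by `p` and `q` (below `pq`) -/
noncomputable def sF (p q lam x : ℤ) : ℤ := if q * ((lam * x) % p) ≤ x then 1 else 0

/-- coefficients of `Φ_pq` -/
noncomputable def aF (p q lam x : ℤ) : ℤ := sF p q lam x - sF p q lam (x - 1)

/-- coefficients of `1 / Φ_pq` -/
noncomputable def bF (p q x : ℤ) : ℤ :=
  (if x % (p * q) < p then 1 else 0) - (if q ≤ x % (p * q) ∧ x % (p * q) < q + p then 1 else 0)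

theorem sF_neg {p q lam x : ℤ} (hp : 0 < p) (hq : 0 < q) (hx : x < 0) : sF p q lam x = 0 := by
  unfold sF
  rw [if_neg]
  have h1 := Int.emod_nonneg (lam * x) hp.ne'
  have : 0 ≤ q * ((lam * x) % p) := mul_nonneg hq.le h1
  omega

theorem sF_sub {p q lam x : ℤ} (hp : 0 < p) (hq : 0 < q) (hlam : p ∣ lam * q - 1) :
    sF p q lam x - sF p q lam (x - p) = if q ∣ x ∧ 0 ≤ x ∧ x < p * q then 1 else 0 := by
  obtain ⟨c, hc⟩ := hlam
  have h1 := Int.emod_nonneg (lam * x) hp.ne'
  have h2 := Int.emod_lt_of_pos (lam * x) hp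
  have h3 := Int.mul_ediv_add_emod (lam * x) p
  have h4 : (lam * (x - p)) % p = (lam * x) % p := by
    have : lam * (x - p) = lam * x + p * (-lam) := by ring
    rw [this, Int.add_mul_emod_self_left]
  have hdvd : p ∣ x - q * ((lam * x) % p) := by
    refine ⟨q * (lam * x / p) - c * x, ?_⟩
    linear_combination (-q) * h3 - x * hc
  unfold sF
  rw [h4]
  set β := (lam * x) % p with hβ
  by_cases hx : x = q * β
  · rw [if_pos (by omega), if_neg (by omega), if_pos]
    · norm_num
    · refine ⟨⟨β, hx⟩, ?_, ?_⟩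
      · rw [hx]; exact mul_nonneg hq.le h1
      · rw [hx, mul_comm q β]
        exact mul_lt_mul_of_pos_right h2 hq
  · rw [if_neg (c := q ∣ x ∧ 0 ≤ x ∧ x < p * q)]
    · rcases lt_or_ge x (q * β) with h | h
      · rw [if_neg (by omega), if_neg (by omega)]; norm_num
      · have h5 : p ≤ x - q * β := Int.le_of_dvd (by omega) hdvd
        rw [if_pos (by omega), if_pos (by omega)]; norm_num
    · rintro ⟨⟨b, hb⟩, h0, hlt⟩
      apply hx
      have hb0 : 0 ≤ b := by
        by_contra hneg
        have : q * b < 0 := mul_neg_of_pos_of_neg hq (by omega)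
        omega
      have hbp : b < p := by
        rw [hb, mul_comm p q] at hlt
        exact lt_of_mul_lt_mul_left hlt hq.le
      have : β = b := by
        rw [hβ]
        have e : lam * x = b + p * (c * b) := by
          rw [hb]; linear_combination b * hc
        rw [e, Int.add_mul_emod_self_left]
        exact Int.emod_eq_of_lt hb0 hbp
      rw [this]; exact hb

theorem bF_periodic (p q x c : ℤ) : bF p q (x + p * q * c) = bF p q x := by
  unfold bF
  rw [Int.add_mul_emod_self_left]

theorem coeff_one_sub_X_pow_mul (f : ℕ → ℤ) (k n : ℕ) :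
    coeff n ((1 - (X : PowerSeries ℤ) ^ k) * mk f) =
      f n - (if k ≤ n then f (n - k) else 0) := by
  rw [sub_mul, one_mul, map_sub, coeff_mk, coeff_X_pow_mul', coeff_mk]

theorem polyId {p q : ℕ} (hp : p.Prime) (hq : q.Prime) (hpq : p ≠ q) :
    Polynomial.cyclotomic (p * q) ℤ * ((1 - Polynomial.X ^ p) * (1 - Polynomial.X ^ q)) =
      (1 - Polynomial.X) * (1 - Polynomial.X ^ (p * q)) := by
  have h1 := Polynomial.cyclotomic_prime_mul_X_sub_one ℤ p (hn := ⟨hp⟩)
  have h2 : Polynomial.expand ℤ q (Polynomial.cyclotomic p ℤ) =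
      Polynomial.cyclotomic (p * q) ℤ * Polynomial.cyclotomic p ℤ :=
    Polynomial.cyclotomic_expand_eq_cyclotomic_mul hq (fun h => hpq
      ((Nat.prime_dvd_prime_iff_eq hq hp).mp h).symm) ℤ
  have h3 := congrArg (Polynomial.expand ℤ q) h1
  rw [map_mul, h2] at h3
  simp only [map_sub, map_pow, Polynomial.expand_X, map_one] at h3
  have h4 : ((Polynomial.X : Polynomial ℤ) ^ q) ^ p = Polynomial.X ^ (p * q) := by
    rw [← pow_mul, mul_comm]
  rw [h4] at h3
  linear_combination (Polynomial.X - 1) * h3 -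
    Polynomial.cyclotomic (p * q) ℤ * (Polynomial.X ^ q - 1) * h1

theorem S_id {p q : ℕ} {lam : ℤ} (hp : 0 < p) (hq : 0 < q) (hlam : (p : ℤ) ∣ lam * q - 1) :
    (1 - (X : PowerSeries ℤ) ^ q) * ((1 - (X : PowerSeries ℤ) ^ p) *
      mk (fun j : ℕ => sF p q lam j)) = 1 - X ^ (p * q) := by
  have hp' : (0 : ℤ) < p := by exact_mod_cast hp
  have hq' : (0 : ℤ) < q := by exact_mod_cast hq
  have h1 : (1 - (X : PowerSeries ℤ) ^ p) * mk (fun j : ℕ => sF p q lam j) =
      mk (fun j : ℕ => if q ∣ j ∧ j < p * q then 1 else 0) := by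
    ext n
    rw [coeff_one_sub_X_pow_mul, coeff_mk]
    have h2 := sF_sub (x := (n : ℤ)) hp' hq' hlam
    have h3 : (if p ≤ n then sF p q lam ((n - p : ℕ) : ℤ) else 0) = sF p q lam ((n : ℤ) - p) := by
      split_ifs with h
      · rw [Nat.cast_sub h]
      · rw [sF_neg hp' hq']
        have : (n : ℤ) < p := by exact_mod_cast not_le.mp h
        omega
    rw [h3, h2]
    have h4 : ((q : ℤ) ∣ (n : ℤ) ∧ 0 ≤ (n : ℤ) ∧ (n : ℤ) < (p : ℤ) * q) ↔ (q ∣ n ∧ n < p * q) := by
      constructor
      · rintro ⟨a, -, b⟩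
        exact ⟨by exact_mod_cast a, by exact_mod_cast b⟩
      · rintro ⟨a, b⟩
        exact ⟨by exact_mod_cast a, Int.natCast_nonneg n, by exact_mod_cast b⟩
    simp only [h4]
  rw [h1]
  ext n
  rw [coeff_one_sub_X_pow_mul, map_sub, coeff_one, coeff_X_pow]
  have hpq0 : 0 < p * q := Nat.mul_pos hp hq
  rcases Nat.lt_or_ge n q with h | h
  · rw [if_neg (by omega : ¬ q ≤ n)]
    have h5 : (q ∣ n ∧ n < p * q) ↔ n = 0 := by
      constructor
      · rintro ⟨a, -⟩
        exact Nat.eq_zero_of_dvd_of_lt a h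
      · rintro rfl
        exact ⟨dvd_zero _, hpq0⟩
    have h6 : n ≠ p * q := by
      intro e
      have : 1 * q ≤ p * q := Nat.mul_le_mul_right q hp
      omega
    simp only [h5, if_neg h6]
  · rw [if_pos h]
    have h5 : n ≠ 0 := by omega
    rw [if_neg h5]
    by_cases hd : q ∣ n
    · have hd' : q ∣ n - q := Nat.dvd_sub hd (dvd_refl q)
      by_cases he : n = p * q
      · rw [if_neg (by omega), if_pos ⟨hd', by omega⟩, if_pos he]
      · rw [if_neg he]
        rcases Nat.lt_or_ge n (p * q) with h7 | h7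
        · rw [if_pos ⟨hd, h7⟩, if_pos ⟨hd', by omega⟩]; norm_num
        · rw [if_neg (by omega), if_neg]
          · rintro ⟨-, h8⟩
            obtain ⟨m, rfl⟩ := hd
            have h9 : p < m := by
              rw [mul_comm p q] at h7 he
              rcases (Nat.le_of_mul_le_mul_left h7 hq).lt_or_eq with h10 | h10
              · exact h10
              · exact absurd (by rw [h10]) he
            have h10 : q * (p + 1) ≤ q * m := Nat.mul_le_mul_left q h9
            have h11 : q * (p + 1) = p * q + q := by ring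
            omega
    · have hd' : ¬ q ∣ n - q := by
        intro h6
        apply hd
        have := Nat.dvd_add h6 (dvd_refl q)
        rwa [Nat.sub_add_cancel h] at this
      have he : n ≠ p * q := by
        rintro rfl
        exact hd (dvd_mul_left _ _)
      rw [if_neg (by tauto), if_neg (by tauto), if_neg he]

theorem B_id {p q : ℕ} (hp : 0 < p) (hpq : p < q) (hp2 : 2 ≤ p) :
    (1 - (X : PowerSeries ℤ)) * ((1 - (X : PowerSeries ℤ) ^ (p * q)) *
      mk (fun j : ℕ => bF p q j)) = (1 - X ^ p) * (1 - X ^ q) := by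
  have hq : 0 < q := by omega
  have hN : 0 < p * q := Nat.mul_pos hp hq
  have h2q : 2 * q ≤ p * q := Nat.mul_le_mul_right q hp2
  have h1 : (1 - (X : PowerSeries ℤ) ^ (p * q)) * mk (fun j : ℕ => bF p q j) =
      mk (fun j : ℕ => (if j < p then 1 else 0) - (if q ≤ j ∧ j < q + p then 1 else 0)) := by
    ext n
    rw [coeff_one_sub_X_pow_mul, coeff_mk]
    rcases Nat.lt_or_ge n (p * q) with h | h
    · rw [if_neg (by omega : ¬ p * q ≤ n), sub_zero]
      unfold bF
      have h3 : (n : ℤ) % ((p : ℤ) * q) = n := by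
        apply Int.emod_eq_of_lt (Int.natCast_nonneg n)
        exact_mod_cast h
      rw [h3]
      have h4 : ((n : ℤ) < p) ↔ n < p := by exact_mod_cast Iff.rfl
      have h5 : ((q : ℤ) ≤ n ∧ (n : ℤ) < q + p) ↔ (q ≤ n ∧ n < q + p) := by
        exact_mod_cast Iff.rfl
      simp only [h4, h5]
    · rw [if_pos h, if_neg (by omega), if_neg (by omega)]
      have h3 : (n : ℤ) = ((n - p * q : ℕ) : ℤ) + p * q * 1 := by
        rw [Nat.cast_sub h]; push_cast; ring
      conv_lhs => rw [h3]
      rw [bF_periodic]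
      ring
  rw [h1]
  have h2 : ∀ n, coeff n ((1 - (X : PowerSeries ℤ)) * mk (fun j : ℕ =>
      ((if j < p then 1 else 0) - (if q ≤ j ∧ j < q + p then 1 else 0) : ℤ))) =
      ((if n < p then 1 else 0) - (if q ≤ n ∧ n < q + p then 1 else 0)) -
      (if 1 ≤ n then ((if n - 1 < p then 1 else 0) -
        (if q ≤ n - 1 ∧ n - 1 < q + p then 1 else 0)) else 0) := by
    intro n
    have := coeff_one_sub_X_pow_mul (fun j : ℕ =>
      ((if j < p then 1 else 0) - (if q ≤ j ∧ j < q + p then 1 else 0) : ℤ)) 1 n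
    rw [pow_one] at this
    exact this
  ext n
  rw [h2]
  have h3 : (1 - (X : PowerSeries ℤ) ^ p) * (1 - X ^ q) = 1 - X ^ p - X ^ q + X ^ (p + q) := by
    rw [pow_add]; ring
  rw [h3]
  simp only [map_add, map_sub, coeff_one, coeff_X_pow]
  split_ifs <;> omega

theorem one_sub_X_pow_ne_zero {k : ℕ} (hk : 0 < k) : (1 - (X : PowerSeries ℤ) ^ k) ≠ 0 := by
  intro h
  have := congrArg (coeff 0) h
  rw [map_sub, coeff_one, coeff_X_pow, if_pos rfl, if_neg (by omega), map_zero] at this
  norm_num at this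

/-- `Φ_pq = (1 - X) S` -/
theorem cyc_eq {p q : ℕ} {lam : ℤ} (hp : p.Prime) (hq : q.Prime) (hpq : p ≠ q)
    (hlam : (p : ℤ) ∣ lam * q - 1) :
    ((Polynomial.cyclotomic (p * q) ℤ : Polynomial ℤ) : PowerSeries ℤ) =
      mk (fun j : ℕ => aF p q lam j) := by
  have hp' : (0 : ℤ) < p := by exact_mod_cast hp.pos
  have hq' : (0 : ℤ) < q := by exact_mod_cast hq.pos
  have h1 : mk (fun j : ℕ => aF p q lam j) =
      (1 - (X : PowerSeries ℤ)) * mk (fun j : ℕ => sF p q lam j) := by
    ext n
    have := coeff_one_sub_X_pow_mul (fun j : ℕ => sF p q lam j) 1 n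
    rw [pow_one] at this
    rw [this, coeff_mk]
    unfold aF
    split_ifs with h
    · rw [Nat.cast_sub h, Nat.cast_one]
    · rw [sF_neg (x := (n : ℤ) - 1) hp' hq']
      have : n = 0 := by omega
      rw [this]; norm_num
  rw [h1]
  have h2 := S_id (p := p) (q := q) hp.pos hq.pos hlam
  have h3 := congrArg (fun f : Polynomial ℤ => (f : PowerSeries ℤ)) (polyId hp hq hpq)
  simp only [Polynomial.coe_mul, Polynomial.coe_sub, Polynomial.coe_one, Polynomial.coe_pow,
    Polynomial.coe_X] at h3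
  have h4 : (1 - (X : PowerSeries ℤ) ^ p) * (1 - X ^ q) ≠ 0 :=
    mul_ne_zero (one_sub_X_pow_ne_zero hp.pos) (one_sub_X_pow_ne_zero hq.pos)
  apply mul_right_cancel₀ h4
  rw [h3, ← h2]
  ring

theorem coeff_formula {p q r : ℕ} {lam : ℤ} (hp : p.Prime) (hq : q.Prime) (hr : r.Prime)
    (hpq : p < q) (hqr : q < r) (hlam : (p : ℤ) ∣ lam * q - 1) (n : ℕ) :
    (Polynomial.cyclotomic (p * q * r) ℤ).coeff n =
      ∑ j ∈ Finset.range (n / r + 1), aF p q lam j * bF p q ((n : ℤ) - r * j) := by
  have h1 : Polynomial.expand ℤ r (Polynomial.cyclotomic (p * q) ℤ) =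
      Polynomial.cyclotomic (p * q * r) ℤ * Polynomial.cyclotomic (p * q) ℤ := by
    apply Polynomial.cyclotomic_expand_eq_cyclotomic_mul hr
    intro h
    rcases (Nat.Prime.dvd_mul hr).mp h with h | h
    · have := Nat.le_of_dvd hp.pos h; omega
    · have := Nat.le_of_dvd hq.pos h; omega
  -- `B * Φ_pq = 1`
  have hB : ((Polynomial.cyclotomic (p * q) ℤ : Polynomial ℤ) : PowerSeries ℤ) *
      mk (fun j : ℕ => bF p q j) = 1 := by
    have h2 := B_id (p := p) (q := q) hp.pos hpq hp.two_le
    have h3 := congrArg (fun f : Polynomial ℤ => (f : PowerSeries ℤ)) (polyId hp hq hpq.ne)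
    simp only [Polynomial.coe_mul, Polynomial.coe_sub, Polynomial.coe_one, Polynomial.coe_pow,
      Polynomial.coe_X] at h3
    have h4 : (1 - (X : PowerSeries ℤ)) * (1 - X ^ (p * q)) ≠ 0 := by
      refine mul_ne_zero ?_ (one_sub_X_pow_ne_zero (Nat.mul_pos hp.pos hq.pos))
      have := one_sub_X_pow_ne_zero (k := 1) one_pos
      rwa [pow_one] at this
    apply mul_left_cancel₀ h4
    rw [← h2] at h3
    rw [mul_one]
    calc (1 - (X : PowerSeries ℤ)) * (1 - X ^ (p * q)) *
          (((Polynomial.cyclotomic (p * q) ℤ : Polynomial ℤ) : PowerSeries ℤ) *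
            mk (fun j : ℕ => bF p q j)) =
        ((Polynomial.cyclotomic (p * q) ℤ : Polynomial ℤ) : PowerSeries ℤ) *
          ((1 - (X : PowerSeries ℤ)) * ((1 - (X : PowerSeries ℤ) ^ (p * q)) *
            mk (fun j : ℕ => bF p q j))) := by ring
      _ = (1 - X) * (1 - X ^ (p * q)) := by rw [h3]
  have h5 := congrArg (fun f : Polynomial ℤ => (f : PowerSeries ℤ)) h1
  simp only [Polynomial.coe_mul] at h5
  have h6 : ((Polynomial.cyclotomic (p * q * r) ℤ : Polynomial ℤ) : PowerSeries ℤ) =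
      ((Polynomial.expand ℤ r (Polynomial.cyclotomic (p * q) ℤ) : Polynomial ℤ) :
        PowerSeries ℤ) * mk (fun j : ℕ => bF p q j) := by
    rw [h5]
    have e : ∀ a b c : PowerSeries ℤ, b * c = 1 → a = a * b * c := by
      intro a b c h
      rw [_root_.mul_assoc, h, mul_one]
    exact e _ _ _ hB
  have h7 : (Polynomial.cyclotomic (p * q * r) ℤ).coeff n =
      coeff n ((Polynomial.cyclotomic (p * q * r) ℤ : Polynomial ℤ) : PowerSeries ℤ) :=
    (Polynomial.coeff_coe _ _).symm
  rw [h7, h6, coeff_mul, Finset.Nat.sum_antidiagonal_eq_sum_range_succ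
    (fun i j => coeff i ((Polynomial.expand ℤ r (Polynomial.cyclotomic (p * q) ℤ) :
      Polynomial ℤ) : PowerSeries ℤ) * coeff j (mk (fun j : ℕ => bF p q j))) n]
  simp only [Polynomial.coeff_coe, coeff_mk]
  -- reindex
  have hr0 : 0 < r := hr.pos
  have hinj : Function.Injective (fun j : ℕ => r * j) :=
    fun a b h => Nat.eq_of_mul_eq_mul_left hr0 h
  have hcyc : ∀ j : ℕ, (Polynomial.cyclotomic (p * q) ℤ).coeff j = aF p q lam j := by
    intro j
    have h8 := congrArg (coeff j) (cyc_eq hp hq hpq.ne hlam)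
    rw [Polynomial.coeff_coe, coeff_mk] at h8
    exact h8
  have hF : ∀ j ∈ Finset.range (n / r + 1), aF p q lam j * bF p q ((n : ℤ) - r * j) =
      (fun i : ℕ => (Polynomial.expand ℤ r (Polynomial.cyclotomic (p * q) ℤ)).coeff i *
        bF p q ((n - i : ℕ) : ℤ)) (r * j) := by
    intro j hj
    rw [Finset.mem_range] at hj
    have h9 : r * j ≤ n := by
      have h10 : j ≤ n / r := by omega
      calc r * j ≤ r * (n / r) := Nat.mul_le_mul_left r h10
        _ ≤ n := Nat.mul_div_le n r
    simp only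
    rw [Polynomial.coeff_expand_mul' hr0, hcyc, Nat.cast_sub h9]
    push_cast
    rfl
  rw [Finset.sum_congr rfl hF, ← Finset.sum_image (g := fun j => r * j)
    (s := Finset.range (n / r + 1)) (f := fun i : ℕ => (Polynomial.expand ℤ r
      (Polynomial.cyclotomic (p * q) ℤ)).coeff i * bF p q ((n - i : ℕ) : ℤ))
    (fun a _ b _ h => hinj h)]
  symm
  apply Finset.sum_subset
  · intro x hx
    rw [Finset.mem_image] at hx
    obtain ⟨j, hj, rfl⟩ := hx
    rw [Finset.mem_range] at hj
    rw [Finset.mem_range]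
    have h10 : j ≤ n / r := by omega
    have h11 : r * j ≤ n := (Nat.mul_le_mul_left r h10).trans (Nat.mul_div_le n r)
    omega
  · intro x hx hx'
    rw [Finset.mem_range] at hx
    rw [Polynomial.coeff_expand hr0, if_neg, zero_mul]
    rintro ⟨j, rfl⟩
    apply hx'
    rw [Finset.mem_image]
    refine ⟨j, ?_, rfl⟩
    rw [Finset.mem_range]
    have : j ≤ n / r := by
      rw [Nat.le_div_iff_mul_le hr0, mul_comm]
      omega
    omega

end Pool.Agent.H67.Flat
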