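import Mathlib
import Pool.Agent.H67.Flat.Arith
import Pool.Agent.H67.Flat.Coeff

set_option autoImplicit false

/-!
# Heights are bounded for flat ternary cyclotomic polynomials
-/

namespace Pool.Agent.H67.Flat

/-- partial sums in the time direction -/
noncomputable def HH (p q lam r m : ℤ) (T : ℕ) : ℤ :=
  ∑ j ∈ Finset.range (T + 1), aF p q lam j * bF p q (r * (m - j))

theorem sF_01 (p q lam x : ℤ) : sF p q lam x = 0 ∨ sF p q lam x = 1 := by
  unfold sF; split_ifs <;> simp

theorem bF_congr {p q x y c : ℤ} (h : x = y + p * q * c) : bF p q x = bF p q y := by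
  rw [h, bF_periodic]

theorem toNat_div {x : ℤ} {r T : ℕ} (h0 : 0 ≤ x) (h1 : (T : ℤ) * r ≤ x)
    (h2 : x < ((T : ℤ) + 1) * r) : x.toNat / r = T := by
  lift x to ℕ using h0
  rw [Int.toNat_natCast]
  apply Nat.div_eq_of_lt_le
  · exact_mod_cast h1
  · exact_mod_cast h2

theorem HH_bound {p q r : ℕ} {lam : ℤ} (hp : p.Prime) (hq : q.Prime) (hr : r.Prime)
    (hpq : p < q) (hqr : q < r) (hlam : (p : ℤ) ∣ lam * q - 1)
    (hflat : ∀ n : ℕ, |(Polynomial.cyclotomic (p * q * r) ℤ).coeff n| ≤ 1) (m : ℤ) (T : ℕ) :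
    |HH p q lam r m T| ≤ 1 := by
  have hN : (0 : ℤ) < (p : ℤ) * q := by
    have := hp.pos; have := hq.pos
    positivity
  have hr0 : 0 < r := hr.pos
  have hp2 := hp.two_le
  have hpqN : (q : ℤ) + p < (p : ℤ) * q ∨ (q : ℤ) + p ≤ (p : ℤ) * q := by
    right
    have h1 : 2 * q ≤ p * q := Nat.mul_le_mul_right q hp2
    have : (2 : ℤ) * q ≤ (p : ℤ) * q := by exact_mod_cast h1
    have : (p : ℤ) < q := by exact_mod_cast hpq
    omega
  -- coefficients as heights
  have key : ∀ T : ℕ, ∀ δ : ℤ, 0 ≤ δ → δ = (r * (m - T)) % ((p : ℤ) * q) →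
      ∀ T' : ℕ, ((r : ℤ) * T + δ).toNat / r = T' →
      |HH p q lam r m T'| ≤ 1 := by
    intro T δ hδ0 hδ T' hT'
    have h1 := hflat ((r : ℤ) * T + δ).toNat
    rw [coeff_formula hp hq hr hpq hqr hlam, hT'] at h1
    have hnn : 0 ≤ (r : ℤ) * T + δ := by positivity
    have h2 : ∀ j : ℕ, bF p q (((((r : ℤ) * T + δ).toNat : ℕ) : ℤ) - r * j) =
        bF p q (r * (m - j)) := by
      intro j
      rw [Int.toNat_of_nonneg hnn]
      apply bF_congr (c := -((r * (m - T)) / ((p : ℤ) * q)))
      have h3 := Int.mul_ediv_add_emod ((r : ℤ) * (m - T)) ((p : ℤ) * q)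
      rw [hδ]
      linear_combination h3
    unfold HH
    rw [Finset.sum_congr rfl (fun j _ => by rw [← h2 j])]
    exact h1
  -- induction
  induction T with
  | zero =>
    have := key 0 ((r * (m - (0 : ℕ))) % ((p : ℤ) * q)) (Int.emod_nonneg _ hN.ne') rfl
    unfold HH
    rw [Finset.sum_range_one]
    have h1 : |aF p q lam ((0 : ℕ) : ℤ)| ≤ 1 := by
      unfold aF
      rcases sF_01 p q lam ((0 : ℕ) : ℤ) with h | h <;>
      rcases sF_01 p q lam (((0 : ℕ) : ℤ) - 1) with h' | h' <;> rw [h, h'] <;> norm_num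
    have h2 : |bF p q (r * (m - ((0 : ℕ) : ℤ)))| ≤ 1 := by
      unfold bF
      split_ifs <;> norm_num
    rw [abs_mul]
    calc _ ≤ (1 : ℤ) * 1 := mul_le_mul h1 h2 (abs_nonneg _) zero_le_one
      _ = 1 := by norm_num
  | succ T ih =>
    have hstep : HH p q lam r m (T + 1) = HH p q lam r m T +
        aF p q lam ((T + 1 : ℕ) : ℤ) * bF p q (r * (m - ((T + 1 : ℕ) : ℤ))) := by
      unfold HH
      rw [Finset.sum_range_succ]
    have hstep2 : HH p q lam r m (T + 1 + 1) = HH p q lam r m (T + 1) +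
        aF p q lam ((T + 1 + 1 : ℕ) : ℤ) * bF p q (r * (m - ((T + 1 + 1 : ℕ) : ℤ))) := by
      unfold HH
      rw [Finset.sum_range_succ _ (T + 1 + 1)]
    set δ := (r * (m - ((T + 1 : ℕ) : ℤ))) % ((p : ℤ) * q) with hδ
    have hδ0 : 0 ≤ δ := Int.emod_nonneg _ hN.ne'
    have hδN : δ < (p : ℤ) * q := Int.emod_lt_of_pos _ hN
    have hnn : 0 ≤ (r : ℤ) * ((T + 1 : ℕ) : ℤ) + δ := by positivity
    have hprz : (p : ℤ) < q := by exact_mod_cast hpq
    have hqrz : (q : ℤ) < r := by exact_mod_cast hqr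
    rcases lt_or_ge δ (r : ℤ) with hlt | hge
    · apply key (T + 1) δ hδ0 hδ (T + 1)
      apply toNat_div hnn
      · push_cast
        linarith [mul_comm (r : ℤ) ((T : ℤ) + 1)]
      · push_cast
        have : ((T : ℤ) + 1 + 1) * r = r * (T + 1) + r := by ring
        linarith
    · by_cases hb : δ < (q : ℤ) + p
      · -- second block
        have hT2 := key (T + 1) δ hδ0 hδ (T + 1 + 1) (by
          apply toNat_div hnn
          · push_cast
            have : ((T : ℤ) + 1 + 1) * r = r * (T + 1) + r := by ring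
            linarith
          · push_cast
            have : ((T : ℤ) + 1 + 1 + 1) * r = r * (T + 1) + r + r := by ring
            linarith)
        have hb1 : bF p q (r * (m - ((T + 1 : ℕ) : ℤ))) = -1 := by
          unfold bF
          rw [← hδ, if_neg (by omega), if_pos ⟨by omega, hb⟩]
          norm_num
        have hb2 : bF p q (r * (m - ((T + 1 + 1 : ℕ) : ℤ))) = 1 := by
          unfold bF
          have h4 : (r * (m - ((T + 1 + 1 : ℕ) : ℤ))) % ((p : ℤ) * q) = δ - r := by
            have h3 := Int.mul_ediv_add_emod ((r : ℤ) * (m - ((T + 1 : ℕ) : ℤ))) ((p : ℤ) * q)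
            rw [← hδ] at h3
            refine emod_eq_of (c := (r * (m - ((T + 1 : ℕ) : ℤ))) / ((p : ℤ) * q)) ?_
              (by omega) (by omega)
            push_cast at h3 ⊢
            linear_combination -h3
          rw [h4, if_pos (by omega), if_neg (by omega)]
          norm_num
        rw [hstep2, hstep, hb1, hb2] at hT2
        rw [hstep, hb1]
        unfold aF at hT2 ⊢
        have e1 : (((T + 1 + 1 : ℕ) : ℤ)) - 1 = ((T + 1 : ℕ) : ℤ) := by push_cast; ring
        rw [e1] at hT2
        rw [abs_le] at ih hT2 ⊢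
        rcases sF_01 p q lam ((T + 1 + 1 : ℕ) : ℤ) with h1 | h1 <;>
        rcases sF_01 p q lam ((T + 1 : ℕ) : ℤ) with h2 | h2 <;>
        rcases sF_01 p q lam (((T + 1 : ℕ) : ℤ) - 1) with h3 | h3 <;>
        rw [h1, h2, h3] at hT2 <;> rw [h2, h3] <;> omega
      · have hb1 : bF p q (r * (m - ((T + 1 : ℕ) : ℤ))) = 0 := by
          unfold bF
          rw [← hδ, if_neg (by omega), if_neg (by omega)]
          norm_num
        rw [hstep, hb1, mul_zero, add_zero]
        exact ih

/-- truncated coefficients of `Φ_pq`, periodically extended -/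
noncomputable def aT (p q lam T x : ℤ) : ℤ :=
  if x % (p * q) ≤ T then aF p q lam (x % (p * q)) else 0

/-- heights in the particle picture -/
noncomputable def FF (p : ℕ) (q lam u m T : ℤ) : ℤ :=
  ∑ i ∈ Finset.range p, (aT p q lam T (m - u * i) - aT p q lam T (m - u * (q + i)))

theorem aT_congr {p q lam T x y c : ℤ} (h : x = y + p * q * c) :
    aT p q lam T x = aT p q lam T y := by
  unfold aT
  rw [h, Int.add_mul_emod_self_left]

theorem bF_eq_sum {p : ℕ} {q x : ℤ} (hN : 0 < (p : ℤ) * q) :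
    bF p q x = ∑ i ∈ Finset.range p,
      ((if x % (p * q) = i then 1 else 0) - (if x % (p * q) = q + i then 1 else 0)) := by
  rw [Finset.sum_sub_distrib]
  unfold bF
  set y := x % (p * q)
  have h1 : (∑ i ∈ Finset.range p, (if y = (i : ℤ) then (1 : ℤ) else 0)) =
      if 0 ≤ y ∧ y < p then 1 else 0 := by
    by_cases h : 0 ≤ y ∧ y < p
    · rw [if_pos h]
      rw [Finset.sum_eq_single y.toNat]
      · rw [if_pos (Int.toNat_of_nonneg h.1).symm]
      · intro b _ hb
        rw [if_neg]
        intro e; apply hb; omega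
      · intro hn
        exfalso; apply hn
        rw [Finset.mem_range]; omega
    · rw [if_neg h]
      apply Finset.sum_eq_zero
      intro i hi
      rw [Finset.mem_range] at hi
      rw [if_neg]
      intro e; apply h; omega
  have h2 : (∑ i ∈ Finset.range p, (if y = q + (i : ℤ) then (1 : ℤ) else 0)) =
      if q ≤ y ∧ y < q + p then 1 else 0 := by
    by_cases h : q ≤ y ∧ y < q + p
    · rw [if_pos h]
      rw [Finset.sum_eq_single (y - q).toNat]
      · rw [if_pos (by omega)]
      · intro b _ hb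
        rw [if_neg]
        intro e; apply hb; omega
      · intro hn
        exfalso; apply hn
        rw [Finset.mem_range]; omega
    · rw [if_neg h]
      apply Finset.sum_eq_zero
      intro i hi
      rw [Finset.mem_range] at hi
      rw [if_neg]
      intro e; apply h; omega
  rw [h1, h2]
  have hy : 0 ≤ y := Int.emod_nonneg _ hN.ne'
  have h3 : (0 ≤ y ∧ y < p) ↔ y < p := ⟨fun h => h.2, fun h => ⟨hy, h⟩⟩
  simp only [h3]

/-- The inner sum: for each `c` there is exactly one `j` with `r (m - j) ≡ c`. -/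
theorem inner_sum {p q lam r u m c : ℤ} (T : ℕ) (hN : 0 < p * q) (hTN : (T : ℤ) < p * q)
    (hur : p * q ∣ u * r - 1) (hc0 : 0 ≤ c) (hcN : c < p * q) :
    (∑ j ∈ Finset.range (T + 1), aF p q lam j * (if (r * (m - j)) % (p * q) = c then 1 else 0)) =
      aT p q lam T (m - u * c) := by
  obtain ⟨d, hd⟩ := hur
  set y := (m - u * c) % (p * q) with hy
  have hy0 : 0 ≤ y := Int.emod_nonneg _ hN.ne'
  have hyN : y < p * q := Int.emod_lt_of_pos _ hN
  have hy' := Int.mul_ediv_add_emod (m - u * c) (p * q)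
  rw [← hy] at hy'
  have hiff : ∀ j : ℕ, (j : ℤ) < p * q → ((r * (m - j)) % (p * q) = c ↔ (j : ℤ) = y) := by
    intro j hj
    constructor
    · intro h
      have h1 := Int.mul_ediv_add_emod (r * (m - j)) (p * q)
      rw [h] at h1
      -- `j ≡ m - u c`
      symm
      refine emod_eq_of (c := u * (r * (m - j) / (p * q)) - (m - j) * d) ?_
        (Int.natCast_nonneg j) hj
      linear_combination -u * h1 - (m - j) * hd
    · intro h
      refine emod_eq_of (c := r * ((m - u * c) / (p * q)) + c * d) ?_ hc0 hcN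
      rw [h]
      linear_combination -r * hy' + c * hd
  unfold aT
  rw [← hy]
  by_cases hyT : y ≤ T
  · rw [if_pos hyT, Finset.sum_eq_single y.toNat]
    · rw [Int.toNat_of_nonneg hy0, if_pos, mul_one]
      have := (hiff y.toNat (by omega)).mpr (Int.toNat_of_nonneg hy0)
      rwa [Int.toNat_of_nonneg hy0] at this
    · intro b hb hne
      rw [Finset.mem_range] at hb
      rw [if_neg, mul_zero]
      intro h
      have := (hiff b (by omega)).mp h
      omega
    · intro hn
      exfalso; apply hn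
      rw [Finset.mem_range]; omega
  · rw [if_neg hyT]
    apply Finset.sum_eq_zero
    intro j hj
    rw [Finset.mem_range] at hj
    rw [if_neg, mul_zero]
    intro h
    have := (hiff j (by omega)).mp h
    omega

theorem HH_eq_FF {p : ℕ} {q lam r u m : ℤ} (T : ℕ) (hp : 0 < p) (hpq : (p : ℤ) < q)
    (hp2 : 2 ≤ p) (hTN : (T : ℤ) < p * q) (hur : (p : ℤ) * q ∣ u * r - 1) :
    HH p q lam r m T = FF p q lam u m T := by
  have hq : 0 < q := by omega
  have hp' : (0 : ℤ) < p := by exact_mod_cast hp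
  have hN : 0 < (p : ℤ) * q := by positivity
  have h2 : 2 * q ≤ (p : ℤ) * q := by
    apply mul_le_mul_of_nonneg_right _ hq.le
    exact_mod_cast hp2
  unfold HH FF
  have h1 : ∀ j ∈ Finset.range (T + 1), aF p q lam j * bF p q (r * (m - j)) =
      ∑ i ∈ Finset.range p, (aF p q lam j * (if (r * (m - j)) % (p * q) = (i : ℤ) then 1 else 0) -
        aF p q lam j * (if (r * (m - j)) % (p * q) = q + i then 1 else 0)) := by
    intro j _
    rw [bF_eq_sum hN, Finset.mul_sum]
    apply Finset.sum_congr rfl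
    intro i _
    rw [mul_sub]
  rw [Finset.sum_congr rfl h1, Finset.sum_comm]
  apply Finset.sum_congr rfl
  intro i hi
  rw [Finset.mem_range] at hi
  have hi' : (i : ℤ) < p := by exact_mod_cast hi
  rw [Finset.sum_sub_distrib, inner_sum T hN hTN hur (Int.natCast_nonneg i) (by omega),
    inner_sum T hN hTN hur (by omega) (by omega)]

/-- The height function changes sign under `u → -u`. -/
theorem FF_neg {p : ℕ} {q lam u m T : ℤ} :
    FF p q lam (-u) m T = -FF p q lam u (m + u * (q + p - 1)) T := by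
  unfold FF
  rw [← Finset.sum_range_reflect, ← Finset.sum_neg_distrib]
  apply Finset.sum_congr rfl
  intro i hi
  rw [Finset.mem_range] at hi
  have h1 : ((p - 1 - i : ℕ) : ℤ) = (p : ℤ) - 1 - i := by
    have : i ≤ p - 1 := by omega
    rw [Nat.cast_sub this, Nat.cast_sub (by omega)]
    norm_num
  rw [h1, neg_sub]
  congr 2 <;> ring

theorem FF_congr {p : ℕ} {q lam u u' m T : ℤ} (h : (p : ℤ) * q ∣ u - u') :
    FF p q lam u m T = FF p q lam u' m T := by
  obtain ⟨c, hc⟩ := h
  unfold FF
  apply Finset.sum_congr rfl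
  intro i _
  rw [aT_congr (c := -c * i) (by linear_combination (-(i : ℤ)) * hc :
      m - u * i = m - u' * i + p * q * (-c * i)),
    aT_congr (c := -c * (q + i)) (by linear_combination (-(q + i : ℤ)) * hc :
      m - u * (q + i) = m - u' * (q + i) + p * q * (-c * (q + i)))]

theorem FF_of_neg {p : ℕ} {q lam u m T : ℤ} (hN : 0 < (p : ℤ) * q) (hT : T < 0) :
    FF p q lam u m T = 0 := by
  unfold FF
  apply Finset.sum_eq_zero
  intro i _
  unfold aT
  rw [if_neg, if_neg, sub_zero]
  · have := Int.emod_nonneg (m - u * (q + i)) hN.ne'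
    omega
  · have := Int.emod_nonneg (m - u * i) hN.ne'
    omega

theorem FF_of_ge {p : ℕ} {q lam u m T : ℤ} (hN : 0 < (p : ℤ) * q) (hT : (p : ℤ) * q ≤ T) :
    FF p q lam u m T = FF p q lam u m (p * q - 1) := by
  unfold FF
  apply Finset.sum_congr rfl
  intro i _
  unfold aT
  have h1 := Int.emod_lt_of_pos (m - u * (q + i)) hN
  have h2 := Int.emod_lt_of_pos (m - u * i) hN
  rw [if_pos (by omega), if_pos (by omega), if_pos (by omega), if_pos (by omega)]

/-- Main consequence of flatness: all heights are bounded by one, for both signs of `u`. -/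
theorem FF_bound {p q r : ℕ} {lam u : ℤ} (hp : p.Prime) (hq : q.Prime) (hr : r.Prime)
    (hpq : p < q) (hqr : q < r) (hlam : (p : ℤ) ∣ lam * q - 1)
    (hur : (p : ℤ) * q ∣ u * r - 1 ∨ (p : ℤ) * q ∣ u * r + 1)
    (hflat : ∀ n : ℕ, |(Polynomial.cyclotomic (p * q * r) ℤ).coeff n| ≤ 1) (m T : ℤ) :
    |FF p q lam u m T| ≤ 1 := by
  have hN : 0 < (p : ℤ) * q := by
    have := hp.pos; have := hq.pos
    positivity
  have main : ∀ u' : ℤ, (p : ℤ) * q ∣ u' * r - 1 → ∀ m T : ℤ, |FF p q lam u' m T| ≤ 1 := by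
    intro u' hu' m T
    have h1 : ∀ T : ℕ, (T : ℤ) < p * q → |FF p q lam u' m T| ≤ 1 := by
      intro T hT
      rw [← HH_eq_FF (r := r) T hp.pos (by exact_mod_cast hpq) hp.two_le hT hu']
      exact HH_bound hp hq hr hpq hqr hlam hflat m T
    rcases lt_or_ge T 0 with h | h
    · rw [FF_of_neg hN h]; norm_num
    · rcases lt_or_ge T (p * q) with h' | h'
      · have := h1 T.toNat (by rw [Int.toNat_of_nonneg h]; exact h')
        rwa [Int.toNat_of_nonneg h] at this
      · rw [FF_of_ge hN h']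
        have h2 : (0 : ℤ) ≤ p * q - 1 := by omega
        have := h1 (p * q - 1 : ℤ).toNat (by rw [Int.toNat_of_nonneg h2]; omega)
        rwa [Int.toNat_of_nonneg h2] at this
  rcases hur with h | h
  · exact main u h m T
  · have h3 : (p : ℤ) * q ∣ (-u) * r - 1 := by
      obtain ⟨c, hc⟩ := h
      exact ⟨-c, by linear_combination -hc⟩
    have h4 := FF_neg (p := p) (q := q) (lam := lam) (u := -u) (m := m) (T := T)
    rw [neg_neg] at h4
    rw [h4, abs_neg]
    exact main _ h3 _ _

end Pool.Agent.H67.Flat
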