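import Mathlib
import Pool.Agent.H67.Flat.Arith

set_option autoImplicit false

/-!
# The abstract event system of a flat ternary cyclotomic polynomial
-/

namespace Pool.Agent.H67.Flat

/-- position of the particle `k` -/
def dl (N G d0 k : ℤ) : ℤ := (d0 - G * k) % N

/-- row of the particle `k` -/
def av (p ν k : ℤ) : ℤ := (-(ν * k)) % p

/-- The height at level `Z` of the site `(κ, d0)`. -/
noncomputable def Ev (p q ν G w e1 e2 κ d0 Z : ℤ) : ℤ :=
  (if dl (p * q) G d0 0 < Z then 1 else 0) - (if dl (p * q) G d0 1 < Z then 1 else 0) +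
  ∑ k ∈ Finset.Icc (κ - p + 1) κ,
    if dl (p * q) G d0 k < w then
      ((if dl (p * q) G d0 k + q * av p ν (k - 1) < Z + e1 then 1 else 0) -
        (if dl (p * q) G d0 k + q * av p ν k < Z + e2 then 1 else 0))
    else 0

/-- The hypotheses on the parameters. -/
structure Par (p q ν G w e1 e2 : ℤ) : Prop where
  hp : 3 ≤ p
  hpq : p < q
  hν0 : 0 < ν
  hνp : ν < p
  hcop : IsCoprime ν p
  hG0 : 0 ≤ G
  hGN : G < p * q
  hu : p * q < G + ν * q
  hucop : IsCoprime (G + ν * q) q
  hw1 : q - 1 ≤ w
  hw2 : w ≤ q + 1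
  he1 : 0 ≤ e1
  he1' : e1 ≤ 1
  he2 : 0 ≤ e2
  he2' : e2 ≤ 1

section

variable {p q ν G w e1 e2 : ℤ} (P : Par p q ν G w e1 e2)

include P

theorem Par.N_pos : 0 < p * q := by
  have := P.hp; have := P.hpq
  have h1 : 0 < p := by omega
  have h2 : 0 < q := by omega
  positivity

theorem Par.av_nonneg (k : ℤ) : 0 ≤ av p ν k := by
  have := P.hp
  exact Int.emod_nonneg _ (by omega)

theorem Par.av_lt (k : ℤ) : av p ν k < p := by
  have := P.hp
  exact Int.emod_lt_of_pos _ (by omega)

theorem Par.av_zero : av p ν 0 = 0 := by simp [av]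

theorem Par.av_one : av p ν 1 = p - ν := by
  have := P.hp; have := P.hν0; have := P.hνp
  unfold av
  exact emod_eq_of (c := -1) (by ring) (by omega) (by omega)

/-- `A_k - A_{k-1}` -/
theorem Par.av_step (k : ℤ) : av p ν k = av p ν (k - 1) + (p - ν) ∨
    av p ν k = av p ν (k - 1) + (p - ν) - p := by
  have hp := P.hp; have := P.hν0; have := P.hνp
  have h1 := P.av_nonneg (k - 1)
  have h2 := P.av_lt (k - 1)
  have h3 : -(ν * k) = p * ((-(ν * (k - 1))) / p - 1) + (av p ν (k - 1) + (p - ν)) := by
    have := Int.mul_ediv_add_emod (-(ν * (k - 1))) p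
    unfold av
    linear_combination -this
  rcases lt_or_ge (av p ν (k - 1) + (p - ν)) p with h | h
  · left
    conv_lhs => unfold av
    exact emod_eq_of h3 (by omega) h
  · right
    conv_lhs => unfold av
    refine emod_eq_of (c := (-(ν * (k - 1))) / p) ?_ (by omega) (by omega)
    linear_combination h3

/-- `C_k = (G k) mod N` steps. -/
theorem Par.C_step (k : ℤ) : (G * k) % (p * q) = (G * (k - 1)) % (p * q) + G ∨
    (G * k) % (p * q) = (G * (k - 1)) % (p * q) + G - p * q := by
  have hN := P.N_pos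
  have h1 := Int.emod_nonneg (G * (k - 1)) hN.ne'
  have h2 := Int.emod_lt_of_pos (G * (k - 1)) hN
  have hG0 := P.hG0; have hGN := P.hGN
  have h3 : G * k = p * q * (G * (k - 1) / (p * q)) + ((G * (k - 1)) % (p * q) + G) := by
    have := Int.mul_ediv_add_emod (G * (k - 1)) (p * q)
    linear_combination -this
  rcases lt_or_ge ((G * (k - 1)) % (p * q) + G) (p * q) with h | h
  · left
    exact emod_eq_of h3 (by omega) h
  · right
    refine emod_eq_of (c := G * (k - 1) / (p * q) + 1) ?_ (by omega) (by omega)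
    linear_combination h3

/-- `C_k ≡ A_k + u k mod N` -/
theorem Par.C_sub_A (k : ℤ) : ∃ c, (G * k) % (p * q) - q * av p ν k =
    (G + ν * q) * k + p * q * c := by
  have h1 := Int.mul_ediv_add_emod (G * k) (p * q)
  have h2 := Int.mul_ediv_add_emod (-(ν * k)) p
  refine ⟨-(G * k / (p * q)) + (-(ν * k)) / p, ?_⟩
  unfold av
  linear_combination h1 - q * h2

theorem Par.C_ne_A {k : ℤ} (h0 : 0 < k) (hk : k < p) :
    (G * k) % (p * q) ≠ q * av p ν k := by
  intro h
  obtain ⟨c, hc⟩ := P.C_sub_A k
  have hpq := P.hpq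
  have h1 : q ∣ (G + ν * q) * k := ⟨-(p * c), by linear_combination h - hc⟩
  have h2 : q ∣ k := P.hucop.symm.dvd_of_dvd_mul_left h1
  have := Int.le_of_dvd h0 h2
  omega

/-- The chain argument: all `C_k > A_k`. -/
theorem Par.chain (Al : ℤ → ℤ → Prop) (D : ℤ → Prop)
    (H : ∀ κ d0 Z, 1 ≤ κ → κ ≤ p - 1 → 0 ≤ d0 → d0 < p * q → D d0 → Al d0 Z →
      |Ev p q ν G w e1 e2 κ d0 Z| ≤ 1)
    {x : ℤ} (hx0 : 0 ≤ x) (hxw : x < w) (hxD : ∀ k, 1 ≤ k → k ≤ p - 1 →
      D (x + (G * k) % (p * q)))
    (hx : ∀ e, 1 ≤ e → e ≤ p - 1 → w ≤ (x + G * e) % (p * q))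
    (pick : ∀ k, 2 ≤ k → k ≤ p - 1 →
      (G * k) % (p * q) < (G * (k - 1)) % (p * q) → av p ν (k - 1) < av p ν k →
      (G * k) % (p * q) < q * av p ν k → q * av p ν (k - 1) < (G * (k - 1)) % (p * q) →
      x + (G * (k - 1)) % (p * q) < p * q →
      ∃ Z, Al (x + (G * k) % (p * q)) Z ∧ x + (G * k) % (p * q) < Z ∧
        Z ≤ x + (G * (k - 1)) % (p * q) ∧ x + q * av p ν (k - 1) < Z + e1 ∧
        Z + e2 ≤ x + q * av p ν k) :
    ∀ k, 1 ≤ k → k ≤ p - 1 → q * av p ν k < (G * k) % (p * q) := by
  have hN := P.N_pos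
  have hp := P.hp; have hpq := P.hpq
  have hGN := P.hGN; have hG0 := P.hG0
  have hu := P.hu
  have hw1 := P.hw1; have hw2 := P.hw2
  have hwN : w ≤ p * q := by nlinarith
  -- no wrap
  have nowrap : ∀ e, 1 ≤ e → e ≤ p - 1 → (x + G * e) % (p * q) = x + (G * e) % (p * q) ∧
      x + (G * e) % (p * q) < p * q := by
    intro e he1 he2
    have h1 := hx e he1 he2
    have h2 := Int.emod_nonneg (G * e) hN.ne'
    have h3 := Int.emod_lt_of_pos (G * e) hN
    have h4 : x + G * e = p * q * (G * e / (p * q)) + (x + (G * e) % (p * q)) := by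
      have := Int.mul_ediv_add_emod (G * e) (p * q)
      linear_combination -this
    rcases lt_or_ge (x + (G * e) % (p * q)) (p * q) with h | h
    · exact ⟨emod_eq_of h4 (by omega) h, h⟩
    · exfalso
      have h5 : (x + G * e) % (p * q) = x + (G * e) % (p * q) - p * q :=
        emod_eq_of (c := G * e / (p * q) + 1) (by linear_combination h4) (by omega) (by omega)
      omega
  intro k hk1
  induction k, hk1 using Int.leInduction with
  | base =>
    intro _
    rw [P.av_one, mul_one, Int.emod_eq_of_lt hG0 hGN]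
    nlinarith
  | succ j hj ih =>
    intro hjp
    have ih := ih (by omega)
    by_contra hcon
    have hne := P.C_ne_A (k := j + 1) (by omega) (by omega)
    have hlt : (G * (j + 1)) % (p * q) < q * av p ν (j + 1) :=
      lt_of_le_of_ne (not_lt.mp hcon) hne
    have hCs := P.C_step (j + 1)
    have hAs := P.av_step (j + 1)
    have hjj : j + 1 - 1 = j := by ring
    rw [hjj] at hCs hAs
    have hq : 0 < q := by omega
    -- signs
    have hC : (G * (j + 1)) % (p * q) < (G * j) % (p * q) := by
      rcases hCs with h | h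
      · exfalso
        rcases hAs with h' | h'
        · rw [h, h'] at hlt; nlinarith
        · rw [h, h'] at hlt; nlinarith
      · rw [h]; omega
    have hA : av p ν j < av p ν (j + 1) := by
      rcases hAs with h' | h'
      · have := P.hνp; omega
      · exfalso
        rcases hCs with h | h
        · omega
        · rw [h, h'] at hlt; nlinarith
    obtain ⟨nw1, nw1'⟩ := nowrap (j + 1) (by omega) (by omega)
    obtain ⟨nw2, nw2'⟩ := nowrap j (by omega) (by omega)
    obtain ⟨Z, hAl, hZ1, hZ2, hZ3, hZ4⟩ := pick (j + 1) (by omega) (by omega)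
      (by rw [hjj]; exact hC) (by rw [hjj]; exact hA) hlt (by rw [hjj]; exact ih)
      (by rw [hjj]; exact nw2')
    rw [hjj] at hZ2 hZ3
    have hd0 := Int.emod_nonneg (G * (j + 1)) hN.ne'
    have hE := H (j + 1) (x + (G * (j + 1)) % (p * q)) Z (by omega) hjp (by omega) nw1'
      (hxD _ (by omega) hjp) hAl
    -- positions
    have hdl : ∀ k, dl (p * q) G (x + (G * (j + 1)) % (p * q)) k =
        (x + G * (j + 1 - k)) % (p * q) := by
      intro k
      unfold dl
      have h4 : x + (G * (j + 1)) % (p * q) - G * k =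
          x + G * (j + 1 - k) + p * q * (-(G * (j + 1) / (p * q))) := by
        have := Int.mul_ediv_add_emod (G * (j + 1)) (p * q)
        linear_combination this
      rw [h4, Int.add_mul_emod_self_left]
    have e0 : dl (p * q) G (x + (G * (j + 1)) % (p * q)) 0 = x + (G * (j + 1)) % (p * q) := by
      rw [hdl, sub_zero, nw1]
    have e1' : dl (p * q) G (x + (G * (j + 1)) % (p * q)) 1 = x + (G * j) % (p * q) := by
      rw [hdl, hjj, nw2]
    have ek : dl (p * q) G (x + (G * (j + 1)) % (p * q)) (j + 1) = x := by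
      rw [hdl, sub_self, mul_zero, add_zero]
      exact Int.emod_eq_of_lt hx0 (by omega)
    have hsum : Ev p q ν G w e1 e2 (j + 1) (x + (G * (j + 1)) % (p * q)) Z = 2 := by
      unfold Ev
      rw [Finset.sum_eq_single (j + 1)]
      · rw [e0, e1', ek, if_pos hZ1, if_neg (by omega), if_pos hxw, hjj, if_pos hZ3,
          if_neg (by omega)]
        norm_num
      · intro k hk hne
        rw [Finset.mem_Icc] at hk
        rw [if_neg]
        rw [hdl]
        have := hx (j + 1 - k) (by omega) (by omega)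
        omega
      · intro hnot
        exfalso; apply hnot
        rw [Finset.mem_Icc]
        constructor <;> omega
    rw [hsum] at hE
    norm_num at hE

end

end Pool.Agent.H67.Flat
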