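import Mathlib
import Pool.Agent.H67.Flat.Core
import Pool.Agent.H67.Flat.Bound

set_option autoImplicit false

/-!
# Evaluation of the heights
-/

namespace Pool.Agent.H67.Flat

/-- multiples of `N` strictly between `-N` and `0` do not exist -/
theorem no_mult {N z c : ℤ} (h : z = N * c) (h1 : -N < z) (h2 : z < 0) : False := by
  have hN : 0 < N := by omega
  rcases le_or_gt 0 c with hc | hc
  · have : 0 ≤ N * c := mul_nonneg hN.le hc
    omega
  · have : N * c ≤ N * (-1) := mul_le_mul_of_nonneg_left (by omega) hN.le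
    omega

/-- Evaluation for `q ≡ 1 mod p`. -/
theorem eval1 {p q d b X Z : ℤ} (hp : 2 ≤ p) (hpq : p < q) (hq1 : p ∣ q - 1) (hd : p ∣ d)
    (hd0 : 0 ≤ d) (hdN : d < p * q) (hX : p * q ∣ X - (b * q - p - d)) :
    aT p q 1 (p * q - p - Z) X =
      (if p ∣ b then (if Z ≤ d then 1 else 0) else 0) -
        (if d < q - 1 then (if Z ≤ d + q * ((-b) % p) then 1 else 0) else 0) := by
  have hp0 : 0 < p := by omega
  have hq0 : 0 < q := by omega
  have hN : 0 < p * q := by positivity
  obtain ⟨l, hl⟩ := hq1
  obtain ⟨d', rfl⟩ := hd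
  obtain ⟨c, hc⟩ := hX
  have hd'0 : 0 ≤ d' := by
    by_contra h
    have : p * d' < 0 := mul_neg_of_pos_of_neg hp0 (by omega)
    omega
  have hd'q : d' < q := lt_of_mul_lt_mul_left hdN hp0.le
  have hd'le : p * d' ≤ p * (q - 1) := mul_le_mul_of_nonneg_left (by omega) hp0.le
  have hpq1 : p * (q - 1) = p * q - p := by ring
  have hdw : ∀ h : p * d' < q - 1, p * d' ≤ q - 1 - p := by
    intro h
    have h1 : p * d' < p * l := by omega
    have h2 : d' < l := lt_of_mul_lt_mul_left h1 hp0.le
    have h3 : p * d' ≤ p * (l - 1) := mul_le_mul_of_nonneg_left (by omega) hp0.le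
    have h4 : p * (l - 1) = p * l - p := by ring
    omega
  set β := b % p with hβ
  have hβ0 : 0 ≤ β := Int.emod_nonneg _ hp0.ne'
  have hβp : β < p := Int.emod_lt_of_pos _ hp0
  have hb := Int.mul_ediv_add_emod b p
  rw [← hβ] at hb
  -- residue of `X`
  set y := X % (p * q) with hy
  have hy0 : 0 ≤ y := Int.emod_nonneg _ hN.ne'
  have hyN : y < p * q := Int.emod_lt_of_pos _ hN
  have hyX := Int.mul_ediv_add_emod X (p * q)
  rw [← hy] at hyX
  obtain ⟨e, he⟩ : ∃ e, y = β * q - p - p * d' + p * q * e :=
    ⟨c + b / p - X / (p * q), by linear_combination hyX + hc - q * hb⟩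
  have hymod : ∀ t : ℤ, (1 * (y - t)) % p = (β - t) % p := by
    intro t
    have : 1 * (y - t) = (β - t) + p * (β * l - 1 - d' + q * e) := by
      rw [he]; linear_combination β * hl
    rw [this, Int.add_mul_emod_self_left]
  have hs0 : sF p q 1 y = if q * (β % p) ≤ y then 1 else 0 := by
    unfold sF
    have := hymod 0
    rw [sub_zero, sub_zero] at this
    rw [this]
  have hs1 : sF p q 1 (y - 1) = if q * ((β - 1) % p) ≤ y - 1 then 1 else 0 := by
    unfold sF
    rw [hymod 1]
  have hβmod : β % p = β := Int.emod_eq_of_lt hβ0 hβp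
  unfold aT aF
  rw [← hy, hs0, hs1, hβmod]
  by_cases hb0 : p ∣ b
  · have hβz : β = 0 := Int.emod_eq_zero_of_dvd hb0
    have hneg : (-b) % p = 0 := Int.emod_eq_zero_of_dvd ((dvd_neg).mpr hb0)
    have hm1 : (0 - 1 : ℤ) % p = p - 1 := emod_eq_of (c := -1) (by ring) (by omega) (by omega)
    have hyv : y = p * q - p - p * d' := by
      rw [hβz] at he
      rw [hy]
      refine emod_eq_of (c := X / (p * q) + e - 1) ?_ (by omega) (by omega)
      linear_combination -hyX + he
    rw [if_pos hb0, hneg, hβz, hm1, hyv]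
    have h1 : q * (p - 1) = p * q - q := by ring
    rw [h1, mul_zero, add_zero]
    by_cases hZ : Z ≤ p * d'
    · rw [if_pos (by omega), if_pos (by omega), if_pos hZ]
      by_cases hw : p * d' < q - 1
      · have := hdw hw
        rw [if_pos (by omega), if_pos hw]
      · rw [if_neg (by omega), if_neg hw]
    · rw [if_neg (by omega), if_neg hZ]
      simp
  · have hβ1 : 1 ≤ β := by
      by_contra h
      exact hb0 (Int.dvd_of_emod_eq_zero (by omega))
    have hneg : (-b) % p = p - β := by
      refine emod_eq_of (c := -(b / p) - 1) ?_ (by omega) (by omega)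
      linear_combination hb
    have hm1 : (β - 1) % p = β - 1 := Int.emod_eq_of_lt (by omega) (by omega)
    rw [if_neg hb0, hneg, hm1]
    have hβq : β * q ≤ (p - 1) * q := mul_le_mul_of_nonneg_right (by omega) hq0.le
    have hβq1 : 1 * q ≤ β * q := mul_le_mul_of_nonneg_right hβ1 hq0.le
    have h1 : (p - 1) * q = p * q - q := by ring
    have h2 : q * (β - 1) = β * q - q := by ring
    have h3 : q * β = β * q := by ring
    have h4 : q * (p - β) = p * q - β * q := by ring
    rw [h2, h3, h4]
    by_cases hw : p * d' < q - 1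
    · have hw' := hdw hw
      have hyv : y = β * q - p - p * d' := by
        rw [hy]
        refine emod_eq_of (c := X / (p * q) + e) ?_ (by omega) (by omega)
        linear_combination -hyX + he
      rw [if_pos hw, hyv]
      by_cases hZ : Z ≤ p * d' + (p * q - β * q)
      · rw [if_pos (by omega), if_neg (by omega), if_pos (by omega), if_pos hZ]
      · rw [if_neg (by omega), if_neg hZ]
        simp
    · rw [if_neg hw]
      have h5 : (if β * q ≤ y then (1 : ℤ) else 0) = if β * q - q ≤ y - 1 then 1 else 0 := by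
        by_cases h6 : β * q ≤ y
        · rw [if_pos h6, if_pos (by omega)]
        · rw [if_neg h6, if_neg]
          intro h7
          exact no_mult (N := p * q) (z := β * q - y - p - p * d') (c := -e)
            (by rw [he]; ring) (by omega) (by omega)
      rw [h5, sub_self]
      simp

/-- Evaluation for `q ≡ -1 mod p`. -/
theorem eval2 {p q d b X Z : ℤ} (hp : 2 ≤ p) (hpq : p < q) (hq1 : p ∣ q + 1) (hd : p ∣ d)
    (hd0 : 0 ≤ d) (hdN : d < p * q) (hX : p * q ∣ X - (d + (b - 1) * q)) :
    aT p q (-1) (Z - q - 1) X =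
      -(if p ∣ b then (if d < Z then 1 else 0) else 0) +
        (if d < q + 1 then (if d + q * (b % p) < Z then 1 else 0) else 0) := by
  have hp0 : 0 < p := by omega
  have hq0 : 0 < q := by omega
  have hN : 0 < p * q := by positivity
  obtain ⟨l, hl⟩ := hq1
  obtain ⟨d', rfl⟩ := hd
  obtain ⟨c, hc⟩ := hX
  have hd'0 : 0 ≤ d' := by
    by_contra h
    have : p * d' < 0 := mul_neg_of_pos_of_neg hp0 (by omega)
    omega
  have hdw : ∀ h : p * d' < q + 1, p * d' ≤ q + 1 - p := by
    intro h
    have h1 : p * d' < p * l := by omega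
    have h2 : d' < l := lt_of_mul_lt_mul_left h1 hp0.le
    have h3 : p * d' ≤ p * (l - 1) := mul_le_mul_of_nonneg_left (by omega) hp0.le
    have h4 : p * (l - 1) = p * l - p := by ring
    omega
  set β := b % p with hβ
  have hβ0 : 0 ≤ β := Int.emod_nonneg _ hp0.ne'
  have hβp : β < p := Int.emod_lt_of_pos _ hp0
  have hb := Int.mul_ediv_add_emod b p
  rw [← hβ] at hb
  -- residue of `X`
  set y := X % (p * q) with hy
  have hy0 : 0 ≤ y := Int.emod_nonneg _ hN.ne'
  have hyN : y < p * q := Int.emod_lt_of_pos _ hN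
  have hyX := Int.mul_ediv_add_emod X (p * q)
  rw [← hy] at hyX
  obtain ⟨e, he⟩ : ∃ e, y = p * d' + (β - 1) * q + p * q * e :=
    ⟨c + b / p - X / (p * q), by linear_combination hyX + hc - q * hb⟩
  have hymod : ∀ t : ℤ, (-1 * (y - t)) % p = (β - 1 + t) % p := by
    intro t
    have : -1 * (y - t) = (β - 1 + t) + p * (-(β - 1) * l - d' - q * e) := by
      rw [he]; linear_combination (-(β - 1)) * hl
    rw [this, Int.add_mul_emod_self_left]
  have hs0 : sF p q (-1) y = if q * ((β - 1) % p) ≤ y then 1 else 0 := by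
    unfold sF
    have := hymod 0
    rw [sub_zero, add_zero] at this
    rw [this]
  have hs1 : sF p q (-1) (y - 1) = if q * (β % p) ≤ y - 1 then 1 else 0 := by
    unfold sF
    rw [hymod 1, sub_add_cancel]
  have hβmod : β % p = β := Int.emod_eq_of_lt hβ0 hβp
  unfold aT aF
  rw [← hy, hs0, hs1, hβmod]
  have h2q : 2 * q ≤ p * q := mul_le_mul_of_nonneg_right hp hq0.le
  by_cases hb0 : p ∣ b
  · have hβz : β = 0 := Int.emod_eq_zero_of_dvd hb0
    have hm1 : (0 - 1 : ℤ) % p = p - 1 := emod_eq_of (c := -1) (by ring) (by omega) (by omega)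
    rw [if_pos hb0, hβz, hm1]
    have h1 : q * (p - 1) = p * q - q := by ring
    rw [h1, mul_zero, add_zero]
    by_cases hw : p * d' < q + 1
    · have hw' := hdw hw
      have hyv : y = p * q + p * d' - q := by
        rw [hβz] at he
        rw [hy]
        refine emod_eq_of (c := X / (p * q) + e - 1) ?_ (by omega) (by omega)
        linear_combination -hyX + he
      rw [if_pos hw, hyv, if_pos (by omega : p * q - q ≤ p * q + p * d' - q),
        if_pos (by omega : 0 ≤ p * q + p * d' - q - 1), sub_self]
      simp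
    · have hyv : y = p * d' - q := by
        rw [hβz] at he
        rw [hy]
        refine emod_eq_of (c := X / (p * q) + e) ?_ (by omega) (by omega)
        linear_combination -hyX + he
      rw [if_neg hw, hyv, if_neg (by omega : ¬ (p * q - q ≤ p * d' - q)),
        if_pos (by omega : 0 ≤ p * d' - q - 1)]
      by_cases hZ : p * d' < Z
      · rw [if_pos (by omega), if_pos hZ]; norm_num
      · rw [if_neg (by omega), if_neg hZ]; norm_num
  · have hβ1 : 1 ≤ β := by
      by_contra h
      exact hb0 (Int.dvd_of_emod_eq_zero (by omega))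
    have hm1 : (β - 1) % p = β - 1 := Int.emod_eq_of_lt (by omega) (by omega)
    rw [if_neg hb0, hm1]
    have hβq : β * q ≤ (p - 1) * q := mul_le_mul_of_nonneg_right (by omega) hq0.le
    have hβq1 : 1 * q ≤ β * q := mul_le_mul_of_nonneg_right hβ1 hq0.le
    have h1 : (p - 1) * q = p * q - q := by ring
    have h2 : q * (β - 1) = β * q - q := by ring
    have h3 : q * β = β * q := by ring
    rw [h2, h3]
    have h4 : (β - 1) * q = β * q - q := by ring
    rw [h4] at he
    by_cases hw : p * d' < q + 1
    · have hw' := hdw hw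
      have hyv : y = p * d' + β * q - q := by
        rw [hy]
        refine emod_eq_of (c := X / (p * q) + e) ?_ (by omega) (by omega)
        linear_combination -hyX + he
      rw [if_pos hw, hyv, if_pos (by omega : β * q - q ≤ p * d' + β * q - q),
        if_neg (by omega : ¬ (β * q ≤ p * d' + β * q - q - 1))]
      by_cases hZ : p * d' + β * q < Z
      · rw [if_pos (by omega), if_pos hZ]; norm_num
      · rw [if_neg (by omega), if_neg hZ]; norm_num
    · rw [if_neg hw]
      have h5 : (if β * q - q ≤ y then (1 : ℤ) else 0) = if β * q ≤ y - 1 then 1 else 0 := by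
        by_cases h6 : β * q ≤ y - 1
        · rw [if_pos h6, if_pos (by omega)]
        · rw [if_neg h6, if_neg]
          intro h7
          exact no_mult (N := p * q) (z := y - β * q + q - p * d') (c := e)
            (by rw [he]; ring) (by omega) (by omega)
      rw [h5, sub_self]
      simp

end Pool.Agent.H67.Flat
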