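import Mathlib
import Pool.Agent.H67.Flat.Eval

set_option autoImplicit false

/-!
# Evaluation of the heights for `r ≡ ±1 mod p`
-/

namespace Pool.Agent.H67.Flat

theorem lam_mod_ne {p q lam : ℤ} (hp : 2 ≤ p) (hlam : p ∣ lam * q - 1) : ¬ p ∣ lam := by
  intro h
  have h1 : p ∣ 1 := by
    have := dvd_sub (h.mul_right q) hlam
    rwa [sub_sub_cancel] at this
  have := Int.le_of_dvd one_pos h1
  omega

/-- duality -/
theorem sF_dual {p q lam R : ℤ} (hp : 2 ≤ p) (hlam : p ∣ lam * q - 1) :
    sF p q lam ((p - 1) * q - R) = 1 - (if q * ((lam * R) % p) < R then 1 else 0) := by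
  have hp0 : 0 < p := by omega
  obtain ⟨c, hc⟩ := hlam
  set β := (lam * R) % p with hβ
  have hβ0 : 0 ≤ β := Int.emod_nonneg _ hp0.ne'
  have hβp : β < p := Int.emod_lt_of_pos _ hp0
  have hb := Int.mul_ediv_add_emod (lam * R) p
  rw [← hβ] at hb
  have h1 : (lam * ((p - 1) * q - R)) % p = p - 1 - β := by
    refine emod_eq_of (c := (p - 1) * c - (lam * R) / p) ?_ (by omega) (by omega)
    linear_combination (p - 1) * hc + hb
  unfold sF
  rw [h1]
  have h2 : q * (p - 1 - β) = (p - 1) * q - q * β := by ring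
  by_cases h : q * β < R
  · rw [if_neg (by omega), if_pos h]; norm_num
  · rw [if_pos (by omega), if_neg h]; norm_num

theorem aF_dual {p q lam R : ℤ} (hp : 2 ≤ p) (hlam : p ∣ lam * q - 1) :
    aF p q lam ((p - 1) * q - R) =
      (if q * ((lam * (R + 1)) % p) < R + 1 then 1 else 0) -
        (if q * ((lam * R) % p) < R then 1 else 0) := by
  unfold aF
  rw [sF_dual hp hlam, show (p - 1) * q - R - 1 = (p - 1) * q - (R + 1) by ring,
    sF_dual hp hlam]
  ring

/-- `s(x) - s(x - q)` is the indicator of the multiples of `p`. -/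
theorem sF_sub_q {p q lam x : ℤ} (hp : 2 ≤ p) (hq : 0 < q) (hlam : p ∣ lam * q - 1)
    (hx0 : -1 ≤ x) (hxN : x < p * q) :
    sF p q lam x - sF p q lam (x - q) = if p ∣ x then 1 else 0 := by
  have hp0 : 0 < p := by omega
  rcases lt_or_ge x 0 with hx | hx
  · have hx1 : x = -1 := by omega
    rw [sF_neg hp0 hq hx, sF_neg hp0 hq (by omega), if_neg]
    · norm_num
    · rw [hx1]
      intro h
      have := Int.le_of_dvd one_pos ((dvd_neg).mp h)
      omega
  have hlam' := hlam
  obtain ⟨c, hc⟩ := hlam
  set β := (lam * x) % p with hβ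
  have hβ0 : 0 ≤ β := Int.emod_nonneg _ hp0.ne'
  have hβp : β < p := Int.emod_lt_of_pos _ hp0
  have hb := Int.mul_ediv_add_emod (lam * x) p
  rw [← hβ] at hb
  have hcop : IsCoprime lam p := ⟨q, -c, by linear_combination hc⟩
  have hiff : p ∣ x ↔ β = 0 := by
    constructor
    · intro h
      exact Int.emod_eq_zero_of_dvd (h.mul_left _)
    · intro h
      have : p ∣ lam * x := Int.dvd_of_emod_eq_zero h
      exact hcop.symm.dvd_of_dvd_mul_left this
  by_cases h0 : β = 0
  · rw [if_pos (hiff.mpr h0)]
    have h1 : (lam * (x - q)) % p = p - 1 := by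
      refine emod_eq_of (c := (lam * x) / p - c - 1) ?_ (by omega) (by omega)
      rw [h0] at hb
      linear_combination -hb - hc
    unfold sF
    rw [← hβ, h0, h1, if_pos (by omega), if_neg]
    · norm_num
    · have : q * (p - 1) = p * q - q := by ring
      omega
  · rw [if_neg (fun h => h0 (hiff.mp h))]
    have h1 : (lam * (x - q)) % p = β - 1 := by
      refine emod_eq_of (c := (lam * x) / p - c) ?_ (by omega) (by omega)
      linear_combination -hb - hc
    unfold sF
    rw [← hβ, h1]
    have h2 : q * (β - 1) = q * β - q := by ring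
    rw [h2]
    by_cases h3 : q * β ≤ x
    · rw [if_pos h3, if_pos (by omega)]; norm_num
    · rw [if_neg h3, if_neg (by omega)]; norm_num

/-- the last cell is empty -/
theorem aF_last {p q lam x : ℤ} (hp : 2 ≤ p) (hq : 0 < q) (hlam : p ∣ lam * q - 1)
    (hx : (p - 1) * q ≤ x) : aF p q lam x = 0 := by
  have hp0 : 0 < p := by omega
  have h1 : sF p q lam x = 1 := by
    unfold sF
    rw [if_pos]
    have h2 := Int.emod_lt_of_pos (lam * x) hp0
    have h3 : q * ((lam * x) % p) ≤ q * (p - 1) := mul_le_mul_of_nonneg_left (by omega) hq.le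
    have : q * (p - 1) = (p - 1) * q := by ring
    omega
  have h2 : sF p q lam (x - 1) = 1 := by
    unfold sF
    rw [if_pos]
    have h2 := Int.emod_lt_of_pos (lam * (x - 1)) hp0
    have h4 : q * (p - 1) = (p - 1) * q := by ring
    rcases (by omega : (lam * (x - 1)) % p ≤ p - 2 ∨ (lam * (x - 1)) % p = p - 1) with h | h
    · have h3 : q * ((lam * (x - 1)) % p) ≤ q * (p - 2) := mul_le_mul_of_nonneg_left h hq.le
      have h5 : q * (p - 2) = (p - 1) * q - q := by ring
      omega
    · rw [h, h4]
      rcases hx.eq_or_lt with h5 | h5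
      · exfalso
        -- `x = (p-1) q`
        have h6 := Int.mul_ediv_add_emod (lam * (x - 1)) p
        rw [h, ← h5] at h6
        obtain ⟨c, hc⟩ := hlam
        apply lam_mod_ne hp ⟨c, hc⟩
        refine ⟨c * (p - 1) - (lam * ((p - 1) * q - 1)) / p, ?_⟩
        linear_combination h6 + (p - 1) * hc
      · omega
  unfold aF
  rw [h1, h2, sub_self]

theorem eval3 {p q lam X Z : ℤ} (hp : 2 ≤ p) (hpq : p < q) (hlam : p ∣ lam * q - 1)
    (hZ0 : 0 ≤ Z) (hZN : Z < p * q) :
    aT p q lam (p * q - 1 - Z) X - aT p q lam (p * q - 1 - Z) (X - q) =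
      (if p ∣ X then (if Z ≤ (X + Z) % (p * q) then 1 else 0) else 0) -
      (if p ∣ X - 1 then (if Z ≤ (X + Z) % (p * q) then 1 else 0) else 0) -
      (if (X + Z) % (p * q) < q then
        ((if (X + Z) % (p * q) + q * ((lam * (Z - (X + Z) % (p * q) + 1)) % p) < Z + 1
            then 1 else 0) -
          (if (X + Z) % (p * q) + q * ((lam * (Z - (X + Z) % (p * q))) % p) < Z then 1 else 0))
        else 0) := by
  have hp0 : 0 < p := by omega
  have hq0 : 0 < q := by omega
  have hN : 0 < p * q := by positivity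
  have h2q : 2 * q ≤ p * q := mul_le_mul_of_nonneg_right hp hq0.le
  have hpq1 : (p - 1) * q = p * q - q := by ring
  set j := X % (p * q) with hj
  have hj0 : 0 ≤ j := Int.emod_nonneg _ hN.ne'
  have hjN : j < p * q := Int.emod_lt_of_pos _ hN
  have hjX := Int.mul_ediv_add_emod X (p * q)
  rw [← hj] at hjX
  have hdvd : p ∣ X ↔ p ∣ j := by
    rw [← hjX]
    have : p ∣ p * q * (X / (p * q)) := (dvd_mul_right p q).mul_right _
    exact (Int.dvd_add_right this)
  have hdvd1 : p ∣ X - 1 ↔ p ∣ j - 1 := by
    have h1 : p ∣ p * q * (X / (p * q)) := (dvd_mul_right p q).mul_right _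
    have h2 : X - 1 = p * q * (X / (p * q)) + (j - 1) := by linear_combination -hjX
    rw [h2]
    exact (Int.dvd_add_right h1)
  -- `a(j) - a(j-q)`
  have hA : aF p q lam j - aF p q lam (j - q) =
      (if p ∣ j then 1 else 0) - (if p ∣ j - 1 then 1 else 0) := by
    have h1 := sF_sub_q (x := j) hp hq0 hlam (by omega) hjN
    have h2 := sF_sub_q (x := j - 1) hp hq0 hlam (by omega) (by omega)
    unfold aF
    rw [← h1, ← h2]
    have : j - q - 1 = j - 1 - q := by ring
    rw [this]; ring
  have haneg : ∀ x, x < 0 → aF p q lam x = 0 := by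
    intro x hx
    unfold aF
    rw [sF_neg hp0 hq0 hx, sF_neg hp0 hq0 (by omega), sub_self]
  -- value of `aT (X - q)`
  have hXq : aT p q lam (p * q - 1 - Z) (X - q) =
      if j - q ≤ p * q - 1 - Z then aF p q lam (j - q) else 0 := by
    unfold aT
    rcases lt_or_ge j q with h | h
    · have h1 : (X - q) % (p * q) = j - q + p * q := by
        refine emod_eq_of (c := X / (p * q) - 1) ?_ (by omega) (by omega)
        linear_combination -hjX
      rw [h1, aF_last hp hq0 hlam (by omega), haneg (j - q) (by omega)]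
      simp
    · have h1 : (X - q) % (p * q) = j - q := by
        refine emod_eq_of (c := X / (p * q)) ?_ (by omega) (by omega)
        linear_combination -hjX
      rw [h1]
  have hXX : aT p q lam (p * q - 1 - Z) X = if j ≤ p * q - 1 - Z then aF p q lam j else 0 := by
    unfold aT
    rw [← hj]
  rw [hXq, hXX]
  by_cases hjT : j ≤ p * q - 1 - Z
  · have hd : (X + Z) % (p * q) = j + Z := by
      refine emod_eq_of (c := X / (p * q)) ?_ (by omega) (by omega)
      linear_combination -hjX
    rw [hd, if_pos hjT, if_pos (by omega), if_pos (by omega : Z ≤ j + Z), hA]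
    have e1 : Z - (j + Z) + 1 = 1 - j := by ring
    have e2 : Z - (j + Z) = -j := by ring
    rw [e1, e2]
    simp only [hdvd, hdvd1]
    have hb2 := Int.emod_nonneg (lam * -j) hp0.ne'
    have hb1 := Int.emod_nonneg (lam * (1 - j)) hp0.ne'
    have hq2 : 0 ≤ q * ((lam * -j) % p) := mul_nonneg hq0.le hb2
    have hq1 : 0 ≤ q * ((lam * (1 - j)) % p) := mul_nonneg hq0.le hb1
    rw [if_neg (by omega : ¬ (j + Z + q * ((lam * -j) % p) < Z)), if_neg (c :=
      j + Z + q * ((lam * (1 - j)) % p) < Z + 1)]
    · simp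
    · intro h
      have hj00 : j = 0 := by omega
      rw [hj00, sub_zero, mul_one] at h hb1
      have hl0 : lam % p ≠ 0 := fun h => lam_mod_ne hp hlam (Int.dvd_of_emod_eq_zero h)
      have hl1 : 1 ≤ lam % p := by omega
      have : q * 1 ≤ q * (lam % p) := mul_le_mul_of_nonneg_left hl1 hq0.le
      omega
  · have hd : (X + Z) % (p * q) = j + Z - p * q := by
      refine emod_eq_of (c := X / (p * q) + 1) ?_ (by omega) (by omega)
      linear_combination -hjX
    rw [hd, if_neg hjT, if_neg (by omega : ¬ (Z ≤ j + Z - p * q))]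
    have hR := aF_dual (R := p * q - j) hp hlam
    have e1 : (p - 1) * q - (p * q - j) = j - q := by ring
    rw [e1] at hR
    have e2 : Z - (j + Z - p * q) = p * q - j := by ring
    rw [e2, hR]
    by_cases hdq : j + Z - p * q < q
    · rw [if_pos (by omega), if_pos hdq]
      set b1 := (lam * (p * q - j + 1)) % p
      set b2 := (lam * (p * q - j)) % p
      have h1 : (q * b1 < p * q - j + 1) ↔ (j + Z - p * q + q * b1 < Z + 1) := by
        constructor <;> intro h <;> omega
      have h2 : (q * b2 < p * q - j) ↔ (j + Z - p * q + q * b2 < Z) := by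
        constructor <;> intro h <;> omega
      simp only [h1, h2]
      simp
    · rw [if_neg (by omega), if_neg hdq]
      simp

end Pool.Agent.H67.Flat
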