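import Mathlib
import Pool.Agent.H67.Flat.Eval3

set_option autoImplicit false

/-!
# From heights to the abstract event system
-/

namespace Pool.Agent.H67.Flat

open Finset

theorem sum_window1 (p : ℕ) (κ : ℤ) (f : ℤ → ℤ) :
    ∑ i ∈ range p, f (κ - i) = ∑ k ∈ Icc (κ - p + 1) κ, f k := by
  refine sum_nbij' (fun i => κ - i) (fun k => (κ - k).toNat) ?_ ?_ ?_ ?_ ?_
  · intro i hi
    rw [mem_range] at hi
    rw [mem_Icc]
    constructor <;> omega
  · intro k hk
    rw [mem_Icc] at hk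
    rw [mem_range]; omega
  · intro i hi; omega
  · intro k hk
    rw [mem_Icc] at hk
    omega
  · intro i _; rfl

theorem sum_window2 (p : ℕ) (κ : ℤ) (f : ℤ → ℤ) :
    ∑ i ∈ range p, f (i + κ - p + 1) = ∑ k ∈ Icc (κ - p + 1) κ, f k := by
  refine sum_nbij' (fun i : ℕ => (i : ℤ) + κ - p + 1) (fun k => (k - κ + p - 1).toNat)
    ?_ ?_ ?_ ?_ ?_
  · intro i hi
    rw [mem_range] at hi
    rw [mem_Icc]
    constructor <;> omega
  · intro k hk
    rw [mem_Icc] at hk
    rw [mem_range]; omega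
  · intro i hi; omega
  · intro k hk
    rw [mem_Icc] at hk
    omega
  · intro i _; rfl

theorem sum_dvd0 {p κ : ℤ} (h1 : 1 ≤ κ) (h2 : κ ≤ p - 1) (f : ℤ → ℤ) :
    ∑ k ∈ Icc (κ - p + 1) κ, (if p ∣ k then f k else 0) = f 0 := by
  rw [sum_eq_single 0]
  · rw [if_pos (dvd_zero p)]
  · intro k hk hne
    rw [mem_Icc] at hk
    rw [if_neg]
    intro hd
    rcases lt_or_gt_of_ne hne with h | h
    · have := Int.le_of_dvd (by omega : 0 < -k) ((dvd_neg).mpr hd)
      omega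
    · have := Int.le_of_dvd h hd
      omega
  · intro hn
    exfalso; apply hn
    rw [mem_Icc]; constructor <;> omega

theorem sum_dvd1 {p κ : ℤ} (h1 : 1 ≤ κ) (h2 : κ ≤ p - 1) (f : ℤ → ℤ) :
    ∑ k ∈ Icc (κ - p + 1) κ, (if p ∣ k - 1 then f k else 0) = f 1 := by
  rw [sum_eq_single 1]
  · rw [if_pos (by norm_num)]
  · intro k hk hne
    rw [mem_Icc] at hk
    rw [if_neg]
    intro hd
    rcases lt_or_gt_of_ne hne with h | h
    · have := Int.le_of_dvd (by omega : 0 < -(k - 1)) ((dvd_neg).mpr hd)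
      omega
    · have := Int.le_of_dvd (by omega : 0 < k - 1) hd
      omega
  · intro hn
    exfalso; apply hn
    rw [mem_Icc]; constructor <;> omega

theorem ite_le_eq (Z s : ℤ) : (if Z ≤ s then (1 : ℤ) else 0) = 1 - (if s < Z then 1 else 0) := by
  split_ifs <;> omega

/-- `q ≡ 1 mod p` -/
theorem bridge1 {p : ℕ} {q ν G u κ d0 Z : ℤ} (hp : 2 ≤ p) (hpq : (p : ℤ) < q)
    (hq1 : (p : ℤ) ∣ q - 1) (hcop : IsCoprime ν (p : ℤ)) (huν : (p : ℤ) ∣ u - ν)
    (hG : (p : ℤ) ∣ G) (hGu : (p : ℤ) * q ∣ G + ν * q - u)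
    (hκ1 : 1 ≤ κ) (hκ2 : κ ≤ p - 1) (hd0 : (p : ℤ) ∣ d0) :
    Ev p q ν G (q - 1) 0 0 κ d0 Z = -FF p q 1 u (-p - d0 + u * κ) (p * q - p - Z) := by
  have hp' : (2 : ℤ) ≤ p := by exact_mod_cast hp
  have hp0 : (0 : ℤ) < p := by omega
  have hq0 : 0 < q := by omega
  have hN : 0 < (p : ℤ) * q := by positivity
  obtain ⟨c, hc⟩ := hGu
  obtain ⟨c', hc'⟩ := huν
  have hdl : ∀ k, (p : ℤ) ∣ dl (p * q) G d0 k ∧ 0 ≤ dl (p * q) G d0 k ∧
      dl (p * q) G d0 k < p * q ∧ ∃ e, dl (p * q) G d0 k = d0 - G * k + p * q * e := by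
    intro k
    have h1 := Int.mul_ediv_add_emod (d0 - G * k) ((p : ℤ) * q)
    refine ⟨?_, Int.emod_nonneg _ hN.ne', Int.emod_lt_of_pos _ hN,
      ⟨-((d0 - G * k) / (p * q)), ?_⟩⟩
    · have h2 : dl (p * q) G d0 k = d0 - G * k - p * (q * ((d0 - G * k) / (p * q))) := by
        unfold dl; linear_combination h1
      rw [h2]
      exact dvd_sub (dvd_sub hd0 (hG.mul_right _)) (dvd_mul_right _ _)
    · unfold dl; linear_combination h1
  have hX : ∀ k, aT p q 1 (p * q - p - Z) (-p - d0 + u * k) =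
      (if (p : ℤ) ∣ k then (if Z ≤ dl (p * q) G d0 k then 1 else 0) else 0) -
      (if dl (p * q) G d0 k < q - 1 then
        (if Z ≤ dl (p * q) G d0 k + q * av p ν k then 1 else 0) else 0) := by
    intro k
    obtain ⟨h1, h2, h3, e, he⟩ := hdl k
    rw [eval1 (b := ν * k) hp' hpq hq1 h1 h2 h3
      ⟨e - k * c, by rw [he]; linear_combination (-k) * hc⟩]
    have h4 : (p : ℤ) ∣ ν * k ↔ (p : ℤ) ∣ k :=
      ⟨fun h => hcop.symm.dvd_of_dvd_mul_left h, fun h => h.mul_left _⟩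
    simp only [h4]
    rfl
  have hX' : ∀ k, aT p q 1 (p * q - p - Z) (-p - d0 + u * k - u * q) =
      (if (p : ℤ) ∣ k - 1 then (if Z ≤ dl (p * q) G d0 k then 1 else 0) else 0) -
      (if dl (p * q) G d0 k < q - 1 then
        (if Z ≤ dl (p * q) G d0 k + q * av p ν (k - 1) then 1 else 0) else 0) := by
    intro k
    obtain ⟨h1, h2, h3, e, he⟩ := hdl k
    rw [eval1 (b := ν * (k - 1)) hp' hpq hq1 h1 h2 h3
      ⟨e - k * c - c', by rw [he]; linear_combination (-k) * hc - q * hc'⟩]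
    have h4 : (p : ℤ) ∣ ν * (k - 1) ↔ (p : ℤ) ∣ k - 1 :=
      ⟨fun h => hcop.symm.dvd_of_dvd_mul_left h, fun h => h.mul_left _⟩
    simp only [h4]
    rfl
  have hFF : FF p q 1 u (-p - d0 + u * κ) (p * q - p - Z) =
      ∑ k ∈ Icc (κ - p + 1) κ, (aT p q 1 (p * q - p - Z) (-p - d0 + u * k) -
        aT p q 1 (p * q - p - Z) (-p - d0 + u * k - u * q)) := by
    rw [← sum_window1]
    unfold FF
    apply sum_congr rfl
    intro i _
    congr 2 <;> ring
  rw [hFF, sum_congr rfl (fun k _ => by rw [hX k, hX' k])]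
  have hsplit : ∀ k ∈ Icc (κ - p + 1) κ,
      ((if (p : ℤ) ∣ k then (if Z ≤ dl (p * q) G d0 k then 1 else 0) else 0) -
      (if dl (p * q) G d0 k < q - 1 then
        (if Z ≤ dl (p * q) G d0 k + q * av p ν k then 1 else 0) else 0)) -
      ((if (p : ℤ) ∣ k - 1 then (if Z ≤ dl (p * q) G d0 k then 1 else 0) else 0) -
      (if dl (p * q) G d0 k < q - 1 then
        (if Z ≤ dl (p * q) G d0 k + q * av p ν (k - 1) then 1 else 0) else 0)) =
      ((if (p : ℤ) ∣ k then (if Z ≤ dl (p * q) G d0 k then 1 else 0) else 0) -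
      (if (p : ℤ) ∣ k - 1 then (if Z ≤ dl (p * q) G d0 k then 1 else 0) else 0)) -
      (if dl (p * q) G d0 k < q - 1 then
      ((if dl (p * q) G d0 k + q * av p ν (k - 1) < Z + 0 then 1 else 0) -
        (if dl (p * q) G d0 k + q * av p ν k < Z + 0 then 1 else 0))
      else 0 : ℤ) := by
    intro k _
    rw [add_zero, ite_le_eq Z (dl (p * q) G d0 k + q * av p ν k),
      ite_le_eq Z (dl (p * q) G d0 k + q * av p ν (k - 1))]
    split_ifs <;> ring
  rw [sum_congr rfl hsplit, sum_sub_distrib, sum_sub_distrib, sum_dvd0 hκ1 hκ2,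
    sum_dvd1 hκ1 hκ2, ite_le_eq, ite_le_eq]
  unfold Ev
  ring

/-- `q ≡ -1 mod p` -/
theorem bridge2 {p : ℕ} {q ν G u κ d0 Z : ℤ} (hp : 2 ≤ p) (hpq : (p : ℤ) < q)
    (hq1 : (p : ℤ) ∣ q + 1) (hcop : IsCoprime ν (p : ℤ)) (huν : (p : ℤ) ∣ u + ν)
    (hG : (p : ℤ) ∣ G) (hGu : (p : ℤ) * q ∣ G + ν * q - u)
    (hκ1 : 1 ≤ κ) (hκ2 : κ ≤ p - 1) (hd0 : (p : ℤ) ∣ d0) :
    Ev p q ν G (q + 1) 0 0 κ d0 Z = -FF p q (-1) u (d0 - q + u * (p - 1 - κ)) (Z - q - 1) := by
  have hp' : (2 : ℤ) ≤ p := by exact_mod_cast hp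
  have hp0 : (0 : ℤ) < p := by omega
  have hq0 : 0 < q := by omega
  have hN : 0 < (p : ℤ) * q := by positivity
  obtain ⟨c, hc⟩ := hGu
  obtain ⟨c', hc'⟩ := huν
  have hdl : ∀ k, (p : ℤ) ∣ dl (p * q) G d0 k ∧ 0 ≤ dl (p * q) G d0 k ∧
      dl (p * q) G d0 k < p * q ∧ ∃ e, dl (p * q) G d0 k = d0 - G * k + p * q * e := by
    intro k
    have h1 := Int.mul_ediv_add_emod (d0 - G * k) ((p : ℤ) * q)
    refine ⟨?_, Int.emod_nonneg _ hN.ne', Int.emod_lt_of_pos _ hN,
      ⟨-((d0 - G * k) / (p * q)), ?_⟩⟩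
    · have h2 : dl (p * q) G d0 k = d0 - G * k - p * (q * ((d0 - G * k) / (p * q))) := by
        unfold dl; linear_combination h1
      rw [h2]
      exact dvd_sub (dvd_sub hd0 (hG.mul_right _)) (dvd_mul_right _ _)
    · unfold dl; linear_combination h1
  have hX : ∀ k, aT p q (-1) (Z - q - 1) (d0 - q - u * k) =
      -(if (p : ℤ) ∣ k then (if dl (p * q) G d0 k < Z then 1 else 0) else 0) +
      (if dl (p * q) G d0 k < q + 1 then
        (if dl (p * q) G d0 k + q * av p ν k < Z then 1 else 0) else 0) := by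
    intro k
    obtain ⟨h1, h2, h3, e, he⟩ := hdl k
    rw [eval2 (b := -(ν * k)) hp' hpq hq1 h1 h2 h3
      ⟨-e + k * c, by rw [he]; linear_combination k * hc⟩]
    have h4 : (p : ℤ) ∣ -(ν * k) ↔ (p : ℤ) ∣ k :=
      ⟨fun h => hcop.symm.dvd_of_dvd_mul_left ((dvd_neg).mp h),
        fun h => (dvd_neg).mpr (h.mul_left _)⟩
    simp only [h4]
    rfl
  have hX' : ∀ k, aT p q (-1) (Z - q - 1) (d0 - q - u * k - u * q) =
      -(if (p : ℤ) ∣ k - 1 then (if dl (p * q) G d0 k < Z then 1 else 0) else 0) +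
      (if dl (p * q) G d0 k < q + 1 then
        (if dl (p * q) G d0 k + q * av p ν (k - 1) < Z then 1 else 0) else 0) := by
    intro k
    obtain ⟨h1, h2, h3, e, he⟩ := hdl k
    rw [eval2 (b := -(ν * (k - 1))) hp' hpq hq1 h1 h2 h3
      ⟨-e + k * c - c', by rw [he]; linear_combination k * hc - q * hc'⟩]
    have h4 : (p : ℤ) ∣ -(ν * (k - 1)) ↔ (p : ℤ) ∣ k - 1 :=
      ⟨fun h => hcop.symm.dvd_of_dvd_mul_left ((dvd_neg).mp h),
        fun h => (dvd_neg).mpr (h.mul_left _)⟩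
    simp only [h4]
    rfl
  have hFF : FF p q (-1) u (d0 - q + u * (p - 1 - κ)) (Z - q - 1) =
      ∑ k ∈ Icc (κ - p + 1) κ, (aT p q (-1) (Z - q - 1) (d0 - q - u * k) -
        aT p q (-1) (Z - q - 1) (d0 - q - u * k - u * q)) := by
    rw [← sum_window2]
    unfold FF
    apply sum_congr rfl
    intro i _
    congr 2 <;> ring
  rw [hFF, sum_congr rfl (fun k _ => by rw [hX k, hX' k])]
  have hsplit : ∀ k ∈ Icc (κ - p + 1) κ,
      (-(if (p : ℤ) ∣ k then (if dl (p * q) G d0 k < Z then 1 else 0) else 0) +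
      (if dl (p * q) G d0 k < q + 1 then
        (if dl (p * q) G d0 k + q * av p ν k < Z then 1 else 0) else 0)) -
      (-(if (p : ℤ) ∣ k - 1 then (if dl (p * q) G d0 k < Z then 1 else 0) else 0) +
      (if dl (p * q) G d0 k < q + 1 then
        (if dl (p * q) G d0 k + q * av p ν (k - 1) < Z then 1 else 0) else 0)) =
      ((if (p : ℤ) ∣ k - 1 then (if dl (p * q) G d0 k < Z then 1 else 0) else 0) -
      (if (p : ℤ) ∣ k then (if dl (p * q) G d0 k < Z then 1 else 0) else 0)) -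
      (if dl (p * q) G d0 k < q + 1 then
      ((if dl (p * q) G d0 k + q * av p ν (k - 1) < Z + 0 then 1 else 0) -
        (if dl (p * q) G d0 k + q * av p ν k < Z + 0 then 1 else 0))
      else 0 : ℤ) := by
    intro k _
    rw [add_zero]
    split_ifs <;> ring
  rw [sum_congr rfl hsplit, sum_sub_distrib, sum_sub_distrib, sum_dvd0 hκ1 hκ2,
    sum_dvd1 hκ1 hκ2]
  unfold Ev
  ring

/-- `u ≡ 1 mod p` -/
theorem bridge3 {p : ℕ} {q lam G u κ d0 Z : ℤ} (hp : 2 ≤ p) (hpq : (p : ℤ) < q)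
    (hlam : (p : ℤ) ∣ lam * q - 1) (hu : (p : ℤ) ∣ u - 1)
    (hGu : (p : ℤ) * q ∣ G + u)
    (hκ1 : 1 ≤ κ) (hκ2 : κ ≤ p - 1) (hd0 : (p : ℤ) ∣ d0 - Z) (hZ0 : 0 ≤ Z)
    (hZN : Z < p * q) :
    Ev p q lam G q 1 0 κ d0 Z = -FF p q lam u (d0 - Z + u * κ) (p * q - 1 - Z) := by
  have hp' : (2 : ℤ) ≤ p := by exact_mod_cast hp
  have hp0 : (0 : ℤ) < p := by omega
  have hq0 : 0 < q := by omega
  have hN : 0 < (p : ℤ) * q := by positivity
  obtain ⟨c, hc⟩ := hGu
  obtain ⟨c', hc'⟩ := hu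
  obtain ⟨c0, hc0⟩ := hd0
  have hdl : ∀ k, (d0 - Z + u * k + Z) % (p * q) = dl (p * q) G d0 k := by
    intro k
    unfold dl
    have : d0 - Z + u * k + Z = d0 - G * k + p * q * (c * k) := by linear_combination k * hc
    rw [this, Int.add_mul_emod_self_left]
  have hdl2 : ∀ k, ∃ e, dl (p * q) G d0 k = d0 + u * k + p * q * e := by
    intro k
    have h1 := Int.mul_ediv_add_emod (d0 - G * k) ((p : ℤ) * q)
    refine ⟨-((d0 - G * k) / (p * q)) - c * k, ?_⟩
    unfold dl; linear_combination h1 - k * hc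
  have hX : ∀ k, aT p q lam (p * q - 1 - Z) (d0 - Z + u * k) -
      aT p q lam (p * q - 1 - Z) (d0 - Z + u * k - u * q) =
      (if (p : ℤ) ∣ k then (if Z ≤ dl (p * q) G d0 k then 1 else 0) else 0) -
      (if (p : ℤ) ∣ k - 1 then (if Z ≤ dl (p * q) G d0 k then 1 else 0) else 0) -
      (if dl (p * q) G d0 k < q then
      ((if dl (p * q) G d0 k + q * av p lam (k - 1) < Z + 1 then 1 else 0) -
        (if dl (p * q) G d0 k + q * av p lam k < Z + 0 then 1 else 0))
      else 0 : ℤ) := by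
    intro k
    have h1 : aT p q lam (p * q - 1 - Z) (d0 - Z + u * k - u * q) =
        aT p q lam (p * q - 1 - Z) (d0 - Z + u * k - q) :=
      aT_congr (c := -c') (by linear_combination (-q) * hc')
    rw [h1, eval3 hp' hpq hlam hZ0 hZN, hdl, add_zero]
    obtain ⟨e, he⟩ := hdl2 k
    have h2 : (p : ℤ) ∣ d0 - Z + u * k ↔ (p : ℤ) ∣ k := by
      have : d0 - Z + u * k = p * (c0 + c' * k) + k := by linear_combination hc0 + k * hc'
      rw [this]
      exact Int.dvd_add_right (dvd_mul_right _ _)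
    have h3 : (p : ℤ) ∣ d0 - Z + u * k - 1 ↔ (p : ℤ) ∣ k - 1 := by
      have : d0 - Z + u * k - 1 = p * (c0 + c' * k) + (k - 1) := by
        linear_combination hc0 + k * hc'
      rw [this]
      exact Int.dvd_add_right (dvd_mul_right _ _)
    have h4 : (lam * (Z - dl (p * q) G d0 k + 1)) % p = av p lam (k - 1) := by
      unfold av
      have : lam * (Z - dl (p * q) G d0 k + 1) =
          -(lam * (k - 1)) + p * (-lam * (c0 + c' * k + q * e)) := by
        rw [he]; linear_combination (-lam) * hc0 - lam * k * hc'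
      rw [this, Int.add_mul_emod_self_left]
    have h5 : (lam * (Z - dl (p * q) G d0 k)) % p = av p lam k := by
      unfold av
      have : lam * (Z - dl (p * q) G d0 k) =
          -(lam * k) + p * (-lam * (c0 + c' * k + q * e)) := by
        rw [he]; linear_combination (-lam) * hc0 - lam * k * hc'
      rw [this, Int.add_mul_emod_self_left]
    rw [h4, h5]
    simp only [h2, h3]
  have hFF : FF p q lam u (d0 - Z + u * κ) (p * q - 1 - Z) =
      ∑ k ∈ Icc (κ - p + 1) κ, (aT p q lam (p * q - 1 - Z) (d0 - Z + u * k) -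
        aT p q lam (p * q - 1 - Z) (d0 - Z + u * k - u * q)) := by
    rw [← sum_window1]
    unfold FF
    apply sum_congr rfl
    intro i _
    congr 2 <;> ring
  rw [hFF, sum_congr rfl (fun k _ => hX k), sum_sub_distrib, sum_sub_distrib,
    sum_dvd0 hκ1 hκ2, sum_dvd1 hκ1 hκ2, ite_le_eq, ite_le_eq]
  unfold Ev
  ring

/-- `u ≡ -1 mod p` -/
theorem bridge4 {p : ℕ} {q lam ν G u κ d0 Z : ℤ} (hp : 2 ≤ p) (hpq : (p : ℤ) < q)
    (hlam : (p : ℤ) ∣ lam * q - 1) (hν : (p : ℤ) ∣ ν + lam) (hu : (p : ℤ) ∣ u + 1)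
    (hGu : (p : ℤ) * q ∣ G + u)
    (hκ1 : 1 ≤ κ) (hκ2 : κ ≤ p - 1) (hd0 : (p : ℤ) ∣ d0 - Z - 1) (hZ0 : 0 ≤ Z)
    (hZN : Z < p * q) :
    Ev p q ν G q 0 1 κ d0 Z = -FF p q lam u (d0 - Z - q + u * κ) (p * q - 1 - Z) := by
  have hp' : (2 : ℤ) ≤ p := by exact_mod_cast hp
  have hp0 : (0 : ℤ) < p := by omega
  have hq0 : 0 < q := by omega
  have hN : 0 < (p : ℤ) * q := by positivity
  obtain ⟨c, hc⟩ := hGu
  obtain ⟨c', hc'⟩ := hu
  obtain ⟨c0, hc0⟩ := hd0
  obtain ⟨c1, hc1⟩ := hν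
  have hdl : ∀ k, (d0 - Z + u * k + Z) % (p * q) = dl (p * q) G d0 k := by
    intro k
    unfold dl
    have : d0 - Z + u * k + Z = d0 - G * k + p * q * (c * k) := by linear_combination k * hc
    rw [this, Int.add_mul_emod_self_left]
  have hdl2 : ∀ k, ∃ e, dl (p * q) G d0 k = d0 + u * k + p * q * e := by
    intro k
    have h1 := Int.mul_ediv_add_emod (d0 - G * k) ((p : ℤ) * q)
    refine ⟨-((d0 - G * k) / (p * q)) - c * k, ?_⟩
    unfold dl; linear_combination h1 - k * hc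
  have hX : ∀ k, aT p q lam (p * q - 1 - Z) (d0 - Z + u * k - q) -
      aT p q lam (p * q - 1 - Z) (d0 - Z + u * k - q - u * q) =
      (if (p : ℤ) ∣ k then (if Z ≤ dl (p * q) G d0 k then 1 else 0) else 0) -
      (if (p : ℤ) ∣ k - 1 then (if Z ≤ dl (p * q) G d0 k then 1 else 0) else 0) -
      (if dl (p * q) G d0 k < q then
      ((if dl (p * q) G d0 k + q * av p ν (k - 1) < Z + 0 then 1 else 0) -
        (if dl (p * q) G d0 k + q * av p ν k < Z + 1 then 1 else 0))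
      else 0 : ℤ) := by
    intro k
    have h1 : aT p q lam (p * q - 1 - Z) (d0 - Z + u * k - q - u * q) =
        aT p q lam (p * q - 1 - Z) (d0 - Z + u * k) :=
      aT_congr (c := -c') (by linear_combination (-q) * hc')
    have h0 := eval3 (X := d0 - Z + u * k) hp' hpq hlam hZ0 hZN
    rw [hdl] at h0
    obtain ⟨e, he⟩ := hdl2 k
    have h2 : (p : ℤ) ∣ d0 - Z + u * k ↔ (p : ℤ) ∣ k - 1 := by
      have : d0 - Z + u * k = p * (c0 + c' * k) - (k - 1) := by linear_combination hc0 + k * hc'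
      rw [this]
      exact dvd_sub_right (dvd_mul_right _ _)
    have h3 : (p : ℤ) ∣ d0 - Z + u * k - 1 ↔ (p : ℤ) ∣ k := by
      have : d0 - Z + u * k - 1 = p * (c0 + c' * k) - k := by
        linear_combination hc0 + k * hc'
      rw [this]
      exact dvd_sub_right (dvd_mul_right _ _)
    have h4 : (lam * (Z - dl (p * q) G d0 k + 1)) % p = av p ν k := by
      unfold av
      have : lam * (Z - dl (p * q) G d0 k + 1) =
          -(ν * k) + p * (c1 * k - lam * (c0 + c' * k + q * e)) := by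
        rw [he]; linear_combination (-lam) * hc0 - lam * k * hc' + k * hc1
      rw [this, Int.add_mul_emod_self_left]
    have h5 : (lam * (Z - dl (p * q) G d0 k)) % p = av p ν (k - 1) := by
      unfold av
      have : lam * (Z - dl (p * q) G d0 k) =
          -(ν * (k - 1)) + p * (c1 * (k - 1) - lam * (c0 + c' * k + q * e)) := by
        rw [he]; linear_combination (-lam) * hc0 - lam * k * hc' + (k - 1) * hc1
      rw [this, Int.add_mul_emod_self_left]
    rw [h4, h5] at h0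
    simp only [h2, h3] at h0
    rw [h1, add_zero]
    have h6 : aT p q lam (p * q - 1 - Z) (d0 - Z + u * k - q) -
        aT p q lam (p * q - 1 - Z) (d0 - Z + u * k) =
        -(aT p q lam (p * q - 1 - Z) (d0 - Z + u * k) -
        aT p q lam (p * q - 1 - Z) (d0 - Z + u * k - q)) := by ring
    rw [h6, h0]
    split_ifs <;> ring
  have hFF : FF p q lam u (d0 - Z - q + u * κ) (p * q - 1 - Z) =
      ∑ k ∈ Icc (κ - p + 1) κ, (aT p q lam (p * q - 1 - Z) (d0 - Z + u * k - q) -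
        aT p q lam (p * q - 1 - Z) (d0 - Z + u * k - q - u * q)) := by
    rw [← sum_window1]
    unfold FF
    apply sum_congr rfl
    intro i _
    congr 2 <;> ring
  rw [hFF, sum_congr rfl (fun k _ => hX k), sum_sub_distrib, sum_sub_distrib,
    sum_dvd0 hκ1 hκ2, sum_dvd1 hκ1 hκ2, ite_le_eq, ite_le_eq]
  unfold Ev
  ring

end Pool.Agent.H67.Flat
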