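import Mathlib

set_option autoImplicit false

/-!
# A return time lemma for rotations of `ℤ/N`
-/

namespace Pool.Agent.H67.Flat

theorem add_emod_left {N a b : ℤ} : (a % N + b) % N = (a + b) % N := by
  rw [Int.emod_add_emod]

/-- If `w * P < N` there is a point of `[0, w)` which does not return to `[0, w)` within `P`
steps of the rotation by `G`. -/
theorem kac {N G w P : ℤ} (hN : 0 < N) (hG : IsCoprime G N) (hw : 0 < w) (hP : 0 < P)
    (h : w * P < N) : ∃ x, 0 ≤ x ∧ x < w ∧ ∀ e, 1 ≤ e → e ≤ P → w ≤ (x + G * e) % N := by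
  by_contra hcon
  push Not at hcon
  set U : Finset ℤ := ((Finset.Ico 0 w) ×ˢ (Finset.Ico 0 P)).image
    (fun z => (z.1 + G * z.2) % N) with hU
  have h0U : (0 : ℤ) ∈ U := by
    rw [hU, Finset.mem_image]
    refine ⟨(0, 0), ?_, by simp⟩
    simp only [Finset.mem_product, Finset.mem_Ico]
    exact ⟨⟨le_refl _, hw⟩, ⟨le_refl _, hP⟩⟩
  have hclosed : ∀ y ∈ U, (y + G) % N ∈ U := by
    intro y hy
    rw [hU, Finset.mem_image] at hy
    obtain ⟨⟨x, j⟩, hxj, rfl⟩ := hy
    simp only [Finset.mem_product, Finset.mem_Ico] at hxj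
    obtain ⟨⟨hx0, hxw⟩, hj0, hjP⟩ := hxj
    simp only
    rw [add_emod_left]
    by_cases hlt : j + 1 < P
    · rw [hU, Finset.mem_image]
      refine ⟨(x, j + 1), ?_, ?_⟩
      · simp only [Finset.mem_product, Finset.mem_Ico]
        exact ⟨⟨hx0, hxw⟩, ⟨by omega, hlt⟩⟩
      · simp only; congr 1; ring
    · have hjP' : j + 1 = P := by omega
      obtain ⟨e, he1, heP, he⟩ := hcon x hx0 hxw
      rw [hU, Finset.mem_image]
      refine ⟨((x + G * e) % N, P - e), ?_, ?_⟩
      · simp only [Finset.mem_product, Finset.mem_Ico]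
        exact ⟨⟨Int.emod_nonneg _ hN.ne', he⟩, ⟨by omega, by omega⟩⟩
      · simp only
        rw [add_emod_left, ← hjP']
        congr 1; ring
  have hmul : ∀ n : ℕ, (G * n) % N ∈ U := by
    intro n
    induction n with
    | zero => simpa using h0U
    | succ n ih =>
      have := hclosed _ ih
      rw [add_emod_left] at this
      have e : G * ((n + 1 : ℕ) : ℤ) = G * n + G := by push_cast; ring
      rw [e]; exact this
  have hall : Finset.Ico 0 N ⊆ U := by
    intro t ht
    rw [Finset.mem_Ico] at ht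
    obtain ⟨a, b, hab⟩ := hG
    -- `n ≡ a t mod N`
    have hn : 0 ≤ (a * t) % N := Int.emod_nonneg _ hN.ne'
    have h1 := hmul ((a * t) % N).toNat
    rw [Int.toNat_of_nonneg hn] at h1
    have h2 : (G * ((a * t) % N)) % N = t := by
      have e1 : (G * ((a * t) % N)) % N = (G * (a * t)) % N := by
        rw [Int.mul_emod, Int.emod_emod_of_dvd _ (dvd_refl N), ← Int.mul_emod]
      rw [e1]
      have e2 : G * (a * t) = t + N * (-(b * t)) := by
        have : a * G = 1 - b * N := by linarith
        linear_combination t * this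
      rw [e2, Int.add_mul_emod_self_left]
      exact Int.emod_eq_of_lt ht.1 ht.2
    rw [h2] at h1
    exact h1
  have hcard := Finset.card_le_card hall
  have hc2 : U.card ≤ ((Finset.Ico (0 : ℤ) w) ×ˢ (Finset.Ico (0 : ℤ) P)).card :=
    Finset.card_image_le
  rw [Finset.card_product, Int.card_Ico, Int.card_Ico] at hc2
  rw [Int.card_Ico] at hcard
  have hc3 := hcard.trans hc2
  simp only [sub_zero] at hc3
  have hc4 : (N.toNat : ℤ) ≤ (w.toNat : ℤ) * (P.toNat : ℤ) := by exact_mod_cast hc3
  rw [Int.toNat_of_nonneg hN.le, Int.toNat_of_nonneg hw.le, Int.toNat_of_nonneg hP.le] at hc4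
  omega

end Pool.Agent.H67.Flat
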