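import Mathlib
import Pool.Agent.H67.Flat.Core

set_option autoImplicit false

/-!
# Two explicit families of sites
-/

namespace Pool.Agent.H67.Flat

section

variable {p q ν G w e1 e2 : ℤ} (P : Par p q ν G w e1 e2)

include P

theorem dl_G (k : ℤ) : dl (p * q) G G k = (-(G * (k - 1))) % (p * q) := by
  unfold dl
  congr 1; ring

/-- Family III: `u K < q`. -/
theorem Par.siteIII {K n : ℤ} (hK0 : 0 < K) (hKp : K < p - 1) (hn : ν * K = p * n + 1)
    (hK : (G + ν * q - p * q) * K < q) (hKw : q - (G + ν * q - p * q) * K < w)
    {Z : ℤ} (hZ1 : (p - ν) * q < Z + e2) (hZ2 : Z ≤ G)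
    (hZ3 : Z + e1 ≤ p * q - (G + ν * q - p * q) * K) :
    Ev p q ν G w e1 e2 (K + 1) G Z = -2 := by
  have hN := P.N_pos
  have hp := P.hp; have hpq := P.hpq; have hν0 := P.hν0; have hνp := P.hνp
  have hG0 := P.hG0; have hGN := P.hGN; have hu := P.hu
  have hw1 := P.hw1; have hw2 := P.hw2
  have he1 := P.he1; have he1' := P.he1'; have he2 := P.he2; have he2' := P.he2'
  have hq : 0 < q := by omega
  have hp0 : 0 < p := by omega
  set u := G + ν * q - p * q with hudef
  have hu0 : 0 < u := by omega
  have huK : 0 < u * K := by positivity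
  -- positions
  have d1 : dl (p * q) G G 1 = 0 := by rw [dl_G P]; simp
  have d0 : dl (p * q) G G 0 = G := by
    unfold dl; rw [mul_zero, sub_zero]; exact Int.emod_eq_of_lt hG0 hGN
  have hqpq : q < p * q := by nlinarith
  have dK : dl (p * q) G G (K + 1) = q - u * K := by
    rw [dl_G P]
    refine emod_eq_of (c := n - K) ?_ (by omega) (by omega)
    rw [hudef]
    linear_combination q * hn
  have hcopK : IsCoprime K p := ⟨ν, -n, by linear_combination hn⟩
  have dother : ∀ k, K + 2 - p ≤ k → k ≤ K + 1 → k ≠ 1 → k ≠ K + 1 →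
      w ≤ dl (p * q) G G k := by
    intro k hk1 hk2 hk3 hk4
    rw [dl_G P]
    -- `e = k - 1`
    obtain ⟨e, rfl⟩ : ∃ e, k = e + 1 := ⟨k - 1, by ring⟩
    have he : e + 1 - 1 = e := by ring
    rw [he]
    have he0 : e ≠ 0 := by intro h; apply hk3; omega
    rcases lt_or_gt_of_ne he0 with hneg | hpos
    · -- `e = -f`
      obtain ⟨f, rfl⟩ : ∃ f, e = -f := ⟨-e, by ring⟩
      have hf0 : 0 < f := by omega
      have hfp : f ≤ p - 1 - K := by omega
      set c := (ν * f) % p with hc
      set d := (ν * f) / p with hd
      have hcd : ν * f = p * d + c := by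
        have := Int.mul_ediv_add_emod (ν * f) p
        linarith
      have hc0 : 0 ≤ c := Int.emod_nonneg _ (by omega)
      have hcp : c < p := Int.emod_lt_of_pos _ hp0
      have hc1 : 1 ≤ c := by
        by_contra hlt
        have h0 : c = 0 := by omega
        rw [h0, add_zero] at hcd
        have h1 : p ∣ ν * f := ⟨d, hcd⟩
        have h2 : p ∣ f := P.hcop.symm.dvd_of_dvd_mul_left h1
        have := Int.le_of_dvd hf0 h2
        omega
      -- `f ≤ c K`
      have hfc : f ≤ c * K := by
        -- `c K ≡ f mod p`
        have h1 : p ∣ c * K - f := by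
          refine ⟨n * f - d * K, ?_⟩
          linear_combination f * hn - K * hcd
        by_contra hlt
        have h2 : 0 < c * K := by positivity
        have h3 : p ∣ f - c * K := by
          have := dvd_neg.mpr h1
          rwa [neg_sub] at this
        have := Int.le_of_dvd (by omega) h3
        omega
      have huf : u * f < c * q := by
        have h1 : u * f ≤ u * (c * K) := mul_le_mul_of_nonneg_left hfc hu0.le
        have h2 : c * (u * K) < c * q := mul_lt_mul_of_pos_left hK (by omega)
        linarith [mul_comm u (c * K), mul_assoc c K u, mul_comm K u]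
      have huf0 : 0 < u * f := by positivity
      have hval : (-(G * -f)) % (p * q) = u * f + (p - c) * q := by
        refine emod_eq_of (c := f - d - 1) ?_ ?_ ?_
        · rw [hudef]
          linear_combination -q * hcd
        · have : 0 ≤ (p - c) * q := by
            apply mul_nonneg <;> omega
          omega
        · linarith [sub_mul p c q]
      rw [hval]
      have : q ≤ (p - c) * q := by
        have : 1 * q ≤ (p - c) * q := mul_le_mul_of_nonneg_right (by omega) hq.le
        linarith
      omega
    · -- `0 < e < K`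
      have heK : e < K := by
        rcases lt_or_eq_of_le (by omega : e ≤ K) with h | h
        · exact h
        · exfalso; apply hk4; omega
      set r := (ν * e) % p with hr
      set d := (ν * e) / p with hd
      have hrd : ν * e = p * d + r := by
        have := Int.mul_ediv_add_emod (ν * e) p
        linarith
      have hr0 : 0 ≤ r := Int.emod_nonneg _ (by omega)
      have hrp : r < p := Int.emod_lt_of_pos _ hp0
      have hr2 : 2 ≤ r := by
        by_contra hlt
        have h01 : r = 0 ∨ r = 1 := by omega
        rcases h01 with h0 | h0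
        · rw [h0, add_zero] at hrd
          have h1 : p ∣ ν * e := ⟨d, hrd⟩
          have h2 : p ∣ e := P.hcop.symm.dvd_of_dvd_mul_left h1
          have := Int.le_of_dvd hpos h2
          omega
        · rw [h0] at hrd
          have h1 : p ∣ ν * (K - e) := ⟨n - d, by linear_combination hn - hrd⟩
          have h2 : p ∣ K - e := P.hcop.symm.dvd_of_dvd_mul_left h1
          have := Int.le_of_dvd (by omega) h2
          omega
      have hue : u * e < q := by
        have : u * e < u * K := mul_lt_mul_of_pos_left heK hu0
        omega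
      have hue0 : 0 < u * e := by positivity
      have h2q : 2 * q ≤ r * q := mul_le_mul_of_nonneg_right hr2 hq.le
      have hrq : r * q ≤ (p - 1) * q := mul_le_mul_of_nonneg_right (by omega) hq.le
      have hval : (-(G * e)) % (p * q) = r * q - u * e := by
        refine emod_eq_of (c := d - e) ?_ (by omega) ?_
        · rw [hudef]
          linear_combination q * hrd
        · linarith [sub_mul p 1 q]
      rw [hval]
      omega
  -- rows
  have a0 : av p ν 0 = 0 := P.av_zero
  have a1 : av p ν 1 = p - ν := P.av_one
  have aK : av p ν K = p - 1 := by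
    unfold av
    exact emod_eq_of (c := -n - 1) (by linear_combination -hn) (by omega) (by omega)
  have hν2 : ν ≤ p - 2 := by
    by_contra hlt
    have hν1 : ν = p - 1 := by omega
    rw [hν1] at hn
    have h1 : p ∣ K + 1 := ⟨K - n, by linear_combination -hn⟩
    have := Int.le_of_dvd (by omega) h1
    omega
  have aK1 : av p ν (K + 1) = p - 1 - ν := by
    unfold av
    exact emod_eq_of (c := -n - 1) (by linear_combination -hn) (by omega) (by omega)
  have hZ0 : 0 < Z := by
    have : 1 * q ≤ (p - ν) * q := mul_le_mul_of_nonneg_right (by omega) hq.le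
    have : 4 ≤ q := by omega
    omega
  have hw0 : 0 < w := by omega
  unfold Ev
  rw [Finset.sum_eq_single (K + 1)]
  · have e1K : K + 1 - 1 = K := by ring
    rw [d0, d1, dK, e1K, aK, aK1, if_neg (by omega), if_pos hZ0, if_pos hKw, if_neg, if_pos]
    · norm_num
    · have : q * (p - 1 - ν) = (p - ν) * q - q := by ring
      omega
    · have : q * (p - 1) = p * q - q := by ring
      omega
  · intro k hk hne
    rw [Finset.mem_Icc] at hk
    by_cases h1 : k = 1
    · subst h1
      rw [d1, if_pos hw0, sub_self, a0, a1, if_pos, if_pos]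
      · norm_num
      · have : q * (p - ν) = (p - ν) * q := by ring
        omega
      · omega
    · rw [if_neg]
      have := dother k (by omega) (by omega) h1 hne
      omega
  · intro hnot
    exfalso; apply hnot
    rw [Finset.mem_Icc]
    constructor <;> omega

/-- Family II: `v = N - G` is small. -/
theorem Par.siteII {κ : ℤ} (hν : ν < p - 1) (hκ1 : (κ - 1) * (p - ν) < p)
    (hκ2 : p < κ * (p - ν)) (hvq : (p * q - G) * (κ - 1) < q)
    (hvw : (p * q - G) * (κ - 1) < w)
    {Z : ℤ} (hZ1 : (p - ν) * q < Z + e2) (hZ2 : Z ≤ G)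
    (hZ3 : Z + e1 ≤ (p - ν) * q + (p * q - G)) :
    2 ≤ κ ∧ κ ≤ p - 1 ∧ Ev p q ν G w e1 e2 κ G Z = -2 := by
  have hN := P.N_pos
  have hp := P.hp; have hpq := P.hpq; have hν0 := P.hν0; have hνp := P.hνp
  have hG0 := P.hG0; have hGN := P.hGN; have hu := P.hu
  have hw1 := P.hw1; have hw2 := P.hw2
  have he1 := P.he1; have he1' := P.he1'; have he2 := P.he2; have he2' := P.he2'
  have hq : 0 < q := by omega
  have hp0 : 0 < p := by omega
  set v := p * q - G with hv
  have hv0 : 0 < v := by omega
  set a := p - ν with ha
  have ha2 : 2 ≤ a := by omega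
  have hap : a < p := by omega
  have hκ2' : 2 ≤ κ := by
    by_contra hlt
    have : κ * a ≤ 1 * a := mul_le_mul_of_nonneg_right (by omega) (by omega)
    omega
  have hκp : κ ≤ p - 1 := by
    by_contra hlt
    have : (p - 1) * a ≤ (κ - 1) * a := mul_le_mul_of_nonneg_right (by omega) (by omega)
    nlinarith
  refine ⟨hκ2', hκp, ?_⟩
  have hvq1 : v < q := by
    have : v * 1 ≤ v * (κ - 1) := mul_le_mul_of_nonneg_left (by omega) hv0.le
    omega
  -- positions
  have dpos : ∀ k, 1 ≤ k → k ≤ κ → dl (p * q) G G k = v * (k - 1) := by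
    intro k hk1 hk2
    rw [dl_G P]
    have h0 : 0 ≤ v * (k - 1) := mul_nonneg hv0.le (by omega)
    have h1 : v * (k - 1) ≤ v * (κ - 1) := mul_le_mul_of_nonneg_left (by omega) hv0.le
    have hqpq : q < p * q := by nlinarith
    refine emod_eq_of (c := -(k - 1)) ?_ h0 (by omega)
    rw [hv]; ring
  have dneg : ∀ k, κ - p + 1 ≤ k → k ≤ 0 → w ≤ dl (p * q) G G k := by
    intro k hk1 hk2
    rw [dl_G P]
    have h1 : v * (1 - k) ≤ v * (p - κ) := mul_le_mul_of_nonneg_left (by omega) hv0.le
    have h2 : v * (p - κ) ≤ v * (p - 2) := mul_le_mul_of_nonneg_left (by omega) hv0.le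
    have h3 : v * (p - 2) ≤ (q - 1) * (p - 2) := mul_le_mul_of_nonneg_right (by omega) (by omega)
    have h4 : 0 < v * (1 - k) := mul_pos hv0 (by omega)
    have h5 : (q - 1) * (p - 2) = p * q - 2 * q - p + 2 := by ring
    have hval : (-(G * (k - 1))) % (p * q) = p * q - v * (1 - k) := by
      refine emod_eq_of (c := -k) ?_ (by omega) (by omega)
      rw [hv]; ring
    rw [hval]
    omega
  have d1 : dl (p * q) G G 1 = 0 := by
    rw [dpos 1 (le_refl _) (by omega)]; ring
  have d0 : dl (p * q) G G 0 = G := by
    unfold dl; rw [mul_zero, sub_zero]; exact Int.emod_eq_of_lt hG0 hGN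
  -- rows
  have apos : ∀ k, 0 ≤ k → k ≤ κ - 1 → av p ν k = k * a := by
    intro k hk0 hk1
    unfold av
    have h0 : 0 ≤ k * a := mul_nonneg hk0 (by omega)
    have h1 : k * a ≤ (κ - 1) * a := mul_le_mul_of_nonneg_right (by omega) (by omega)
    refine emod_eq_of (c := -k) ?_ h0 (by omega)
    rw [ha]; ring
  have aκ : av p ν κ = κ * a - p := by
    unfold av
    refine emod_eq_of (c := 1 - κ) ?_ (by omega) ?_
    · rw [ha]; ring
    · have : κ * a = (κ - 1) * a + a := by ring
      omega
  have hZ0 : 0 < Z := by
    have : 2 * q ≤ a * q := mul_le_mul_of_nonneg_right ha2 hq.le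
    omega
  have hw0 : 0 < w := by omega
  unfold Ev
  rw [Finset.sum_eq_single κ]
  · rw [d0, d1, dpos κ (by omega) (le_refl _), aκ, apos (κ - 1) (by omega) (le_refl _),
      if_neg (by omega), if_pos hZ0, if_pos hvw, if_neg, if_pos]
    · norm_num
    · -- `v(κ-1) + q (κ a - p) < Z + e2`
      have h1 : κ * a - p ≤ a - 1 := by
        have : κ * a = (κ - 1) * a + a := by ring
        omega
      have h2 : q * (κ * a - p) ≤ q * (a - 1) := mul_le_mul_of_nonneg_left h1 hq.le
      have h3 : q * (a - 1) = a * q - q := by ring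
      omega
    · -- `v(κ-1) + q (κ-1) a ≥ Z + e1`
      have h1 : v * 1 ≤ v * (κ - 1) := mul_le_mul_of_nonneg_left (by omega) hv0.le
      have h2 : 1 * a ≤ (κ - 1) * a := mul_le_mul_of_nonneg_right (by omega) (by omega)
      have h3 : q * (1 * a) ≤ q * ((κ - 1) * a) := mul_le_mul_of_nonneg_left h2 hq.le
      have h4 : q * (1 * a) = a * q := by ring
      omega
  · intro k hk hne
    rw [Finset.mem_Icc] at hk
    rcases lt_or_ge k 1 with hk1 | hk1
    · rw [if_neg]
      have := dneg k (by omega) (by omega)
      omega
    · have hkκ : k ≤ κ - 1 := by omega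
      have hdk := dpos k hk1 hk.2
      have hvk : v * (k - 1) ≤ v * (κ - 1) := mul_le_mul_of_nonneg_left (by omega) hv0.le
      have hvk0 : 0 ≤ v * (k - 1) := mul_nonneg hv0.le (by omega)
      rw [hdk, if_pos (by omega), apos (k - 1) (by omega) (by omega), apos k (by omega) hkκ]
      rcases eq_or_lt_of_le hk1 with h1 | h1
      · rw [← h1, if_pos, if_pos]
        · norm_num
        · have : v * (1 - 1) + q * (1 * a) = a * q := by ring
          omega
        · have : v * ((1 : ℤ) - 1) + q * ((1 - 1) * a) = 0 := by ring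
          omega
      · have h2 : v * 1 ≤ v * (k - 1) := mul_le_mul_of_nonneg_left (by omega) hv0.le
        have h3 : 1 * a ≤ (k - 1) * a := mul_le_mul_of_nonneg_right (by omega) (by omega)
        have h4 : q * (1 * a) ≤ q * ((k - 1) * a) := mul_le_mul_of_nonneg_left h3 hq.le
        have h5 : q * (1 * a) = a * q := by ring
        have h6 : q * (k * a) = q * ((k - 1) * a) + a * q := by ring
        have h7 : 2 * q ≤ a * q := mul_le_mul_of_nonneg_right ha2 hq.le
        rw [if_neg (by omega), if_neg (by omega)]
        norm_num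
  · intro hnot
    exfalso; apply hnot
    rw [Finset.mem_Icc]
    constructor <;> omega

end

end Pool.Agent.H67.Flat
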