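import Mathlib
import Pool.Agent.H67.Flat.Sites

set_option autoImplicit false

/-!
# The abstract classification
-/

namespace Pool.Agent.H67.Flat

section

variable {p q ν G w e1 e2 : ℤ} (P : Par p q ν G w e1 e2)

include P

/-- The abstract classification: if all heights are bounded by one, then `u` is in one of the
exceptional ranges. -/
theorem Par.main (Al : ℤ → ℤ → Prop) (D : ℤ → Prop) (hDG : D G)
    (hDC : ∀ x k, D x → D (x + (G * k) % (p * q)))
    (H : ∀ κ d0 Z, 1 ≤ κ → κ ≤ p - 1 → 0 ≤ d0 → d0 < p * q → D d0 → Al d0 Z →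
      |Ev p q ν G w e1 e2 κ d0 Z| ≤ 1)
    (hkac : ∃ x, 0 ≤ x ∧ x < w ∧ D x ∧ ∀ e, 1 ≤ e → e ≤ p - 1 → w ≤ (x + G * e) % (p * q))
    (pick : ∀ x k, 0 ≤ x → x < w → 2 ≤ k → k ≤ p - 1 →
      (G * k) % (p * q) < (G * (k - 1)) % (p * q) → av p ν (k - 1) < av p ν k →
      (G * k) % (p * q) < q * av p ν k → q * av p ν (k - 1) < (G * (k - 1)) % (p * q) →
      x + (G * (k - 1)) % (p * q) < p * q →
      ∃ Z, Al (x + (G * k) % (p * q)) Z ∧ x + (G * k) % (p * q) < Z ∧
        Z ≤ x + (G * (k - 1)) % (p * q) ∧ x + q * av p ν (k - 1) < Z + e1 ∧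
        Z + e2 ≤ x + q * av p ν k)
    (pick2 : ∃ Z, Al G Z ∧ (p - ν) * q < Z + e2 ∧ Z ≤ G ∧
      Z + e1 ≤ (p - ν) * q + (p * q - G))
    (pick3 : ∃ Z, Al G Z ∧ (p - ν) * q < Z + e2 ∧ Z ≤ G ∧ Z + e1 ≤ (p - 1) * q + 1) :
    ∃ K, 0 < K ∧ K < p ∧ (ν * K) % p = 1 ∧
      (((G + ν * q - p * q) * K < q ∧ (K = p - 1 ∨ w ≤ q - (G + ν * q - p * q) * K)) ∨
      ((p * q - G) * K < q ∧
        (ν = p - 1 ∨ ∃ j, 0 < j ∧ j ≤ K ∧ j * (p - ν) < p ∧ w ≤ (p * q - G) * j))) := by
  have hN := P.N_pos
  have hp := P.hp; have hpq := P.hpq; have hν0 := P.hν0; have hνp := P.hνp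
  have hG0 := P.hG0; have hGN := P.hGN; have hu := P.hu
  have hq : 0 < q := by omega
  have hp0 : 0 < p := by omega
  obtain ⟨x, hx0, hxw, hxD, hx⟩ := hkac
  have hch := P.chain Al D H hx0 hxw (fun k _ _ => hDC x k hxD) hx (fun k => pick x k hx0 hxw)
  -- translate to residues of `u k`
  have hres : ∀ k, 0 < k → k < p → ((G + ν * q - p * q) * k) % (p * q) ≠ 0 ∧
      ((G + ν * q - p * q) * k) % (p * q) < q * ((ν * k) % p) := by
    intro k hk0 hk1
    have h1 := hch k hk0 (by omega)
    have h2 := Int.emod_lt_of_pos (G * k) hN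
    obtain ⟨c, hc⟩ := P.C_sub_A k
    have ha0 := P.av_nonneg k
    have h3 : ((G + ν * q - p * q) * k) % (p * q) = (G * k) % (p * q) - q * av p ν k := by
      refine emod_eq_of (c := -c - k) (by linear_combination -hc) (by omega) ?_
      have : 0 ≤ q * av p ν k := mul_nonneg hq.le ha0
      omega
    have h4 : av p ν k = p - (ν * k) % p := by
      unfold av
      have h5 := Int.emod_nonneg (ν * k) hp0.ne'
      have h6 := Int.emod_lt_of_pos (ν * k) hp0
      have h7 : 0 < (ν * k) % p := by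
        rcases h5.lt_or_eq with h | h
        · exact h
        · exfalso
          have h8 : p ∣ ν * k := Int.dvd_of_emod_eq_zero h.symm
          have h9 : p ∣ k := P.hcop.symm.dvd_of_dvd_mul_left h8
          have := Int.le_of_dvd hk0 h9
          omega
      have h8 := Int.mul_ediv_add_emod (ν * k) p
      exact emod_eq_of (c := -((ν * k) / p) - 1) (by linear_combination h8) (by omega)
        (by omega)
    rw [h3]
    refine ⟨by omega, ?_⟩
    have h5 : q * (ν * k % p) = q * p - q * av p ν k := by rw [h4]; ring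
    have h6 : q * p = p * q := mul_comm _ _
    omega
  obtain ⟨K, hK0, hKp, hK1, hK⟩ := arith (u := G + ν * q - p * q) hp hpq hν0 hνp P.hcop
    (by omega) (by omega) (fun k h0 h1 => (hres k h0 h1).1) (fun k h0 h1 => (hres k h0 h1).2)
  obtain ⟨n, hn⟩ : ∃ n, ν * K = p * n + 1 := ⟨(ν * K) / p, by
    have := Int.mul_ediv_add_emod (ν * K) p
    rw [hK1] at this; linarith⟩
  refine ⟨K, hK0, hKp, hK1, ?_⟩
  rcases hK with hK | hK
  · left
    refine ⟨hK, ?_⟩
    by_contra hcon
    push Not at hcon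
    obtain ⟨hc1, hc2⟩ := hcon
    obtain ⟨Z, hZA, hZ1, hZ2, hZ3⟩ := pick3
    have hu0 : 0 < G + ν * q - p * q := by omega
    have h1 : 0 < (G + ν * q - p * q) * K := by positivity
    have h2 := P.siteIII hK0 (by omega) hn hK hc2 hZ1 hZ2 (by
      have : (p - 1) * q = p * q - q := by ring
      omega)
    have h3 := H (K + 1) G Z (by omega) (by omega) hG0 hGN hDG hZA
    rw [h2] at h3
    norm_num at h3
  · right
    have hv : ν * q - (G + ν * q - p * q) = p * q - G := by ring
    rw [hv] at hK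
    refine ⟨hK, ?_⟩
    by_contra hcon
    push Not at hcon
    obtain ⟨hc1, hc2⟩ := hcon
    have ha2 : 2 ≤ p - ν := by omega
    -- `j = p / a`
    set j := p / (p - ν) with hj
    set r := p % (p - ν) with hr
    have hjr : p = (p - ν) * j + r := by
      have := Int.mul_ediv_add_emod p (p - ν)
      linarith
    have hr0 : 0 ≤ r := Int.emod_nonneg _ (by omega)
    have hra : r < p - ν := Int.emod_lt_of_pos _ (by omega)
    have hr1 : 0 < r := by
      rcases hr0.lt_or_eq with h | h
      · exact h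
      · exfalso
        rw [← h, add_zero] at hjr
        have h5 : (p - ν) ∣ p := ⟨j, hjr⟩
        have h6 : (p - ν) ∣ ν := by
          have := dvd_sub h5 (dvd_refl (p - ν))
          rwa [sub_sub_cancel] at this
        have h7 : (p - ν) ∣ 1 := by
          obtain ⟨a, b, hab⟩ := P.hcop
          rw [← hab]
          exact dvd_add (h6.mul_left _) (h5.mul_left _)
        have := Int.le_of_dvd one_pos h7
        omega
    have hj1 : j * (p - ν) < p := by linarith [mul_comm j (p - ν)]
    have hj2 : p < (j + 1) * (p - ν) := by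
      have : (j + 1) * (p - ν) = (p - ν) * j + (p - ν) := by ring
      omega
    have hj0 : 0 < j := by
      by_contra hlt
      have : (j + 1) * (p - ν) ≤ 1 * (p - ν) := mul_le_mul_of_nonneg_right (by omega) (by omega)
      omega
    -- `j ≤ K`
    have hjK : j ≤ K := by
      have h5 : p ∣ (p - ν) * K + 1 := ⟨K - n, by linear_combination -hn⟩
      have h6 : 0 < (p - ν) * K := by
        apply mul_pos
        · omega
        · exact hK0
      have h7 := Int.le_of_dvd (by omega) h5
      by_contra hlt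
      have h8 : (K + 1) * (p - ν) ≤ j * (p - ν) := mul_le_mul_of_nonneg_right (by omega) (by omega)
      have h9 : (K + 1) * (p - ν) = (p - ν) * K + (p - ν) := by ring
      omega
    have hv0 : 0 < p * q - G := by omega
    have hvj : (p * q - G) * j ≤ (p * q - G) * K := mul_le_mul_of_nonneg_left hjK hv0.le
    obtain ⟨Z, hZA, hZ1, hZ2, hZ3⟩ := pick2
    have hc3 := hc2 j hj0 hjK hj1
    have hj' : j + 1 - 1 = j := by ring
    obtain ⟨h1, h2, h3⟩ := P.siteII (κ := j + 1) (by omega) (by rw [hj']; exact hj1) hj2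
      (by rw [hj']; omega) (by rw [hj']; exact hc3) hZ1 hZ2 hZ3
    have h4 := H (j + 1) G Z (by omega) (by omega) hG0 hGN hDG hZA
    rw [h3] at h4
    norm_num at h4

end

end Pool.Agent.H67.Flat
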