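import Mathlib
import Pool.Agent.H67.Flat.Kac
import Pool.Agent.H67.Flat.Main
import Pool.Agent.H67.Flat.Bridge

set_option autoImplicit false

/-!
# The three congruence cases
-/

namespace Pool.Agent.H67.Flat

/-- the exceptional ranges -/
def Exc (p q ν u w : ℤ) : Prop :=
  ∃ K, 0 < K ∧ K < p ∧ (ν * K) % p = 1 ∧
      ((u * K < q ∧ (K = p - 1 ∨ w ≤ q - u * K)) ∨
      ((ν * q - u) * K < q ∧
        (ν = p - 1 ∨ ∃ j, 0 < j ∧ j ≤ K ∧ j * (p - ν) < p ∧ w ≤ (ν * q - u) * j)))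

theorem dvd_emod {p a b : ℤ} (h1 : p ∣ a) (h2 : p ∣ b) : p ∣ a % b := by
  rw [Int.emod_def]
  exact dvd_sub h1 (h2.mul_right _)

/-- the return time lemma for multiples of `p` -/
theorem kac_mult {p q G w : ℤ} (hp : 2 ≤ p) (hq : 0 < q) (hG : p ∣ G) (hGq : IsCoprime G q)
    (hw0 : 0 < w) (hpw : p ∣ w) (hw : w * (p - 1) < p * q) :
    ∃ x, 0 ≤ x ∧ x < w ∧ p ∣ x ∧ ∀ e, 1 ≤ e → e ≤ p - 1 → w ≤ (x + G * e) % (p * q) := by
  have hp0 : 0 < p := by omega
  obtain ⟨g, rfl⟩ := hG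
  obtain ⟨l, rfl⟩ := hpw
  have hg : IsCoprime g q := hGq.of_mul_left_right
  have hl : 0 < l := (pos_iff_pos_of_mul_pos hw0).mp hp0
  have hlq : l * (p - 1) < q := by
    have : p * (l * (p - 1)) < p * q := by linarith [mul_assoc p l (p - 1)]
    exact lt_of_mul_lt_mul_left this hp0.le
  obtain ⟨x, hx0, hxl, hx⟩ := kac hq hg hl (by omega : 0 < p - 1) hlq
  refine ⟨p * x, by positivity, mul_lt_mul_of_pos_left hxl hp0, dvd_mul_right _ _, ?_⟩
  intro e he1 he2
  have h1 := hx e he1 he2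
  have h2 : p * x + p * g * e = p * (x + g * e) := by ring
  rw [h2, Int.mul_emod_mul_of_pos _ _ hp0]
  exact mul_le_mul_of_nonneg_left h1 hp0.le

/-- The case `q ≡ ε mod p`: common part. -/
theorem caseA {p : ℕ} {q ν u w : ℤ} (hp : 3 ≤ p) (hpq : (p : ℤ) < q)
    (hν0 : 0 < ν) (hνp : ν < p) (hcop : IsCoprime ν (p : ℤ)) (hu0 : 0 < u) (huν : u < ν * q)
    (hucop : IsCoprime u q) (hw1 : q - 1 ≤ w) (hw2 : w ≤ q + 1) (hpw : (p : ℤ) ∣ w)
    (hww : w * (p - 1) < p * q) (hG : (p : ℤ) ∣ u - ν * q)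
    (H : ∀ κ d0 Z, 1 ≤ κ → κ ≤ (p : ℤ) - 1 → (p : ℤ) ∣ d0 →
      |Ev p q ν (u - ν * q + p * q) w 0 0 κ d0 Z| ≤ 1) :
    Exc p q ν u w := by
  have hp' : (3 : ℤ) ≤ p := by exact_mod_cast hp
  have hp0 : (0 : ℤ) < p := by omega
  have hq0 : 0 < q := by omega
  have hνq : ν * q ≤ (p - 1) * q := mul_le_mul_of_nonneg_right (by omega) hq0.le
  have hpq1 : ((p : ℤ) - 1) * q = p * q - q := by ring
  have hw0 : 0 < w := by omega
  set G := u - ν * q + p * q with hGdef
  have hpG : (p : ℤ) ∣ G := dvd_add hG (dvd_mul_right _ _)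
  have P : Par (p : ℤ) q ν G w 0 0 :=
    { hp := hp'
      hpq := hpq
      hν0 := hν0
      hνp := hνp
      hcop := hcop
      hG0 := by omega
      hGN := by omega
      hu := by omega
      hucop := by
        have : G + ν * q = u + q * p := by rw [hGdef]; ring
        rw [this]
        exact (IsCoprime.add_mul_left_left hucop p)
      hw1 := hw1
      hw2 := hw2
      he1 := le_refl _
      he1' := by norm_num
      he2 := le_refl _
      he2' := by norm_num }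
  have hmain := P.main (fun _ _ => True) (fun d => (p : ℤ) ∣ d) hpG
    (fun x k hx => dvd_add hx (dvd_emod (hpG.mul_right _) (dvd_mul_right _ _)))
    (fun κ d0 Z h1 h2 _ _ h3 _ => H κ d0 Z h1 h2 h3)
    (by
      have hGq : IsCoprime G q := by
        have : G = u + q * (p - ν) := by rw [hGdef]; ring
        rw [this]
        exact IsCoprime.add_mul_left_left hucop _
      exact kac_mult (by omega) hq0 hpG hGq hw0 hpw hww)
    (by
      intro x k _ _ _ _ hC hA hCA hAC _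
      have hqA : q * av p ν (k - 1) < q * av p ν k := mul_lt_mul_of_pos_left hA hq0
      rcases le_total ((G * (k - 1)) % (p * q)) (q * av p ν k) with h | h
      · exact ⟨x + (G * (k - 1)) % (p * q), trivial, by omega, by omega, by omega, by omega⟩
      · exact ⟨x + q * av p ν k, trivial, by omega, by omega, by omega, by omega⟩)
    ⟨(p - ν) * q + 1, trivial, by omega, by
      have : ((p : ℤ) - ν) * q = p * q - ν * q := by ring
      omega, by omega⟩
    ⟨(p - ν) * q + 1, trivial, by omega, by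
      have : ((p : ℤ) - ν) * q = p * q - ν * q := by ring
      omega, by
      have : 1 * q ≤ ν * q := mul_le_mul_of_nonneg_right (by omega) hq0.le
      have : ((p : ℤ) - ν) * q = p * q - ν * q := by ring
      omega⟩
  have e1 : G + ν * q - p * q = u := by rw [hGdef]; ring
  have e2 : (p : ℤ) * q - G = ν * q - u := by rw [hGdef]; ring
  rw [e1, e2] at hmain
  exact hmain

/-- `q ≡ 1 mod p` -/
theorem case1 {p : ℕ} {q ν u : ℤ} (hp : 3 ≤ p) (hpq : (p : ℤ) < q) (hq1 : (p : ℤ) ∣ q - 1)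
    (hν0 : 0 < ν) (hνp : ν < p) (hcop : IsCoprime ν (p : ℤ)) (huν : (p : ℤ) ∣ u - ν)
    (hu0 : 0 < u) (huνq : u < ν * q) (hucop : IsCoprime u q)
    (hFF : ∀ m T, |FF p q 1 u m T| ≤ 1) : Exc p q ν u (q - 1) := by
  have hG : (p : ℤ) ∣ u - ν * q := by
    have : u - ν * q = (u - ν) - ν * (q - 1) := by ring
    rw [this]
    exact dvd_sub huν (hq1.mul_left _)
  refine caseA hp hpq hν0 hνp hcop hu0 huνq hucop (le_refl _) (by omega) hq1 ?_ hG ?_
  · have : (q - 1) * ((p : ℤ) - 1) = p * q - q - p + 1 := by ring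
    have : (3 : ℤ) ≤ p := by exact_mod_cast hp
    omega
  · intro κ d0 Z h1 h2 h3
    rw [bridge1 (by omega) hpq hq1 hcop huν (dvd_add hG (dvd_mul_right _ _))
      ⟨1, by ring⟩ h1 h2 h3, abs_neg]
    exact hFF _ _

/-- `q ≡ -1 mod p` -/
theorem case2 {p : ℕ} {q ν u : ℤ} (hp : 3 ≤ p) (hpq : (p : ℤ) < q) (hq1 : (p : ℤ) ∣ q + 1)
    (hν0 : 0 < ν) (hνp : ν < p) (hcop : IsCoprime ν (p : ℤ)) (huν : (p : ℤ) ∣ u + ν)
    (hu0 : 0 < u) (huνq : u < ν * q) (hucop : IsCoprime u q)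
    (hFF : ∀ m T, |FF p q (-1) u m T| ≤ 1) : Exc p q ν u (q + 1) := by
  have hG : (p : ℤ) ∣ u - ν * q := by
    have : u - ν * q = (u + ν) - ν * (q + 1) := by ring
    rw [this]
    exact dvd_sub huν (hq1.mul_left _)
  have hp' : (3 : ℤ) ≤ p := by exact_mod_cast hp
  refine caseA hp hpq hν0 hνp hcop hu0 huνq hucop (by omega) (le_refl _) hq1 ?_ hG ?_
  · -- `(q+1)(p-1) < p q`
    have h1 : (q + 1) * ((p : ℤ) - 1) = p * q - q + p - 1 := by ring
    omega
  · intro κ d0 Z h1 h2 h3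
    rw [bridge2 (by omega) hpq hq1 hcop huν (dvd_add hG (dvd_mul_right _ _))
      ⟨1, by ring⟩ h1 h2 h3, abs_neg]
    exact hFF _ _

end Pool.Agent.H67.Flat
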