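import Mathlib
import Pool.Agent.H67.Flat.Cases

set_option autoImplicit false

/-!
# The cases `u ≡ ±1 mod p`
-/

namespace Pool.Agent.H67.Flat

theorem emod_dvd_sub (a N : ℤ) {p : ℤ} (h : p ∣ N) : p ∣ a % N - a := by
  have h1 := Int.mul_ediv_add_emod a N
  have : a % N - a = -(N * (a / N)) := by linear_combination h1
  rw [this]
  exact (dvd_neg).mpr (h.mul_right _)

theorem av_dvd (p ν k : ℤ) : p ∣ av p ν k + ν * k := by
  have := emod_dvd_sub (-(ν * k)) p (dvd_refl p)
  have e : av p ν k + ν * k = (-(ν * k)) % p - (-(ν * k)) := by unfold av; ring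
  rw [e]; exact this

/-- the conclusion of the abstract classification is impossible when `w = q`,
`2 ≤ ν ≤ p - 2` -/
theorem no_exc {p q ν G : ℤ} (hν2 : 2 ≤ ν) (hνp : ν ≤ p - 2) (hG : 0 < p * q - G)
    (hu : 0 < G + ν * q - p * q)
    (h : ∃ K, 0 < K ∧ K < p ∧ (ν * K) % p = 1 ∧
      (((G + ν * q - p * q) * K < q ∧ (K = p - 1 ∨ q ≤ q - (G + ν * q - p * q) * K)) ∨
      ((p * q - G) * K < q ∧
        (ν = p - 1 ∨ ∃ j, 0 < j ∧ j ≤ K ∧ j * (p - ν) < p ∧ q ≤ (p * q - G) * j)))) :
    False := by
  obtain ⟨K, hK0, hKp, hK1, h⟩ := h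
  rcases h with ⟨_, h | h⟩ | ⟨h1, h | ⟨j, hj0, hjK, _, hj⟩⟩
  · subst h
    have h2 : (ν * (p - 1)) % p = (p - ν) := by
      exact emod_eq_of (c := ν - 1) (by ring) (by omega) (by omega)
    omega
  · have : 0 < (G + ν * q - p * q) * K := mul_pos hu hK0
    omega
  · omega
  · have : (p * q - G) * j ≤ (p * q - G) * K := mul_le_mul_of_nonneg_left hjK hG.le
    omega

/-- `u ≡ 1 mod p` -/
theorem case3 {p : ℕ} {q ν u : ℤ} (hp : 3 ≤ p) (hpq : (p : ℤ) < q)
    (hν2 : 2 ≤ ν) (hνp : ν ≤ p - 2) (hcop : IsCoprime ν (p : ℤ))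
    (hlam : (p : ℤ) ∣ ν * q - 1) (hu1 : (p : ℤ) ∣ u - 1)
    (hu0 : 1 < u) (huν : u < ν * q) (hucop : IsCoprime u q) (hup : IsCoprime u (p : ℤ))
    (hFF : ∀ m T, |FF p q ν u m T| ≤ 1) : False := by
  have hp' : (3 : ℤ) ≤ p := by exact_mod_cast hp
  have hp0 : (0 : ℤ) < p := by omega
  have hq0 : 0 < q := by omega
  have hνq : ν * q ≤ (p - 1) * q := mul_le_mul_of_nonneg_right (by omega) hq0.le
  have hpq1 : ((p : ℤ) - 1) * q = p * q - q := by ring
  have hν2q : 2 * q ≤ ν * q := mul_le_mul_of_nonneg_right hν2 hq0.le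
  have hupe : (p : ℤ) + 1 ≤ u := by
    have := Int.le_of_dvd (by omega) hu1
    omega
  have hut : (p : ℤ) ≤ ν * q - u := by
    refine Int.le_of_dvd (by omega) ?_
    have : ν * q - u = (ν * q - 1) - (u - 1) := by ring
    rw [this]; exact dvd_sub hlam hu1
  set G := p * q - u with hGdef
  have P : Par (p : ℤ) q ν G q 1 0 :=
    { hp := hp'
      hpq := hpq
      hν0 := by omega
      hνp := by omega
      hcop := hcop
      hG0 := by omega
      hGN := by omega
      hu := by omega
      hucop := by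
        have : G + ν * q = -u + q * (p + ν) := by rw [hGdef]; ring
        rw [this]
        exact (IsCoprime.add_mul_left_left hucop.neg_left _)
      hw1 := by omega
      hw2 := by omega
      he1 := by norm_num
      he1' := by norm_num
      he2 := by norm_num
      he2' := by norm_num }
  have hCp : ∀ k, (p : ℤ) ∣ (G * k) % (p * q) + k := by
    intro k
    have h1 := emod_dvd_sub (G * k) (p * q) (dvd_mul_right (p : ℤ) q)
    have e : (G * k) % (p * q) + k = ((G * k) % (p * q) - G * k) + (p * (q * k) - (u - 1) * k) := by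
      rw [hGdef]; ring
    rw [e]
    exact dvd_add h1 (dvd_sub (dvd_mul_right _ _) (hu1.mul_right _))
  have hAp : ∀ k, (p : ℤ) ∣ q * av p ν k + k := by
    intro k
    have e : q * av p ν k + k = q * (av p ν k + ν * k) - (ν * q - 1) * k := by ring
    rw [e]
    exact dvd_sub ((av_dvd p ν k).mul_left _) (hlam.mul_right _)
  have hmain := P.main (fun d0 Z => (p : ℤ) ∣ d0 - Z ∧ 0 ≤ Z ∧ Z < p * q) (fun _ => True) trivial
    (fun _ _ _ => trivial)
    (fun κ d0 Z h1 h2 _ _ _ h3 => by
      rw [bridge3 (by omega) hpq hlam hu1 ⟨1, by rw [hGdef]; ring⟩ h1 h2 h3.1 h3.2.1 h3.2.2,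
        abs_neg]
      exact hFF _ _)
    (by
      have hGN : IsCoprime G (p * q) := by
        have : G = -u + (p * q) * 1 := by rw [hGdef]; ring
        rw [this]
        exact IsCoprime.add_mul_left_left (IsCoprime.mul_right hup.neg_left hucop.neg_left) _
      have hN : 0 < (p : ℤ) * q := by positivity
      obtain ⟨x, h1, h2, h3⟩ := kac hN hGN hq0 (by omega : (0 : ℤ) < p - 1)
        (by have : q * ((p : ℤ) - 1) = p * q - q := by ring
            omega)
      exact ⟨x, h1, h2, trivial, h3⟩)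
    (by
      intro x k hx0 hxq hk2 hkp hC hA hCA hAC hxN
      have hqA : q * av p ν (k - 1) < q * av p ν k := mul_lt_mul_of_pos_left hA hq0
      have hCk0 : 0 ≤ (G * k) % (p * q) := Int.emod_nonneg _ (P.N_pos).ne'
      have hstep := P.C_step k
      have hG0 := P.hG0
      have hst : (G * k) % (p * q) = (G * (k - 1)) % (p * q) - u := by
        rcases hstep with h | h <;> omega
      rcases le_or_gt (q * av p ν k) ((G * (k - 1)) % (p * q)) with h | h
      · refine ⟨x + q * av p ν k, ⟨?_, by omega, by omega⟩, by omega, by omega, by omega, by omega⟩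
        have e : x + (G * k) % (p * q) - (x + q * av p ν k) =
          ((G * k) % (p * q) + k) - (q * av p ν k + k) := by ring
        rw [e]; exact dvd_sub (hCp k) (hAp k)
      · refine ⟨x + (G * (k - 1)) % (p * q) - 1, ⟨?_, by omega, by omega⟩, by omega, by omega,
          by omega, by omega⟩
        have e : x + (G * k) % (p * q) - (x + (G * (k - 1)) % (p * q) - 1) =
          ((G * k) % (p * q) + k) - ((G * (k - 1)) % (p * q) + (k - 1)) := by ring
        rw [e]; exact dvd_sub (hCp k) (hCp (k - 1)))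
    (by
      have e0 : ((p : ℤ) - ν) * q = p * q - ν * q := by ring
      refine ⟨(p - ν) * q + p, ⟨?_, by omega, by omega⟩, by omega, by omega, by omega⟩
      have e : G - ((p - ν) * q + p) = (ν * q - 1) - (u - 1) - p := by rw [hGdef]; ring
      rw [e]; exact dvd_sub (dvd_sub hlam hu1) (dvd_refl _))
    (by
      have e0 : ((p : ℤ) - ν) * q = p * q - ν * q := by ring
      refine ⟨(p - ν) * q + p, ⟨?_, by omega, by omega⟩, by omega, by omega, by omega⟩
      have e : G - ((p - ν) * q + p) = (ν * q - 1) - (u - 1) - p := by rw [hGdef]; ring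
      rw [e]; exact dvd_sub (dvd_sub hlam hu1) (dvd_refl _))
  exact no_exc hν2 hνp (by omega) (by omega) hmain

/-- `u ≡ -1 mod p` -/
theorem case4 {p : ℕ} {q lam ν u : ℤ} (hp : 3 ≤ p) (hpq : (p : ℤ) < q)
    (hν2 : 2 ≤ ν) (hνp : ν ≤ p - 2) (hcop : IsCoprime ν (p : ℤ))
    (hlam : (p : ℤ) ∣ lam * q - 1) (hνl : (p : ℤ) ∣ ν + lam) (hu1 : (p : ℤ) ∣ u + 1)
    (hu0 : 0 < u) (huν : u < ν * q) (hucop : IsCoprime u q) (hup : IsCoprime u (p : ℤ))
    (hFF : ∀ m T, |FF p q lam u m T| ≤ 1) : False := by
  have hp' : (3 : ℤ) ≤ p := by exact_mod_cast hp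
  have hp0 : (0 : ℤ) < p := by omega
  have hq0 : 0 < q := by omega
  have hνq : ν * q ≤ (p - 1) * q := mul_le_mul_of_nonneg_right (by omega) hq0.le
  have hpq1 : ((p : ℤ) - 1) * q = p * q - q := by ring
  have hν2q : 2 * q ≤ ν * q := mul_le_mul_of_nonneg_right hν2 hq0.le
  have hνq1 : (p : ℤ) ∣ ν * q + 1 := by
    have : ν * q + 1 = (ν + lam) * q - (lam * q - 1) := by ring
    rw [this]; exact dvd_sub (hνl.mul_right _) hlam
  have hupe : (p : ℤ) - 1 ≤ u := by
    have := Int.le_of_dvd (by omega) hu1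
    omega
  have hut : (p : ℤ) ≤ ν * q - u := by
    refine Int.le_of_dvd (by omega) ?_
    have : ν * q - u = (ν * q + 1) - (u + 1) := by ring
    rw [this]; exact dvd_sub hνq1 hu1
  set G := p * q - u with hGdef
  have P : Par (p : ℤ) q ν G q 0 1 :=
    { hp := hp'
      hpq := hpq
      hν0 := by omega
      hνp := by omega
      hcop := hcop
      hG0 := by omega
      hGN := by omega
      hu := by omega
      hucop := by
        have : G + ν * q = -u + q * (p + ν) := by rw [hGdef]; ring
        rw [this]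
        exact (IsCoprime.add_mul_left_left hucop.neg_left _)
      hw1 := by omega
      hw2 := by omega
      he1 := by norm_num
      he1' := by norm_num
      he2 := by norm_num
      he2' := by norm_num }
  have hCp : ∀ k, (p : ℤ) ∣ (G * k) % (p * q) - k := by
    intro k
    have h1 := emod_dvd_sub (G * k) (p * q) (dvd_mul_right (p : ℤ) q)
    have e : (G * k) % (p * q) - k = ((G * k) % (p * q) - G * k) + (p * (q * k) - (u + 1) * k) := by
      rw [hGdef]; ring
    rw [e]
    exact dvd_add h1 (dvd_sub (dvd_mul_right _ _) (hu1.mul_right _))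
  have hAp : ∀ k, (p : ℤ) ∣ q * av p ν k - k := by
    intro k
    have e : q * av p ν k - k = q * (av p ν k + ν * k) - (ν * q + 1) * k := by ring
    rw [e]
    exact dvd_sub ((av_dvd p ν k).mul_left _) (hνq1.mul_right _)
  have hmain := P.main (fun d0 Z => (p : ℤ) ∣ d0 - Z - 1 ∧ 0 ≤ Z ∧ Z < p * q) (fun _ => True)
    trivial (fun _ _ _ => trivial)
    (fun κ d0 Z h1 h2 _ _ _ h3 => by
      rw [bridge4 (by omega) hpq hlam hνl hu1 ⟨1, by rw [hGdef]; ring⟩ h1 h2 h3.1 h3.2.1 h3.2.2,
        abs_neg]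
      exact hFF _ _)
    (by
      have hGN : IsCoprime G (p * q) := by
        have : G = -u + (p * q) * 1 := by rw [hGdef]; ring
        rw [this]
        exact IsCoprime.add_mul_left_left (IsCoprime.mul_right hup.neg_left hucop.neg_left) _
      have hN : 0 < (p : ℤ) * q := by positivity
      obtain ⟨x, h1, h2, h3⟩ := kac hN hGN hq0 (by omega : (0 : ℤ) < p - 1)
        (by have : q * ((p : ℤ) - 1) = p * q - q := by ring
            omega)
      exact ⟨x, h1, h2, trivial, h3⟩)
    (by
      intro x k hx0 hxq hk2 hkp hC hA hCA hAC hxN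
      have hqA : q * av p ν (k - 1) + q ≤ q * av p ν k := by
        have : q * (av p ν (k - 1) + 1) ≤ q * av p ν k := mul_le_mul_of_nonneg_left hA hq0.le
        linarith [mul_add q (av p ν (k - 1)) 1]
      have hCk0 : 0 ≤ (G * k) % (p * q) := Int.emod_nonneg _ (P.N_pos).ne'
      rcases lt_or_ge ((G * (k - 1)) % (p * q)) (q * av p ν k) with h | h
      · refine ⟨x + (G * (k - 1)) % (p * q), ⟨?_, by omega, by omega⟩, by omega, by omega,
          by omega, by omega⟩
        have e : x + (G * k) % (p * q) - (x + (G * (k - 1)) % (p * q)) - 1 =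
          ((G * k) % (p * q) - k) - ((G * (k - 1)) % (p * q) - (k - 1)) := by ring
        rw [e]; exact dvd_sub (hCp k) (hCp (k - 1))
      · have hge : (p : ℤ) ≤ q * av p ν k - (G * k) % (p * q) := by
          refine Int.le_of_dvd (by omega) ?_
          have e : q * av p ν k - (G * k) % (p * q) =
            (q * av p ν k - k) - ((G * k) % (p * q) - k) := by ring
          rw [e]; exact dvd_sub (hAp k) (hCp k)
        refine ⟨x + q * av p ν k - 1, ⟨?_, by omega, by omega⟩, by omega, by omega, by omega,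
          by omega⟩
        have e : x + (G * k) % (p * q) - (x + q * av p ν k - 1) - 1 =
          ((G * k) % (p * q) - k) - (q * av p ν k - k) := by ring
        rw [e]; exact dvd_sub (hCp k) (hAp k))
    (by
      have e0 : ((p : ℤ) - ν) * q = p * q - ν * q := by ring
      refine ⟨(p - ν) * q + p - 1, ⟨?_, by omega, by omega⟩, by omega, by omega, by omega⟩
      have e : G - ((p - ν) * q + p - 1) - 1 = (ν * q + 1) - (u + 1) - p := by rw [hGdef]; ring
      rw [e]; exact dvd_sub (dvd_sub hνq1 hu1) (dvd_refl _))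
    (by
      have e0 : ((p : ℤ) - ν) * q = p * q - ν * q := by ring
      refine ⟨(p - ν) * q + p - 1, ⟨?_, by omega, by omega⟩, by omega, by omega, by omega⟩
      have e : G - ((p - ν) * q + p - 1) - 1 = (ν * q + 1) - (u + 1) - p := by rw [hGdef]; ring
      rw [e]; exact dvd_sub (dvd_sub hνq1 hu1) (dvd_refl _))
  exact no_exc hν2 hνp (by omega) (by omega) hmain

end Pool.Agent.H67.Flat
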