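import Mathlib
import Pool.Agent.H67.Flat.Cases2

set_option autoImplicit false

/-!
# The final arithmetic
-/

namespace Pool.Agent.H67.Flat

/-- the conclusion over the integers -/
def Concl (p q W : ℤ) : Prop :=
  p < W ∧ p * (p - 1) < q ∧ (p ∣ W - 1 ∨ p ∣ W + 1) ∧
    (p ∣ W - 1 → ¬ (W * p ∣ q - 1 ∨ W * p ∣ q + 1))

/-- `W = 1` is impossible -/
theorem u_ne_one {p q W t τ : ℤ} (hN : 6 ≤ p * q) (hτ : τ = 1 ∨ τ = -1)
    (h : W = p * q * t + τ) (hW0 : 0 < W) (hW2 : 2 * W ≤ p * q) (hWp : ¬ W ∣ p - 1) : False := by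
  have ht : t = 0 := by
    rcases lt_trichotomy t 0 with ht | ht | ht
    · have : p * q * t ≤ p * q * (-1) := mul_le_mul_of_nonneg_left (by omega) (by omega)
      rcases hτ with h1 | h1 <;> omega
    · exact ht
    · have : p * q * 1 ≤ p * q * t := mul_le_mul_of_nonneg_left (by omega) (by omega)
      rcases hτ with h1 | h1 <;> omega
  subst ht
  have : W = 1 := by
    rcases hτ with h1 | h1
    · omega
    · omega
  apply hWp
  rw [this]
  exact one_dvd _

/-- two signs congruent mod `p ≥ 3` are equal -/
theorem sign_eq {p a b : ℤ} (hp : 3 ≤ p) (ha : a = 1 ∨ a = -1) (hb : b = 1 ∨ b = -1)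
    (h : p ∣ a - b) : a = b := by
  rcases ha with rfl | rfl <;> rcases hb with rfl | rfl
  · rfl
  · exfalso
    have := Int.le_of_dvd (by norm_num) h
    omega
  · exfalso
    have := Int.le_of_dvd (by norm_num) ((dvd_neg).mpr h)
    omega
  · rfl

/-- case (a) -/
theorem final_a {p q u W ε t τ : ℤ} (hp : 3 ≤ p) (hpq : p < q) (hε : ε = 1 ∨ ε = -1)
    (hqε : p ∣ q - ε) (hτ : τ = 1 ∨ τ = -1) (hu0 : 0 < u) (huW : u * W = p * q * t + τ)
    (hW0 : 0 < W) (hW2 : 2 * W ≤ p * q) (hWp : ¬ W ∣ p - 1)
    (hu : p ∣ u + ε) (huK : u * (p - 1) < q) : Concl p q W := by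
  have hq0 : 0 < q := by omega
  have hp0 : 0 < p := by omega
  have hN : 6 ≤ p * q := by nlinarith
  have hu1 : u ≠ 1 := by
    rintro rfl
    exact u_ne_one (t := t) hN hτ (by linarith) hW0 hW2 hWp
  have ht : 1 ≤ t := by
    by_contra hcon
    have h1 : p * q * t ≤ p * q * 0 := mul_le_mul_of_nonneg_left (by omega) (by positivity)
    have h2 : 0 < u * W := mul_pos hu0 hW0
    have h3 : t = 0 := by
      by_contra h3
      have h4 : p * q * t ≤ p * q * (-1) := mul_le_mul_of_nonneg_left (by omega) (by positivity)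
      rcases hτ with h5 | h5 <;> omega
    subst h3
    have h6 : u * W = 1 := by
      rcases hτ with h5 | h5 <;> omega
    exact hu1 (Int.eq_one_of_mul_eq_one_right hu0.le h6)
  have hNt : p * q ≤ p * q * t := le_mul_of_one_le_right (by positivity) ht
  -- `W > p (p-1)`
  have hW : p * (p - 1) < W := by
    have h1 : p * (u * (p - 1) + 1) ≤ p * q := mul_le_mul_of_nonneg_left (by omega) hp0.le
    have h2 : u * (p * (p - 1)) < u * W := by
      have : p * (u * (p - 1) + 1) = u * (p * (p - 1)) + p := by ring
      rcases hτ with h5 | h5 <;> omega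
    exact lt_of_mul_lt_mul_left h2 hu0.le
  have hpW : p < W := by nlinarith
  have hWmod : p ∣ W + ε * τ := by
    have hεε : ε * ε = 1 := by rcases hε with h | h <;> rw [h] <;> norm_num
    have : W + ε * τ = ε * (W * (u + ε) - p * q * t) + W * (1 - ε * ε)
        - ε * (u * W - (p * q * t + τ)) := by ring
    rw [this, huW, hεε]
    simp only [sub_self, mul_zero, add_zero, sub_zero]
    exact (dvd_sub (hu.mul_left _) (by rw [mul_assoc]; exact dvd_mul_right _ _)).mul_left _
  refine ⟨hpW, ?_, ?_, ?_⟩
  · rcases hε with h | h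
    · subst h
      have h1 : p - 1 ≤ u := by
        have := Int.le_of_dvd (by omega) hu
        omega
      have h2 : (p - 1) * (p - 1) < q := by
        have : (p - 1) * (p - 1) ≤ u * (p - 1) := mul_le_mul_of_nonneg_right h1 (by omega)
        omega
      have h3 : p ∣ q - (p - 1) * (p - 1) := by
        have : q - (p - 1) * (p - 1) = (q - 1) - p * (p - 2) := by ring
        rw [this]; exact dvd_sub hqε (dvd_mul_right _ _)
      have h4 := Int.le_of_dvd (by omega) h3
      have h5 : p * (p - 1) = (p - 1) * (p - 1) + p - 1 := by ring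
      omega
    · subst h
      have h1 : p ≤ u - 1 := Int.le_of_dvd (by omega) (by
        have : u - 1 = u + -1 := by ring
        rw [this]; exact hu)
      have h2 : (p + 1) * (p - 1) ≤ u * (p - 1) := mul_le_mul_of_nonneg_right (by omega) (by omega)
      have h3 : (p + 1) * (p - 1) = p * (p - 1) + p - 1 := by ring
      omega
  · rcases hε with h | h <;> rcases hτ with h' | h' <;> subst h <;> subst h'
    · right; simpa [sub_eq_add_neg] using hWmod
    · left; simpa [sub_eq_add_neg] using hWmod
    · left; simpa [sub_eq_add_neg] using hWmod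
    · right; simpa [sub_eq_add_neg] using hWmod
  · intro hW1 hcon
    -- `q = W p s + ε`
    have hετ : -(ε * τ) = 1 := by
      have : p ∣ -(ε * τ) - 1 := by
        have e : -(ε * τ) - 1 = (W - 1) - (W + ε * τ) := by ring
        rw [e]; exact dvd_sub hW1 hWmod
      refine sign_eq hp ?_ (Or.inl rfl) this
      rcases hε with h | h <;> rcases hτ with h' | h' <;> subst h <;> subst h' <;> norm_num
    have hq' : W * p ∣ q - ε := by
      rcases hcon with h | h
      · have : p ∣ 1 - ε := by
          have e : 1 - ε = (q - ε) - (q - 1) := by ring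
          rw [e]; exact dvd_sub hqε ((dvd_mul_left p W).trans h)
        rw [← sign_eq hp (Or.inl rfl) hε this]; exact h
      · have : p ∣ -1 - ε := by
          have e : -1 - ε = (q - ε) - (q + 1) := by ring
          rw [e]; exact dvd_sub hqε ((dvd_mul_left p W).trans h)
        rw [← sign_eq hp (Or.inr rfl) hε this]
        simpa using h
    obtain ⟨s, hs⟩ := hq'
    have hτε : τ = -ε := by
      rcases hε with h | h <;> rcases hτ with h' | h' <;> subst h <;> subst h' <;>
        first | rfl | (exfalso; norm_num at hετ)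
    have hWpt : W ∣ p * t - 1 := by
      have h1 : W ∣ ε * (p * t - 1) := by
        have : ε * (p * t - 1) = W * (u - p * (p * s) * t) := by
          have e1 : q = W * p * s + ε := by linarith
          rw [hτε, e1] at huW
          linear_combination -huW
        rw [this]; exact dvd_mul_right _ _
      rcases hε with h | h
      · subst h; simpa using h1
      · subst h
        have : W ∣ -(p * t - 1) := by simpa using h1
        exact (dvd_neg).mp this
    have hpt : 0 < p * t - 1 := by nlinarith
    have hle := Int.le_of_dvd hpt hWpt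
    have huq : u ≤ q - 1 := by nlinarith
    have h1 : u * W ≤ u * (p * t - 1) := mul_le_mul_of_nonneg_left hle hu0.le
    have h2 : u * (p * t - 1) ≤ (q - 1) * (p * t - 1) := mul_le_mul_of_nonneg_right huq hpt.le
    have h3 : (q - 1) * (p * t - 1) = p * q * t - q - p * t + 1 := by ring
    rcases hτ with h5 | h5 <;> omega

/-- case (c) -/
theorem final_c {p q v W ε t τ : ℤ} (hp : 3 ≤ p) (hpq : p < q) (hε : ε = 1 ∨ ε = -1)
    (hqε : p ∣ q - ε) (hτ : τ = 1 ∨ τ = -1) (hv0 : 0 < v)
    (huW : (q + v) * W = p * q * t + τ)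
    (hW0 : 0 < W) (hWp : ¬ W ∣ p - 1)
    (hv : p ∣ v) (hvK : v * (p - 1) < q) : Concl p q W := by
  have hq0 : 0 < q := by omega
  have hp0 : 0 < p := by omega
  have hN : 0 < p * q := by positivity
  have hvp : p ≤ v := Int.le_of_dvd hv0 hv
  have hqp : p * (p - 1) < q := by
    have : p * (p - 1) ≤ v * (p - 1) := mul_le_mul_of_nonneg_right hvp (by omega)
    omega
  have ht : 1 ≤ t := by
    by_contra hcon
    have h1 : p * q * t ≤ p * q * 0 := mul_le_mul_of_nonneg_left (by omega) (by positivity)
    have h2 : q + v ≤ (q + v) * W := le_mul_of_one_le_right (by omega) hW0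
    rcases hτ with h5 | h5 <;> omega
  have hNt : p * q ≤ p * q * t := le_mul_of_one_le_right (by positivity) ht
  have hU : (q + v) * (p - 1) ≤ p * q - 1 := by
    have : (q + v) * (p - 1) = p * q - q + v * (p - 1) := by ring
    omega
  have hU0 : 0 < q + v := by omega
  have hεε : ε * ε = 1 := by rcases hε with h | h <;> rw [h] <;> norm_num
  have hWmod : p ∣ W - ε * τ := by
    have : W - ε * τ = -(ε * (W * (q - ε) + W * v - p * q * t)) + W * (1 - ε * ε)
        + ε * ((q + v) * W - (p * q * t + τ)) := by ring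
    rw [this, huW, hεε]
    simp only [sub_self, mul_zero, add_zero]
    refine (dvd_neg).mpr ?_
    exact (dvd_sub (dvd_add (hqε.mul_left _) (hv.mul_left _))
      (by rw [mul_assoc]; exact dvd_mul_right _ _)).mul_left _
  have hWpm : p ∣ W - 1 ∨ p ∣ W + 1 := by
    rcases hε with h | h <;> rcases hτ with h' | h' <;> subst h <;> subst h'
    · left; simpa using hWmod
    · right; simpa using hWmod
    · right; simpa using hWmod
    · left; simpa using hWmod
  have hWge : p - 1 ≤ W := by
    have h1 : (q + v) * (p - 1) ≤ (q + v) * W := by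
      rcases hτ with h5 | h5 <;> omega
    exact le_of_mul_le_mul_left h1 hU0
  have hpW : p < W := by
    have h1 : W ≠ p - 1 := by
      rintro rfl; exact hWp (dvd_refl _)
    have h2 : W ≠ p := by
      rintro rfl
      rcases hWpm with h | h
      · have h3 : W ∣ 1 := by
          have e : (1 : ℤ) = W - (W - 1) := by ring
          rw [e]; exact dvd_sub (dvd_refl _) h
        have := Int.le_of_dvd (by norm_num) h3
        omega
      · have h3 : W ∣ 1 := by
          have e : (1 : ℤ) = (W + 1) - W := by ring
          rw [e]; exact dvd_sub h (dvd_refl _)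
        have := Int.le_of_dvd (by norm_num) h3
        omega
    omega
  refine ⟨hpW, hqp, hWpm, ?_⟩
  intro hW1 hcon
  have hετ : ε * τ = 1 := by
    have : p ∣ ε * τ - 1 := by
      have e : ε * τ - 1 = (W - 1) - (W - ε * τ) := by ring
      rw [e]; exact dvd_sub hW1 hWmod
    refine sign_eq hp ?_ (Or.inl rfl) this
    rcases hε with h | h <;> rcases hτ with h' | h' <;> subst h <;> subst h' <;> norm_num
  have hq' : W * p ∣ q - ε := by
    rcases hcon with h | h
    · have : p ∣ 1 - ε := by
        have e : 1 - ε = (q - ε) - (q - 1) := by ring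
        rw [e]; exact dvd_sub hqε ((dvd_mul_left p W).trans h)
      rw [← sign_eq hp (Or.inl rfl) hε this]; exact h
    · have : p ∣ -1 - ε := by
        have e : -1 - ε = (q - ε) - (q + 1) := by ring
        rw [e]; exact dvd_sub hqε ((dvd_mul_left p W).trans h)
      rw [← sign_eq hp (Or.inr rfl) hε this]
      simpa using h
  obtain ⟨s, hs⟩ := hq'
  have hτε : τ = ε := by
    rcases hε with h | h <;> rcases hτ with h' | h' <;> subst h <;> subst h' <;>
      first | rfl | (exfalso; norm_num at hετ)
  have hWpt : W ∣ p * t + 1 := by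
    have h1 : W ∣ ε * (p * t + 1) := by
      have : ε * (p * t + 1) = W * ((q + v) - p * (p * s) * t) := by
        have e1 : q = W * p * s + ε := by linarith
        have e2 : (q + v) * W = p * (W * p * s + ε) * t + ε := by
          rw [huW, hτε]; linear_combination (p * t) * e1
        linear_combination -e2
      rw [this]; exact dvd_mul_right _ _
    rcases hε with h | h
    · subst h; simpa using h1
    · subst h
      have : W ∣ -(p * t + 1) := by simpa using h1
      exact (dvd_neg).mp this
  -- `W ≥ t (p-1)`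
  have hWt : t * (p - 1) ≤ W := by
    have h1 : W * ((q + v) * (p - 1)) ≤ W * (p * q - 1) := mul_le_mul_of_nonneg_left hU hW0.le
    have h2 : W * ((q + v) * (p - 1)) = (p * q * t + τ) * (p - 1) := by
      rw [← huW]; ring
    have h3 : t * (p * q - 1) ≤ p * q * t + τ := by
      have : t * (p * q - 1) = p * q * t - t := by ring
      rcases hτ with h5 | h5 <;> omega
    have h4 : (t * (p * q - 1)) * (p - 1) ≤ (p * q * t + τ) * (p - 1) :=
      mul_le_mul_of_nonneg_right h3 (by omega)
    have h5 : (p * q - 1) * (t * (p - 1)) ≤ (p * q - 1) * W := by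
      have e : (p * q - 1) * (t * (p - 1)) = (t * (p * q - 1)) * (p - 1) := by ring
      have e' : (p * q - 1) * W = W * (p * q - 1) := mul_comm _ _
      omega
    refine le_of_mul_le_mul_left h5 ?_
    nlinarith
  obtain ⟨m, hm⟩ := hWpt
  have hpt : 0 < p * t + 1 := by nlinarith
  have hm0 : 0 < m := by
    rw [hm] at hpt
    exact (pos_iff_pos_of_mul_pos hpt).mp hW0
  have hm1 : m = 1 := by
    by_contra hm1
    have h1 : W * 2 ≤ W * m := mul_le_mul_of_nonneg_left (by omega) hW0.le
    have h2 : t * (p - 1) = p * t - t := by ring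
    -- `p t + 1 ≥ 2 t (p - 1)`
    have h3 : t * (p - 2) ≤ 1 := by
      have : t * (p - 2) = p * t - 2 * t := by ring
      omega
    have h4 : t = 1 ∧ p = 3 := by
      have h5 : t * 1 ≤ t * (p - 2) := mul_le_mul_of_nonneg_left (by omega) (by omega)
      have h6 : t = 1 := by omega
      subst h6
      omega
    obtain ⟨h5, h6⟩ := h4
    subst h5 h6
    omega
  rw [hm1, mul_one] at hm
  have h1 : (q + v) * (p * t + 1) = p * q * t + (q + v * (p * t + 1)) := by ring
  have h2 : v ≤ v * (p * t + 1) := le_mul_of_one_le_right hv0.le (by omega)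
  rw [← hm, h1] at huW
  rcases hτ with h5 | h5 <;> omega

/-- The final arithmetic. -/
theorem final {p q u ν W ε t τ : ℤ} (hp : 3 ≤ p) (hpq : p < q) (hε : ε = 1 ∨ ε = -1)
    (hqε : p ∣ q - ε) (hνp : ν < p) (hτ : τ = 1 ∨ τ = -1) (hu0 : 0 < u) (huν : u < ν * q)
    (huνm : p ∣ u - ε * ν) (huW : u * W = p * q * t + τ)
    (hW0 : 0 < W) (hW2 : 2 * W ≤ p * q) (hWp : ¬ W ∣ p - 1)
    (hE : Exc p q ν u (q - ε)) : Concl p q W := by
  have hq0 : 0 < q := by omega
  have hp0 : 0 < p := by omega
  have hN : 6 ≤ p * q := by nlinarith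
  have hν0 : 0 < ν := by
    by_contra h
    have : ν * q ≤ 0 * q := mul_le_mul_of_nonneg_right (by omega) hq0.le
    omega
  obtain ⟨K, hK0, hKp, hK1, h⟩ := hE
  -- `K = p - 1` iff `ν = p - 1`
  have hKν : K = p - 1 → ν = p - 1 := by
    rintro rfl
    have : (ν * (p - 1)) % p = p - ν := emod_eq_of (c := ν - 1) (by ring) (by omega) (by omega)
    omega
  have hνK : ν = p - 1 → K = p - 1 := by
    rintro rfl
    have : ((p - 1) * K) % p = p - K := emod_eq_of (c := K - 1) (by ring) (by omega) (by omega)
    omega
  rcases h with ⟨h1, h | h⟩ | ⟨h1, h | ⟨j, hj0, hjK, hj, hjw⟩⟩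
  · have hν := hKν h
    rw [h] at h1
    refine final_a hp hpq hε hqε hτ hu0 huW hW0 hW2 hWp ?_ h1
    have e : u + ε = (u - ε * ν) + p * ε := by rw [hν]; ring
    rw [e]; exact dvd_add huνm (dvd_mul_right _ _)
  · -- `u K ≤ ε`
    exfalso
    have h2 : u * 1 ≤ u * K := mul_le_mul_of_nonneg_left (by omega) hu0.le
    have h3 : u = 1 := by
      rcases hε with h5 | h5 <;> omega
    subst h3
    exact u_ne_one (t := t) hN hτ (by linarith) hW0 hW2 hWp
  · have hK := hνK h
    rw [hK] at h1
    refine final_c (v := ν * q - u) (t := W - t) (τ := -τ) hp hpq hε hqε ?_ (by omega) ?_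
      hW0 hWp ?_ h1
    · rcases hτ with h | h <;> subst h <;> norm_num
    · have e : q + (ν * q - u) = p * q - u := by rw [h]; ring
      rw [e]; linear_combination -huW
    · have e : ν * q - u = ν * (q - ε) - (u - ε * ν) := by ring
      rw [e]; exact dvd_sub (hqε.mul_left _) huνm
  · exfalso
    have hv0 : 0 < ν * q - u := by omega
    have h2 : (ν * q - u) * j ≤ (ν * q - u) * K := mul_le_mul_of_nonneg_left hjK hv0.le
    have hε1 : ε = 1 := by
      rcases hε with h5 | h5 <;> omega
    subst hε1
    have h3 : (ν * q - u) * j = (ν * q - u) * K := by omega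
    have h4 : j = K := mul_left_cancel₀ hv0.ne' h3
    subst h4
    have h5 : j * (p - ν) = p - 1 := by
      have h6 : p ∣ j * (p - ν) + 1 := by
        have h7 := Int.mul_ediv_add_emod (ν * j) p
        rw [hK1] at h7
        have e : j * (p - ν) + 1 = p * (j - (ν * j) / p) := by linear_combination h7
        rw [e]; exact dvd_mul_right _ _
      have h8 : 0 < j * (p - ν) := mul_pos hj0 (by omega)
      have h9 := Int.le_of_dvd (by omega) h6
      omega
    have h6 : u * j = p * q * (j - 1) + 1 := by
      have h7 : (ν * q - u) * j = q - 1 := by omega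
      linear_combination -h7 - q * h5
    -- `W ≡ τ j mod p q`
    have h7 : ∃ c, W = τ * j + p * q * c := by
      refine ⟨t * j - W * (j - 1), ?_⟩
      linear_combination (-W) * h6 + j * huW
    obtain ⟨c, hc⟩ := h7
    have h8 : p * 4 ≤ p * q := mul_le_mul_of_nonneg_left (by omega) hp0.le
    have hc0 : c = 0 := by
      rcases lt_trichotomy c 0 with h | h | h
      · have : p * q * c ≤ p * q * (-1) := mul_le_mul_of_nonneg_left (by omega) (by omega)
        rcases hτ with h5 | h5 <;> subst h5 <;> omega
      · exact h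
      · have : p * q * 1 ≤ p * q * c := mul_le_mul_of_nonneg_left (by omega) (by omega)
        rcases hτ with h5 | h5 <;> subst h5 <;> omega
    subst hc0
    have hWj : W = j := by
      rcases hτ with h5 | h5 <;> subst h5 <;> omega
    apply hWp
    rw [hWj, ← h5]
    exact dvd_mul_right _ _

end Pool.Agent.H67.Flat
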