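import Mathlib
import Pool.Agent.H67.Flat.Final

set_option autoImplicit false

/-!
# Assembling the classification
-/

namespace Pool.Agent.H67.Flat

theorem coprime_of_lt {p : ℕ} (hp : p.Prime) {ν : ℤ} (h0 : 0 < ν) (h1 : ν < p) :
    IsCoprime ν (p : ℤ) := by
  rw [isCoprime_comm]
  refine (Prime.coprime_iff_not_dvd (Nat.prime_iff_prime_int.mp hp)).mpr ?_
  intro h
  have := Int.le_of_dvd h0 h
  omega

/-- `u W = p q t + τ` -/
theorem uW_of {N u r W : ℤ} (hur : N ∣ u * r - 1 ∨ N ∣ u * r + 1)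
    (hrW : N ∣ r - W ∨ N ∣ r + W) : ∃ t τ, (τ = 1 ∨ τ = -1) ∧ u * W = N * t + τ := by
  rcases hur with ⟨a, ha⟩ | ⟨a, ha⟩ <;> rcases hrW with ⟨b, hb⟩ | ⟨b, hb⟩
  · exact ⟨a - u * b, 1, Or.inl rfl, by linear_combination ha - u * hb⟩
  · exact ⟨-a + u * b, -1, Or.inr rfl, by linear_combination -ha + u * hb⟩
  · exact ⟨a - u * b, -1, Or.inr rfl, by linear_combination ha - u * hb⟩
  · exact ⟨-a + u * b, 1, Or.inl rfl, by linear_combination -ha + u * hb⟩

theorem coprime_of_ur {N u r : ℤ} (hur : N ∣ u * r - 1 ∨ N ∣ u * r + 1) : IsCoprime u N := by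
  rcases hur with ⟨a, ha⟩ | ⟨a, ha⟩
  · exact ⟨r, -a, by linear_combination ha⟩
  · exact ⟨-r, a, by linear_combination -ha⟩

theorem choose_u {p q r : ℕ} (hp : p.Prime) (hq : q.Prime) (hr : r.Prime)
    (hpq : p < q) (hqr : q < r) :
    ∃ u : ℤ, 0 < u ∧ u < p * q ∧ (p : ℤ) * q ∣ u * r - 1 := by
  have hcop : IsCoprime (r : ℤ) ((p : ℤ) * q) := by
    have h1 : Nat.Coprime r (p * q) := by
      refine Nat.Coprime.mul_right ?_ ?_
      · exact (Nat.coprime_primes hr hp).mpr (by omega)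
      · exact (Nat.coprime_primes hr hq).mpr (by omega)
    have := Nat.isCoprime_iff_coprime.mpr h1
    exact_mod_cast this
  obtain ⟨a, b, hab⟩ := hcop
  have hp2 := hp.two_le
  have hq2 := hq.two_le
  have hN : 4 ≤ (p : ℤ) * q := by
    have h1 : (2 : ℤ) ≤ p := by exact_mod_cast hp2
    have h2 : (2 : ℤ) ≤ q := by exact_mod_cast hq2
    nlinarith
  have h1 := Int.mul_ediv_add_emod a ((p : ℤ) * q)
  have h2 := Int.emod_nonneg a (by omega : (p : ℤ) * q ≠ 0)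
  have h3 := Int.emod_lt_of_pos a (by omega : 0 < (p : ℤ) * q)
  have hdvd : (p : ℤ) * q ∣ (a % ((p : ℤ) * q)) * r - 1 := by
    refine ⟨-b - (a / ((p : ℤ) * q)) * r, ?_⟩
    linear_combination (-1 : ℤ) * hab * (-1) + (r : ℤ) * h1
  refine ⟨a % ((p : ℤ) * q), ?_, h3, hdvd⟩
  rcases h2.lt_or_eq with h | h
  · exact h
  · exfalso
    rw [← h, zero_mul, zero_sub, Int.dvd_neg] at hdvd
    have := Int.le_of_dvd (by norm_num) hdvd
    omega

/-- the two candidates `(u, ν)` and `(p q - u, p - ν)` -/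
theorem choose_half {p q u ν : ℤ} (h : u ≠ ν * q) :
    u < ν * q ∨ p * q - u < (p - ν) * q := by
  rcases lt_or_gt_of_ne h with h1 | h1
  · exact Or.inl h1
  · right
    have : (p - ν) * q = p * q - ν * q := by ring
    omega

section

variable {p q r : ℕ} (hp : p.Prime) (hq : q.Prime) (hr : r.Prime) (hp3 : 3 ≤ p)
  (hpq : p < q) (hqr : q < r)
  (hflat : ∀ n : ℕ, |(Polynomial.cyclotomic (p * q * r) ℤ).coeff n| ≤ 1)

include hp hq hr hp3 hpq hqr hflat

theorem excE {ε u ν : ℤ} (hε : ε = 1 ∨ ε = -1) (hqε : (p : ℤ) ∣ q - ε)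
    (hur : (p : ℤ) * q ∣ u * r - 1 ∨ (p : ℤ) * q ∣ u * r + 1)
    (hν0 : 0 < ν) (hνp : ν < p) (hu0 : 0 < u) (huν : u < ν * q) (huνm : (p : ℤ) ∣ u - ε * ν) :
    Exc p q ν u (q - ε) := by
  have hcu := coprime_of_ur hur
  have hcuq : IsCoprime u (q : ℤ) := hcu.of_mul_right_right
  have hpq' : (p : ℤ) < q := by exact_mod_cast hpq
  rcases hε with h | h
  · subst h
    refine case1 hp3 hpq' hqε hν0 hνp (coprime_of_lt hp hν0 hνp) (by simpa using huνm) hu0 huν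
      hcuq ?_
    intro m T
    exact FF_bound hp hq hr hpq hqr (by simpa using hqε) hur hflat m T
  · subst h
    have hq1 : (p : ℤ) ∣ q + 1 := by simpa using hqε
    have := case2 (u := u) (ν := ν) hp3 hpq' hq1 hν0 hνp (coprime_of_lt hp hν0 hνp)
      (by simpa using huνm) hu0 huν hcuq (by
        intro m T
        refine FF_bound hp hq hr hpq hqr ?_ hur hflat m T
        have e : (-1 : ℤ) * q - 1 = -(q + 1) := by ring
        rw [e]; exact (dvd_neg).mpr hq1)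
    simpa using this

theorem concE {ε u W : ℤ} (hε : ε = 1 ∨ ε = -1) (hqε : (p : ℤ) ∣ q - ε)
    (hur : (p : ℤ) * q ∣ u * r - 1 ∨ (p : ℤ) * q ∣ u * r + 1)
    (hrW : (p : ℤ) * q ∣ r - W ∨ (p : ℤ) * q ∣ r + W)
    (hW0 : 0 < W) (hW2 : 2 * W ≤ p * q) (hWp : ¬ W ∣ (p : ℤ) - 1)
    (hu0 : 0 < u) (huN : u < p * q) : Concl p q W := by
  have hpq' : (p : ℤ) < q := by exact_mod_cast hpq
  have hp3' : (3 : ℤ) ≤ p := by exact_mod_cast hp3
  have hp0 : (0 : ℤ) < p := by omega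
  have hcu := coprime_of_ur hur
  have hcup : IsCoprime u (p : ℤ) := hcu.of_mul_right_left
  have hcuq : IsCoprime u (q : ℤ) := hcu.of_mul_right_right
  have hεε : ε * ε = 1 := by rcases hε with h | h <;> rw [h] <;> norm_num
  have h1 := Int.mul_ediv_add_emod (ε * u) (p : ℤ)
  have h2 := Int.emod_nonneg (ε * u) (by omega : (p : ℤ) ≠ 0)
  have h3 := Int.emod_lt_of_pos (ε * u) hp0
  set ν := (ε * u) % (p : ℤ) with hν
  have hum : (p : ℤ) ∣ u - ε * ν := by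
    refine ⟨ε * ((ε * u) / p), ?_⟩
    linear_combination (-u) * hεε - ε * h1
  have hν0 : 0 < ν := by
    rcases h2.lt_or_eq with h | h
    · exact h
    · exfalso
      rw [← h, mul_zero, sub_zero] at hum
      have h5 : IsUnit (p : ℤ) := hcup.symm.isUnit_of_dvd hum
      have := Int.isUnit_iff.mp h5
      omega
  have hne : u ≠ ν * q := by
    intro h
    have h5 : IsUnit (q : ℤ) := hcuq.symm.isUnit_of_dvd ⟨ν, by rw [h]; ring⟩
    have := Int.isUnit_iff.mp h5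
    omega
  rcases choose_half (p := (p : ℤ)) hne with h | h
  · obtain ⟨t, τ, hτ, huW⟩ := uW_of hur hrW
    exact final (t := t) hp3' hpq' hε hqε h3 hτ hu0 h hum huW hW0 hW2 hWp
      (excE hp hq hr hp3 hpq hqr hflat hε hqε hur hν0 h3 hu0 h hum)
  · have hur' : (p : ℤ) * q ∣ (p * q - u) * r - 1 ∨ (p : ℤ) * q ∣ (p * q - u) * r + 1 := by
      rcases hur with ⟨a, ha⟩ | ⟨a, ha⟩
      · right; exact ⟨r - a, by linear_combination -ha⟩
      · left; exact ⟨r - a, by linear_combination -ha⟩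
    have hum' : (p : ℤ) ∣ (p * q - u) - ε * (p - ν) := by
      have e : ((p : ℤ) * q - u) - ε * (p - ν) = p * (q - ε) - (u - ε * ν) := by ring
      rw [e]; exact dvd_sub (dvd_mul_right _ _) hum
    obtain ⟨t, τ, hτ, huW⟩ := uW_of hur' hrW
    exact final (t := t) hp3' hpq' hε hqε (by omega) hτ (by omega) h hum' huW hW0 hW2 hWp
      (excE hp hq hr hp3 hpq hqr hflat hε hqε hur' (by omega) (by omega) (by omega) h hum')

theorem falseU {υ u W lam ν : ℤ} (hυ : υ = 1 ∨ υ = -1) (huυ : (p : ℤ) ∣ u - υ)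
    (hlam : (p : ℤ) ∣ lam * q - 1) (hνl : (p : ℤ) ∣ ν - υ * lam) (hν2 : 2 ≤ ν)
    (hνp : ν ≤ p - 2)
    (hur : (p : ℤ) * q ∣ u * r - 1 ∨ (p : ℤ) * q ∣ u * r + 1)
    (hrW : (p : ℤ) * q ∣ r - W ∨ (p : ℤ) * q ∣ r + W)
    (hW0 : 0 < W) (hW2 : 2 * W ≤ p * q) (hWp : ¬ W ∣ (p : ℤ) - 1)
    (hu0 : 0 < u) (huν : u < ν * q) : False := by
  have hpq' : (p : ℤ) < q := by exact_mod_cast hpq
  have hp3' : (3 : ℤ) ≤ p := by exact_mod_cast hp3
  have hcu := coprime_of_ur hur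
  have hcup : IsCoprime u (p : ℤ) := hcu.of_mul_right_left
  have hcuq : IsCoprime u (q : ℤ) := hcu.of_mul_right_right
  have hcν := coprime_of_lt hp (by omega : 0 < ν) (by omega : ν < p)
  have hu1 : u ≠ 1 := by
    rintro rfl
    obtain ⟨t, τ, hτ, huW⟩ := uW_of hur hrW
    refine u_ne_one (t := t) (p := p) (q := q) (by nlinarith) hτ (by linarith) hW0 hW2 hWp
  rcases hυ with h | h
  · subst h
    have hνq : (p : ℤ) ∣ ν * q - 1 := by
      have e : ν * q - 1 = (ν - 1 * lam) * q + (lam * q - 1) := by ring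
      rw [e]; exact dvd_add (hνl.mul_right _) hlam
    exact case3 hp3 hpq' hν2 hνp hcν hνq huυ (by omega) huν hcuq hcup
      (fun m T => FF_bound hp hq hr hpq hqr hνq hur hflat m T)
  · subst h
    exact case4 (lam := lam) hp3 hpq' hν2 hνp hcν hlam (by simpa using hνl) (by simpa using huυ)
      hu0 huν hcuq hcup (fun m T => FF_bound hp hq hr hpq hqr hlam hur hflat m T)

theorem concU {u W υ : ℤ} (hq1 : ¬ (p : ℤ) ∣ q - 1) (hq2 : ¬ (p : ℤ) ∣ q + 1)
    (hυ : υ = 1 ∨ υ = -1) (huυ : (p : ℤ) ∣ u - υ)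
    (hur : (p : ℤ) * q ∣ u * r - 1 ∨ (p : ℤ) * q ∣ u * r + 1)
    (hrW : (p : ℤ) * q ∣ r - W ∨ (p : ℤ) * q ∣ r + W)
    (hW0 : 0 < W) (hW2 : 2 * W ≤ p * q) (hWp : ¬ W ∣ (p : ℤ) - 1)
    (hu0 : 0 < u) (huN : u < p * q) : False := by
  have hpq' : (p : ℤ) < q := by exact_mod_cast hpq
  have hp3' : (3 : ℤ) ≤ p := by exact_mod_cast hp3
  have hp0 : (0 : ℤ) < p := by omega
  have hcu := coprime_of_ur hur
  have hcuq : IsCoprime u (q : ℤ) := hcu.of_mul_right_right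
  have hυυ : υ * υ = 1 := by rcases hυ with h | h <;> rw [h] <;> norm_num
  -- the inverse of `q` mod `p`
  obtain ⟨lam, hlam⟩ : ∃ lam : ℤ, (p : ℤ) ∣ lam * q - 1 := by
    have h1 : Nat.Coprime q p := (Nat.coprime_primes hq hp).mpr (by omega)
    obtain ⟨a, b, hab⟩ := Nat.isCoprime_iff_coprime.mpr h1
    exact ⟨a, -b, by linear_combination hab⟩
  have h1 := Int.mul_ediv_add_emod (υ * lam) (p : ℤ)
  have h2 := Int.emod_nonneg (υ * lam) (by omega : (p : ℤ) ≠ 0)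
  have h3 := Int.emod_lt_of_pos (υ * lam) hp0
  set ν := (υ * lam) % (p : ℤ) with hν
  have hνl : (p : ℤ) ∣ ν - υ * lam := ⟨-((υ * lam) / p), by linear_combination h1⟩
  have hνq : (p : ℤ) ∣ ν * q - υ := by
    have e : ν * q - υ = (ν - υ * lam) * q + υ * (lam * q - 1) := by ring
    rw [e]; exact dvd_add (hνl.mul_right _) (hlam.mul_left _)
  -- `ν ≠ 0, 1, p - 1`
  have hν0 : ν ≠ 0 := by
    intro h
    rw [h, zero_mul, zero_sub] at hνq
    have h5 := (dvd_neg).mp hνq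
    rcases hυ with h | h
    · rw [h] at h5
      have := Int.le_of_dvd (by norm_num) h5
      omega
    · rw [h] at h5
      have := Int.le_of_dvd (by norm_num) ((dvd_neg).mp h5)
      omega
  have hν1 : ν ≠ 1 := by
    intro h
    rw [h, one_mul] at hνq
    rcases hυ with h | h
    · rw [h] at hνq; exact hq1 hνq
    · rw [h] at hνq; exact hq2 (by simpa using hνq)
  have hν2 : ν ≠ p - 1 := by
    intro h
    have h5 : (p : ℤ) ∣ q + υ := by
      have e : (q : ℤ) + υ = p * q - (ν * q - υ) := by rw [h]; ring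
      rw [e]; exact dvd_sub (dvd_mul_right _ _) hνq
    rcases hυ with h | h
    · rw [h] at h5; exact hq2 h5
    · rw [h] at h5; exact hq1 (by simpa [sub_eq_add_neg] using h5)
  have hne : u ≠ ν * q := by
    intro h
    have h5 : IsUnit (q : ℤ) := hcuq.symm.isUnit_of_dvd ⟨ν, by rw [h]; ring⟩
    have := Int.isUnit_iff.mp h5
    omega
  rcases choose_half (p := (p : ℤ)) hne with h | h
  · exact falseU hp hq hr hp3 hpq hqr hflat hυ huυ hlam hνl (by omega) (by omega) hur hrW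
      hW0 hW2 hWp hu0 h
  · have hur' : (p : ℤ) * q ∣ (p * q - u) * r - 1 ∨ (p : ℤ) * q ∣ (p * q - u) * r + 1 := by
      rcases hur with ⟨a, ha⟩ | ⟨a, ha⟩
      · right; exact ⟨r - a, by linear_combination -ha⟩
      · left; exact ⟨r - a, by linear_combination -ha⟩
    refine falseU (υ := -υ) (ν := p - ν) hp hq hr hp3 hpq hqr hflat ?_ ?_ hlam ?_ (by omega)
      (by omega) hur' hrW hW0 hW2 hWp (by omega) h
    · rcases hυ with h | h <;> rw [h] <;> norm_num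
    · have e : ((p : ℤ) * q - u) - -υ = p * q - (u - υ) := by ring
      rw [e]; exact dvd_sub (dvd_mul_right _ _) huυ
    · have e : (p : ℤ) - ν - -υ * lam = p - (ν - υ * lam) := by ring
      rw [e]; exact dvd_sub (dvd_refl _) hνl

theorem conc {W : ℤ} (hrW : (p : ℤ) * q ∣ r - W ∨ (p : ℤ) * q ∣ r + W)
    (hW0 : 0 < W) (hW2 : 2 * W ≤ p * q) (hWp : ¬ W ∣ (p : ℤ) - 1)
    (hmod : (p : ℤ) ∣ q - 1 ∨ (p : ℤ) ∣ q + 1 ∨ (p : ℤ) ∣ r - 1 ∨ (p : ℤ) ∣ r + 1) :
    (p : ℤ) < W ∧ (p : ℤ) * (p - 1) < q ∧ ((p : ℤ) ∣ q - 1 ∨ (p : ℤ) ∣ q + 1) ∧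
      ((p : ℤ) ∣ W - 1 ∨ (p : ℤ) ∣ W + 1) ∧
      ((p : ℤ) ∣ W - 1 → ¬ (W * p ∣ (q : ℤ) - 1 ∨ W * p ∣ (q : ℤ) + 1)) := by
  obtain ⟨u, hu0, huN, hur⟩ := choose_u hp hq hr hpq hqr
  have hp3' : (3 : ℤ) ≤ p := by exact_mod_cast hp3
  by_cases h1 : (p : ℤ) ∣ q - 1
  · obtain ⟨a, b, c, d⟩ := concE hp hq hr hp3 hpq hqr hflat (Or.inl rfl) h1 (Or.inl hur) hrW
      hW0 hW2 hWp hu0 huN
    exact ⟨a, b, Or.inl h1, c, d⟩
  · by_cases h2 : (p : ℤ) ∣ q + 1
    · obtain ⟨a, b, c, d⟩ := concE hp hq hr hp3 hpq hqr hflat (ε := -1) (Or.inr rfl)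
        (by simpa using h2) (Or.inl hur) hrW hW0 hW2 hWp hu0 huN
      exact ⟨a, b, Or.inr h2, c, d⟩
    · exfalso
      have hurp : (p : ℤ) ∣ u * r - 1 := (dvd_mul_right _ _).trans hur
      rcases hmod with h | h | h | h
      · exact h1 h
      · exact h2 h
      · refine concU hp hq hr hp3 hpq hqr hflat (υ := 1) h1 h2 (Or.inl rfl) ?_ (Or.inl hur) hrW
          hW0 hW2 hWp hu0 huN
        have e : u - 1 = (u * r - 1) - u * (r - 1) := by ring
        rw [e]; exact dvd_sub hurp (h.mul_left _)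
      · refine concU hp hq hr hp3 hpq hqr hflat (υ := -1) h1 h2 (Or.inr rfl) ?_ (Or.inl hur) hrW
          hW0 hW2 hWp hu0 huN
        have e : u - -1 = u * (r + 1) - (u * r - 1) := by ring
        rw [e]; exact dvd_sub (h.mul_left _) hurp

end

end Pool.Agent.H67.Flat
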