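import Pool.Agent.H67.Flat.CfgBridge3

/-!
# The rectangle configuration of a flat ternary cyclotomic polynomial
-/

namespace Pool.Agent.H67.Flat

open Finset
open Pool.Agent.H98.Flat

/-- the rectangles form an arithmetic progression with `p` terms -/
def AP (C : Cfg) : Prop := ∃ (a c δ κ : ℤ) (i : ℤ → ℤ),
  ¬ (C.p : ℤ) ∣ δ ∧ ¬ (C.q : ℤ) ∣ a ∧ (C.p : ℤ) ∣ a ∧
  (∀ k, 0 ≤ i k ∧ i k < C.p) ∧ (∀ k, (C.p : ℤ) ∣ k - (κ + δ * i k)) ∧
  (∀ k, C.U k = c + a * i k)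

/-- the progression, with the inverse `u` of `± r` -/
def APr (C : Cfg) (r : ℤ) : Prop := ∃ (a c δ κ u : ℤ) (i : ℤ → ℤ),
  ¬ (C.p : ℤ) ∣ δ ∧ ¬ (C.q : ℤ) ∣ a ∧ (C.p : ℤ) ∣ a ∧
  (∀ k, 0 ≤ i k ∧ i k < C.p) ∧ (∀ k, (C.p : ℤ) ∣ k - (κ + δ * i k)) ∧
  (∀ k, C.U k = c + a * i k) ∧
  ((C.p : ℤ) * C.q ∣ u * r - 1 ∨ (C.p : ℤ) * C.q ∣ u * r + 1) ∧
  (((C.p : ℤ) ∣ C.W - 1 ∧ C.N ∣ a - u * (C.W - 1) ∧ (C.p : ℤ) ∣ δ + C.w * u) ∨
    ((C.p : ℤ) ∣ C.W + 1 ∧ C.N ∣ a + u * (C.W + 1) ∧ (C.p : ℤ) ∣ δ - C.w * u))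

/-- abscissae of the walls -/
def PW (p q w : ℕ) (U : ℤ → ℤ) (x : ℤ) : Prop :=
  (∃ k, (p : ℤ) * q ∣ x - U k) ∨ ∃ k, (p : ℤ) * q ∣ x - (U k + q * w)

theorem PW_res {p q w : ℕ} {u t : ℤ} (hl : (p : ℤ) ∣ w * q - 1) (x : ℤ)
    (hx : PW p q w (Uc p q w u t) x) : (p : ℤ) ∣ x ∨ (p : ℤ) ∣ x - 1 := by
  obtain ⟨a7, ha7⟩ := hl
  rcases hx with ⟨k, c, hc⟩ | ⟨k, c, hc⟩
  · left
    unfold Uc at hc
    exact ⟨q * c + (t * k) % p * u * a7, by
      linear_combination hc + ((t * k) % p * u) * ha7⟩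
  · right
    unfold Uc at hc
    exact ⟨q * c + (t * k) % p * u * a7 + a7, by
      linear_combination hc + ((t * k) % p * u + 1) * ha7⟩

theorem PW_tie {p q w r : ℕ} {u t : ℤ} (hp : p.Prime) (hq : q.Prime)
    (hl : (p : ℤ) ∣ w * q - 1)
    (hur : (p : ℤ) * q ∣ u * r - 1 ∨ (p : ℤ) * q ∣ u * r + 1)
    (hnt : ∀ e : ℤ, |e| < p → ¬ (q : ℤ) ∣ r - e) (x : ℤ) (hx0 : (p : ℤ) ∣ x)
    (hx : PW p q w (Uc p q w u t) x) (hx1 : PW p q w (Uc p q w u t) (x + 1)) : False := by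
  have hp' : (0 : ℤ) < p := by exact_mod_cast hp.pos
  have hpp : Prime (p : ℤ) := Nat.prime_iff_prime_int.1 hp
  have h1 : ¬ (p : ℤ) ∣ 1 := fun h => hpp.not_isUnit (isUnit_of_dvd_one h)
  obtain ⟨a7, ha7⟩ := hl
  obtain ⟨b0, hb0⟩ := hx0
  -- left wall at x
  have hL : ∃ k, (p : ℤ) * q ∣ x - Uc p q w u t k := by
    rcases hx with h | ⟨k, c, hc⟩
    · exact h
    · exfalso
      unfold Uc at hc
      exact h1 ⟨b0 - q * c - (t * k) % p * u * a7 - a7, by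
        linear_combination hb0 - hc - ((t * k) % p * u + 1) * ha7⟩
  have hR : ∃ k, (p : ℤ) * q ∣ x + 1 - (Uc p q w u t k + q * w) := by
    rcases hx1 with ⟨k, c, hc⟩ | h
    · exfalso
      unfold Uc at hc
      exact h1 ⟨-b0 + q * c + (t * k) % p * u * a7, by
        linear_combination -hb0 + hc + ((t * k) % p * u) * ha7⟩
    · exact h
  obtain ⟨i, c, hc⟩ := hL
  obtain ⟨j, d, hd⟩ := hR
  unfold Uc at hc hd
  have i0 := Int.emod_nonneg (t * i) hp'.ne'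
  have i1 := Int.emod_lt_of_pos (t * i) hp'
  have j0 := Int.emod_nonneg (t * j) hp'.ne'
  have j1 := Int.emod_lt_of_pos (t * j) hp'
  set I := (t * i) % (p : ℤ)
  set J := (t * j) % (p : ℤ)
  -- q ∣ 1 + u (J - I)
  have h2 : (q : ℤ) ∣ 1 + u * (J - I) := by
    refine ⟨p * (d - c) + (J - I) * u * w + w, ?_⟩
    linear_combination hd - hc
  rcases hur with h3 | h3
  · have h4 : (q : ℤ) ∣ u * r - 1 := (dvd_mul_left _ _).trans h3
    refine hnt (I - J) (by rw [abs_lt]; constructor <;> omega) ?_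
    obtain ⟨c1, hc1⟩ := h2
    obtain ⟨c2, hc2⟩ := h4
    exact ⟨r * c1 - (J - I) * c2, by linear_combination r * hc1 - (J - I) * hc2⟩
  · have h4 : (q : ℤ) ∣ u * r + 1 := (dvd_mul_left _ _).trans h3
    refine hnt (J - I) (by rw [abs_lt]; constructor <;> omega) ?_
    obtain ⟨c1, hc1⟩ := h2
    obtain ⟨c2, hc2⟩ := h4
    exact ⟨r * c1 - (J - I) * c2, by linear_combination r * hc1 - (J - I) * hc2⟩

/-- **the bridge**: flatness of `Φ_{pqr}` gives a generic configuration of `w × h` rectangles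
with all heights at multiples of `p` bounded by one, and all heights if there is no tie -/
theorem exists_cfg_r {p q r w h : ℕ} (hp : p.Prime) (hq : q.Prime) (hr : r.Prime)
    (hpq : p < q) (hqr : q < r)
    (hflat : ∀ n : ℕ, |(Polynomial.cyclotomic (p * q * r) ℤ).coeff n| ≤ 1)
    (hw0 : 0 < w) (hh0 : 0 < h) (hwh : w + h ≤ p)
    (hw : (p : ℤ) ∣ w * q - 1 ∨ (p : ℤ) ∣ w * q + 1)
    (hh : (p : ℤ) ∣ h * r - 1 ∨ (p : ℤ) ∣ h * r + 1) :
    ∃ C : Cfg, C.p = p ∧ C.q = q ∧ C.w = w ∧ C.h = h ∧ C.Gen ∧ APr C r ∧ AP C ∧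
      (∀ x, Wall C x → (C.p : ℤ) ∣ x ∨ (C.p : ℤ) ∣ x - 1) ∧
      (∀ x, (C.p : ℤ) ∣ x → ∀ v Y, |C.Fint x v Y| ≤ 1) ∧
      ((∀ e : ℤ, |e| < p → ¬ (q : ℤ) ∣ r - e) → ∀ x v Y, |C.Fint x v Y| ≤ 1) := by
  have hp' : (0 : ℤ) < p := by exact_mod_cast hp.pos
  have hq' : (0 : ℤ) < q := by exact_mod_cast hq.pos
  have hpp : Prime (p : ℤ) := Nat.prime_iff_prime_int.1 hp
  have hqp : Prime (q : ℤ) := Nat.prime_iff_prime_int.1 hq
  have h1p : ¬ (p : ℤ) ∣ 1 := fun h => hpp.not_isUnit (isUnit_of_dvd_one h)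
  have h1q : ¬ (q : ℤ) ∣ 1 := fun h => hqp.not_isUnit (isUnit_of_dvd_one h)
  have hpr : ¬ (p : ℤ) ∣ r := by
    intro h1
    have := (Nat.prime_dvd_prime_iff_eq hp hr).1 (by exact_mod_cast h1)
    omega
  -- choose `u`
  have hu : ∃ u t : ℤ, ∃ ε : ℤ, (ε = 1 ∨ ε = -1) ∧ (p : ℤ) * q ∣ u * r - ε ∧ (p : ℤ) ∣ h - u := by
    have cop : IsCoprime (r : ℤ) ((p : ℤ) * q) := by
      rw [show (p : ℤ) * q = ((p * q : ℕ) : ℤ) by push_cast; ring]
      rw [Nat.isCoprime_iff_coprime]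
      exact Nat.Coprime.mul_right ((Nat.coprime_primes hr hp).2 (by omega))
        ((Nat.coprime_primes hr hq).2 (by omega))
    obtain ⟨x, y, hxy⟩ := cop
    rcases hh with h2 | h2
    · refine ⟨x, 0, 1, Or.inl rfl, ⟨-y, by linear_combination hxy⟩, ?_⟩
      have : (p : ℤ) ∣ (h - x) * r := by
        obtain ⟨c, hc⟩ := h2
        exact ⟨c + y * q, by linear_combination hc - hxy⟩
      exact (hpp.dvd_or_dvd this).resolve_right hpr
    · refine ⟨-x, 0, -1, Or.inr rfl, ⟨y, by linear_combination -hxy⟩, ?_⟩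
      have : (p : ℤ) ∣ (h - -x) * r := by
        obtain ⟨c, hc⟩ := h2
        exact ⟨c - y * q, by linear_combination hc + hxy⟩
      exact (hpp.dvd_or_dvd this).resolve_right hpr
  obtain ⟨u, -, ε, hε, hur, hhu⟩ := hu
  have hur' : (p : ℤ) * q ∣ u * r - 1 ∨ (p : ℤ) * q ∣ u * r + 1 := by
    rcases hε with rfl | rfl
    · left; exact hur
    · right; simpa using hur
  have hε2 : ε * ε = 1 := by rcases hε with rfl | rfl <;> norm_num
  have huq : ¬ (q : ℤ) ∣ u := by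
    intro h1
    apply h1q
    have h2 : (q : ℤ) ∣ u * r - ε := (dvd_mul_left _ _).trans hur
    have h3 := dvd_sub (h1.mul_right r) h2
    have h4 : (q : ℤ) ∣ ε * ε := by
      have := h3.mul_right ε
      rwa [show (u * r - (u * r - ε)) * ε = ε * ε by ring] at this
    rwa [hε2] at h4
  have hup : ¬ (p : ℤ) ∣ u := by
    intro h1
    apply h1p
    have h2 : (p : ℤ) ∣ u * r - ε := (dvd_mul_right _ _).trans hur
    have h3 := dvd_sub (h1.mul_right r) h2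
    have h4 : (p : ℤ) ∣ ε * ε := by
      have := h3.mul_right ε
      rwa [show (u * r - (u * r - ε)) * ε = ε * ε by ring] at this
    rwa [hε2] at h4
  -- choose `t`
  have ht : ∀ w0 : ℕ, (p : ℤ) ∣ w0 * q - 1 → (p : ℤ) ∣ w0 * u * (-(ε * q * r)) + 1 := by
    intro w0 hw0
    obtain ⟨c1, hc1⟩ := hw0
    obtain ⟨c2, hc2⟩ : (p : ℤ) ∣ u * r - ε := (dvd_mul_right _ _).trans hur
    exact ⟨-(ε * c2) * (w0 * q) - c1, by
      linear_combination -(ε * (w0 * q)) * hc2 - hc1 - (w0 * q) * hε2⟩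
  set t : ℤ := -(ε * q * r) with htdef
  have apx : ∀ w0 : ℕ, (p : ℤ) ∣ w0 * q - 1 → ∀ k : ℤ,
      (p : ℤ) ∣ k - -(w0 * u) * ((t * k) % p) := by
    intro w0 hw0 k
    obtain ⟨c, hc⟩ := ht w0 hw0
    have := Int.mul_ediv_add_emod (t * k) p
    refine ⟨c * k - w0 * u * ((t * k) / p), ?_⟩
    linear_combination (w0 * u) * this + k * hc
  have hw0p : ∀ w0 : ℕ, (p : ℤ) ∣ w0 * q - 1 → ¬ (p : ℤ) ∣ w0 := by
    intro w0 hw0 h1
    apply h1p
    have := dvd_sub (h1.mul_right q) hw0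
    simpa using this
  have hδ : ∀ w0 : ℕ, (p : ℤ) ∣ w0 * q - 1 → ¬ (p : ℤ) ∣ -(w0 * u) := by
    intro w0 hw0 h1
    rcases hpp.dvd_or_dvd ((dvd_neg).1 h1) with h2 | h2
    · exact hw0p w0 hw0 h2
    · exact hup h2
  have ha : ∀ w0 : ℕ, ¬ (q : ℤ) ∣ u * (q * w0 - 1) := by
    intro w0 h1
    rcases hqp.dvd_or_dvd h1 with h2 | h2
    · exact huq h2
    · apply h1q
      have := dvd_sub (dvd_mul_right (q : ℤ) w0) h2
      simpa using this
  have hap : ∀ w0 : ℕ, (p : ℤ) ∣ w0 * q - 1 → (p : ℤ) ∣ u * (q * w0 - 1) := by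
    intro w0 h1
    rw [mul_comm (q : ℤ)]
    exact h1.mul_left u
  rcases hw with hw | hw
  · -- kind zero
    have P := pre_Uc hp hq hpq hw0 (by omega : w < p) hh0 (by omega : h < p) hw (ht w hw) huq
    have Wi : ∀ x, Wall (P.cfg hwh) x → PW p q w (Uc p q w u t) x := fun x hx => hx
    refine ⟨P.cfg hwh, rfl, rfl, rfl, rfl, P.gen hwh, ?_, ?_, ?_, ?_, ?_⟩
    · refine ⟨u * (q * w - 1), 0, -(w * u), 0, u, fun k => (t * k) % p, hδ w hw, ha w, hap w hw,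
        fun k => ⟨Int.emod_nonneg _ hp'.ne', Int.emod_lt_of_pos _ hp'⟩, ?_, ?_, hur', Or.inl ⟨?_, ?_, ?_⟩⟩
      · intro k
        have := apx w hw k
        rw [zero_add]; exact this
      · intro k
        change Uc p q w u t k = _
        unfold Uc; ring
      · change (p : ℤ) ∣ q * w - 1
        rwa [mul_comm]
      · change (p : ℤ) * q ∣ u * (q * w - 1) - u * (q * w - 1)
        rw [sub_self]; exact dvd_zero _
      · change (p : ℤ) ∣ -(w * u) + w * u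
        rw [neg_add_cancel]; exact dvd_zero _
    · refine ⟨u * (q * w - 1), 0, -(w * u), 0, fun k => (t * k) % p, hδ w hw, ha w, hap w hw,
        fun k => ⟨Int.emod_nonneg _ hp'.ne', Int.emod_lt_of_pos _ hp'⟩, ?_, ?_⟩
      · intro k
        have := apx w hw k
        rw [zero_add]; exact this
      · intro k
        change Uc p q w u t k = _
        unfold Uc; ring
    · intro x hx
      exact PW_res hw x (Wi x hx)
    · intro x hx v Y
      rw [P.Fint_eq]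
      exact Fc_bound_zero hp hq hr hpq hqr hw0 (by omega) hw hhu (ht w hw) hur' hflat hx v Y
    · intro hnt
      refine Fint_all hp.two_le (fun x hx => PW_res hw x (Wi x hx)) ?_ ?_
      · intro x hx h1 h2
        exact PW_tie hp hq hw hur' hnt x hx (Wi _ h1) (Wi _ h2)
      · intro x hx v Y
        rw [P.Fint_eq]
        exact Fc_bound_zero hp hq hr hpq hqr hw0 (by omega) hw hhu (ht w hw) hur' hflat hx v Y
  · -- kind one
    obtain ⟨w0, rfl⟩ : ∃ w0, w = p - w0 := ⟨p - w, by omega⟩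
    have hw0' : w0 < p := by omega
    have hcw : ((p - w0 : ℕ) : ℤ) = p - w0 := Nat.cast_sub hw0'.le
    have hw1 : (p : ℤ) ∣ w0 * q - 1 := by
      rw [hcw] at hw
      obtain ⟨c, hc⟩ := hw
      exact ⟨q - c, by linear_combination -hc⟩
    have hw00 : 0 < w0 := by
      rcases Nat.eq_zero_or_pos w0 with h1 | h1
      · exact absurd (by rw [h1]; simp) (hw0p w0 hw1)
      · exact h1
    have P0 := pre_Uc hp hq hpq hw00 hw0' hh0 (by omega : h < p) hw1 (ht w0 hw1) huq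
    have P := P0.compl
    have Wi : ∀ x, Wall (P.cfg hwh) x → PW p q w0 (Uc p q w0 u t) x := by
      intro x hx
      rcases hx with ⟨k, hk⟩ | ⟨k, hk⟩
      · right
        exact ⟨k + w0, hk⟩
      · left
        refine ⟨k + w0, ?_⟩
        have hk' : (p : ℤ) * q ∣ x - (Uc p q w0 u t (k + w0) + q * w0 + q * ((p - w0 : ℕ) : ℤ)) := hk
        rw [hcw] at hk'
        obtain ⟨c, hc⟩ := hk'
        exact ⟨c + 1, by linear_combination hc⟩
    have bd : ∀ x, (p : ℤ) ∣ x → ∀ v Y, |(P.cfg hwh).Fint x v Y| ≤ 1 := by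
      intro x hx v Y
      rw [P.Fint_eq, Fc_compl P0, abs_neg]
      exact Fc_bound_zero hp hq hr hpq hqr hw00 hw0' hw1 hhu (ht w0 hw1) hur' hflat hx v Y
    refine ⟨P.cfg hwh, rfl, rfl, rfl, rfl, P.gen hwh, ?_, ?_, ?_, bd, ?_⟩
    · refine ⟨u * (q * w0 - 1), q * w0, -(w0 * u), -w0, u, fun k => (t * (k + w0)) % p,
        hδ w0 hw1, ha w0, hap w0 hw1,
        fun k => ⟨Int.emod_nonneg _ hp'.ne', Int.emod_lt_of_pos _ hp'⟩, ?_, ?_, hur',
        Or.inr ⟨?_, ?_, ?_⟩⟩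
      · intro k
        have := apx w0 hw1 (k + w0)
        rwa [show k - (-(w0 : ℤ) + -(w0 * u) * ((t * (k + w0)) % p))
          = k + w0 - -(w0 * u) * ((t * (k + w0)) % p) by ring]
      · intro k
        change cU q w0 (Uc p q w0 u t) k = _
        unfold cU Uc; ring
      · change (p : ℤ) ∣ q * ((p - w0 : ℕ) : ℤ) + 1
        rw [mul_comm]; exact hw
      · change (p : ℤ) * q ∣ u * (q * w0 - 1) + u * (q * ((p - w0 : ℕ) : ℤ) + 1)
        rw [hcw]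
        exact ⟨u, by ring⟩
      · change (p : ℤ) ∣ -(w0 * u) - ((p - w0 : ℕ) : ℤ) * u
        rw [hcw]
        exact ⟨-u, by ring⟩
    · refine ⟨u * (q * w0 - 1), q * w0, -(w0 * u), -w0, fun k => (t * (k + w0)) % p,
        hδ w0 hw1, ha w0, hap w0 hw1,
        fun k => ⟨Int.emod_nonneg _ hp'.ne', Int.emod_lt_of_pos _ hp'⟩, ?_, ?_⟩
      · intro k
        have := apx w0 hw1 (k + w0)
        rwa [show k - (-(w0 : ℤ) + -(w0 * u) * ((t * (k + w0)) % p))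
          = k + w0 - -(w0 * u) * ((t * (k + w0)) % p) by ring]
      · intro k
        change cU q w0 (Uc p q w0 u t) k = _
        unfold cU Uc; ring
    · intro x hx
      exact PW_res hw1 x (Wi x hx)
    · intro hnt
      refine Fint_all hp.two_le (fun x hx => PW_res hw1 x (Wi x hx)) ?_ bd
      intro x hx h1 h2
      exact PW_tie hp hq hw1 hur' hnt x hx (Wi _ h1) (Wi _ h2)

theorem exists_cfg {p q r w h : ℕ} (hp : p.Prime) (hq : q.Prime) (hr : r.Prime)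
    (hpq : p < q) (hqr : q < r)
    (hflat : ∀ n : ℕ, |(Polynomial.cyclotomic (p * q * r) ℤ).coeff n| ≤ 1)
    (hw0 : 0 < w) (hh0 : 0 < h) (hwh : w + h ≤ p)
    (hw : (p : ℤ) ∣ w * q - 1 ∨ (p : ℤ) ∣ w * q + 1)
    (hh : (p : ℤ) ∣ h * r - 1 ∨ (p : ℤ) ∣ h * r + 1) :
    ∃ C : Cfg, C.p = p ∧ C.q = q ∧ C.w = w ∧ C.h = h ∧ C.Gen ∧ AP C ∧
      (∀ x, Wall C x → (C.p : ℤ) ∣ x ∨ (C.p : ℤ) ∣ x - 1) ∧
      (∀ x, (C.p : ℤ) ∣ x → ∀ v Y, |C.Fint x v Y| ≤ 1) ∧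
      ((∀ e : ℤ, |e| < p → ¬ (q : ℤ) ∣ r - e) → ∀ x v Y, |C.Fint x v Y| ≤ 1) := by
  obtain ⟨C, a, b, c, d, e, -, f⟩ := exists_cfg_r hp hq hr hpq hqr hflat hw0 hh0 hwh hw hh
  exact ⟨C, a, b, c, d, e, f⟩

end Pool.Agent.H67.Flat
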