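import Pool.Agent.H98.Flat.Corner
import Pool.Agent.H67.Flat.Bound

/-!
# From the coefficient bound to the integer rectangle model
-/

namespace Pool.Agent.H67.Flat

open Finset
open Pool.Agent.H98.Flat (vis vis_congr emod_congr)

theorem tri_iff {N q p x T ρ : ℤ} (hq : 0 < q) (hpq : p * q = N) (hx0 : 0 ≤ x) (hxN : x < N)
    (hT0 : 0 ≤ T) (hTN : T < N) (hρ0 : 0 ≤ ρ) (hρp : ρ < p) :
    ((x - q * ρ) % N + q * ρ + (T - x) % N < N ↔ q * ρ ≤ x ∧ x ≤ T) := by
  have h1 : q * ρ ≤ N - q := by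
    have : q * ρ ≤ q * (p - 1) := mul_le_mul_of_nonneg_left (by omega) hq.le
    have h2 : q * (p - 1) = N - q := by rw [← hpq]; ring
    omega
  have h0 : 0 ≤ q * ρ := mul_nonneg hq.le hρ0
  set s := q * ρ
  have e1 : (x - s) % N = if s ≤ x then x - s else x - s + N := by
    split_ifs with c
    · exact Int.emod_eq_of_lt (by omega) (by omega)
    · rw [← Int.add_emod_right]
      exact Int.emod_eq_of_lt (by omega) (by omega)
  have e2 : (T - x) % N = if x ≤ T then T - x else T - x + N := by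
    split_ifs with c
    · exact Int.emod_eq_of_lt (by omega) (by omega)
    · rw [← Int.add_emod_right]
      exact Int.emod_eq_of_lt (by omega) (by omega)
  rw [e1, e2]
  split_ifs with a b b <;> omega

/-- a left corner of index `j` -/
theorem vis_left {p q lam u j m T u0 v0 Y Uc Vc row : ℤ} (hp : 0 < p) (hq : 0 < q)
    (hu0 : p * q ∣ u0 - m * (q * lam - 1)) (hY : p ∣ Y + lam * m) (hv0 : p * q ∣ v0 - (T - m))
    (hT0 : 0 ≤ T) (hTN : T < p * q)
    (hU : p * q ∣ Uc - j * u * (q * lam - 1)) (hV : p * q ∣ Vc + u * j)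
    (hrow : p ∣ row + lam * u * j) :
    vis (p * q) q p Uc Vc row u0 v0 Y =
      if q * ((lam * ((m - u * j) % (p * q))) % p) ≤ (m - u * j) % (p * q) ∧
        (m - u * j) % (p * q) ≤ T then 1 else 0 := by
  have hN : 0 < p * q := mul_pos hp hq
  set x := (m - u * j) % (p * q) with hx
  have hx0 : 0 ≤ x := Int.emod_nonneg _ hN.ne'
  have hxN : x < p * q := Int.emod_lt_of_pos _ hN
  have hxe := Int.mul_ediv_add_emod (m - u * j) (p * q)
  rw [← hx] at hxe
  set z := (m - u * j) / (p * q)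
  set ρ := (lam * x) % p with hρ
  have hρ0 : 0 ≤ ρ := Int.emod_nonneg _ hp.ne'
  have hρp : ρ < p := Int.emod_lt_of_pos _ hp
  have hρe := Int.mul_ediv_add_emod (lam * x) p
  rw [← hρ] at hρe
  set y := (lam * x) / p
  obtain ⟨a1, ha1⟩ := hu0
  obtain ⟨a2, ha2⟩ := hY
  obtain ⟨a3, ha3⟩ := hv0
  obtain ⟨a4, ha4⟩ := hU
  obtain ⟨a5, ha5⟩ := hV
  obtain ⟨a6, ha6⟩ := hrow
  have r1 : (row - Y) % p = ρ := by
    rw [hρ]
    refine emod_congr ⟨a6 - a2 + lam * z * q, ?_⟩
    linear_combination ha6 - ha2 - lam * hxe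
  have r2 : (v0 - Vc) % (p * q) = (T - x) % (p * q) := by
    refine emod_congr ⟨a3 - a5 - z, ?_⟩
    linear_combination ha3 - ha5 + hxe
  have r3 : (Uc - u0) % (p * q) = (x - q * ρ) % (p * q) := by
    refine emod_congr ⟨a4 - a1 - (q * lam - 1) * z - y, ?_⟩
    linear_combination ha4 - ha1 + (q * lam - 1) * hxe + q * hρe
  unfold vis
  rw [r1, r2, r3]
  have := tri_iff (N := p * q) hq rfl hx0 hxN hT0 hTN hρ0 hρp
  by_cases c : q * ρ ≤ x ∧ x ≤ T
  · rw [if_pos c, if_pos (this.2 c)]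
  · rw [if_neg c, if_neg (fun h => c (this.1 h))]

/-- a right corner of index `j` -/
theorem vis_right {p q lam u j m T u0 v0 Y Uc Vc row : ℤ} (hp : 0 < p) (hq : 0 < q)
    (hlp : ¬ p ∣ lam) (hl : p ∣ lam * q - 1)
    (hu0 : p * q ∣ u0 - m * (q * lam - 1)) (hY : p ∣ Y + lam * m) (hv0 : p * q ∣ v0 - (T - m))
    (hT0 : 0 ≤ T) (hTN : T < p * q)
    (hU : p * q ∣ Uc - (j * u * (q * lam - 1) + q * lam)) (hV : p * q ∣ Vc + u * j)
    (hrow : p ∣ row + lam * u * j + lam) :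
    vis (p * q) q p Uc Vc row u0 v0 Y =
      if q * ((lam * ((m - u * j) % (p * q) - 1)) % p) ≤ (m - u * j) % (p * q) - 1 ∧
        (m - u * j) % (p * q) ≤ T then 1 else 0 := by
  have hN : 0 < p * q := mul_pos hp hq
  set x := (m - u * j) % (p * q) with hx
  have hx0 : 0 ≤ x := Int.emod_nonneg _ hN.ne'
  have hxN : x < p * q := Int.emod_lt_of_pos _ hN
  have hxe := Int.mul_ediv_add_emod (m - u * j) (p * q)
  rw [← hx] at hxe
  set z := (m - u * j) / (p * q)
  set ρ := (lam * (x - 1)) % p with hρ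
  have hρ0 : 0 ≤ ρ := Int.emod_nonneg _ hp.ne'
  have hρp : ρ < p := Int.emod_lt_of_pos _ hp
  have hρe := Int.mul_ediv_add_emod (lam * (x - 1)) p
  rw [← hρ] at hρe
  set y := (lam * (x - 1)) / p
  obtain ⟨a1, ha1⟩ := hu0
  obtain ⟨a2, ha2⟩ := hY
  obtain ⟨a3, ha3⟩ := hv0
  obtain ⟨a4, ha4⟩ := hU
  obtain ⟨a5, ha5⟩ := hV
  obtain ⟨a6, ha6⟩ := hrow
  obtain ⟨a7, ha7⟩ := hl
  have r1 : (row - Y) % p = ρ := by
    rw [hρ]
    refine emod_congr ⟨a6 - a2 + lam * z * q, ?_⟩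
    linear_combination ha6 - ha2 - lam * hxe
  have r2 : (v0 - Vc) % (p * q) = (T - x) % (p * q) := by
    refine emod_congr ⟨a3 - a5 - z, ?_⟩
    linear_combination ha3 - ha5 + hxe
  have r3 : (Uc - u0) % (p * q) = (x - q * ρ) % (p * q) := by
    refine emod_congr ⟨a4 - a1 - (q * lam - 1) * z - y, ?_⟩
    linear_combination ha4 - ha1 + (q * lam - 1) * hxe + q * hρe
  have hne : x ≠ q * ρ := by
    intro e
    apply hlp
    refine ⟨a7 * ρ - y, ?_⟩
    have e2 : lam * x = lam * q * ρ := by rw [e]; ring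
    linear_combination hρe + e2 + ρ * ha7
  unfold vis
  rw [r1, r2, r3]
  have := tri_iff (N := p * q) hq rfl hx0 hxN hT0 hTN hρ0 hρp
  by_cases c : q * ρ ≤ x - 1 ∧ x ≤ T
  · rw [if_pos c, if_pos (this.2 ⟨by omega, c.2⟩)]
  · rw [if_neg c, if_neg (fun h => c ⟨by have := (this.1 h).1; omega, (this.1 h).2⟩)]

/-- the two upper corners of index `j` -/
theorem aT_eq_vis {p q lam u j m T u0 v0 Y Uc Uc' Vc row row' : ℤ} (hp : 0 < p) (hq : 0 < q)
    (hlp : ¬ p ∣ lam) (hl : p ∣ lam * q - 1)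
    (hu0 : p * q ∣ u0 - m * (q * lam - 1)) (hY : p ∣ Y + lam * m) (hv0 : p * q ∣ v0 - (T - m))
    (hT0 : 0 ≤ T) (hTN : T < p * q)
    (hU : p * q ∣ Uc - j * u * (q * lam - 1)) (hU' : Uc' = Uc + q * lam)
    (hV : p * q ∣ Vc + u * j)
    (hrow : p ∣ row + lam * u * j) (hrow' : row' = row - lam) :
    aT p q lam T (m - u * j) =
      vis (p * q) q p Uc Vc row u0 v0 Y - vis (p * q) q p Uc' Vc row' u0 v0 Y := by
  rw [vis_left hp hq hu0 hY hv0 hT0 hTN hU hV hrow,
    vis_right (Uc := Uc') (row := row') hp hq hlp hl hu0 hY hv0 hT0 hTN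
      (by rw [hU', show Uc + q * lam - (j * u * (q * lam - 1) + q * lam)
            = Uc - j * u * (q * lam - 1) by ring]; exact hU) hV
      (by rw [hrow', show row - lam + lam * u * j + lam = row + lam * u * j by ring]; exact hrow)]
  unfold aT aF sF
  split_ifs <;> first | rfl | omega

/-- the signed corner count, for arbitrary data -/
def Fc (p q w h : ℕ) (U : ℤ → ℤ) (u0 v0 Y : ℤ) : ℤ := ∑ k ∈ range p,
  (vis (p * q) q p (U k) (U k + q * k) k u0 v0 Y
    - vis (p * q) q p (U k + q * w) (U k + q * k) (k - w) u0 v0 Y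
    - vis (p * q) q p (U k) (U k + q * k - q * h) (k - h) u0 v0 Y
    + vis (p * q) q p (U k + q * w) (U k + q * k - q * h) (k - w - h) u0 v0 Y)

/-- the configuration attached to `q⁻¹ = w` and `u` -/
def Uc (p q w : ℕ) (u t : ℤ) (k : ℤ) : ℤ := ((t * k) % p) * u * (q * w - 1)

theorem sum_reindex {p : ℕ} (hp : 0 < p) {s t : ℤ} (hst : (p : ℤ) ∣ s * t + 1) (G : ℤ → ℤ → ℤ)
    (hG : ∀ i k k' : ℤ, (p : ℤ) ∣ k - k' → G i k = G i k') :
    ∑ i ∈ range p, G i (-s * i) = ∑ k ∈ range p, G ((t * k) % p) k := by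
  have hp' : (0 : ℤ) < p := by exact_mod_cast hp
  refine Finset.sum_nbij' (fun i => ((-s * i : ℤ) % p).toNat) (fun k => ((t * k : ℤ) % p).toNat)
    ?_ ?_ ?_ ?_ ?_
  · intro i _
    have h0 := Int.emod_nonneg (-s * i : ℤ) hp'.ne'
    have h1 := Int.emod_lt_of_pos (-s * i : ℤ) hp'
    simp only [Finset.mem_range]; omega
  · intro i _
    have h0 := Int.emod_nonneg (t * i : ℤ) hp'.ne'
    have h1 := Int.emod_lt_of_pos (t * i : ℤ) hp'
    simp only [Finset.mem_range]; omega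
  · intro i hi
    have hi := Finset.mem_range.1 hi
    have h0 := Int.emod_nonneg (-s * i : ℤ) hp'.ne'
    simp only [Int.toNat_of_nonneg h0]
    have : (t * ((-s * i : ℤ) % p)) % p = i := by
      rw [← Int.emod_eq_of_lt (a := (i : ℤ)) (b := p) (by omega) (by omega)]
      refine emod_congr ?_
      obtain ⟨c, hc⟩ := hst
      rw [Int.emod_eq_of_lt (a := (i : ℤ)) (b := p) (by omega) (by omega)]
      refine ⟨-c * i - t * ((-s * i : ℤ) / p), ?_⟩
      have := Int.mul_ediv_add_emod (-s * i) p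
      linear_combination t * this - i * hc
    rw [this]; simp
  · intro k hk
    have hk := Finset.mem_range.1 hk
    have h0 := Int.emod_nonneg (t * k : ℤ) hp'.ne'
    simp only [Int.toNat_of_nonneg h0]
    have : (-s * ((t * k : ℤ) % p)) % p = k := by
      rw [← Int.emod_eq_of_lt (a := (k : ℤ)) (b := p) (by omega) (by omega)]
      refine emod_congr ?_
      obtain ⟨c, hc⟩ := hst
      rw [Int.emod_eq_of_lt (a := (k : ℤ)) (b := p) (by omega) (by omega)]
      refine ⟨-c * k + s * ((t * k : ℤ) / p), ?_⟩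
      have := Int.mul_ediv_add_emod (t * k) p
      linear_combination -s * this - k * hc
    rw [this]; simp
  · intro i hi
    have hi := Finset.mem_range.1 hi
    have h0 := Int.emod_nonneg (-s * i : ℤ) hp'.ne'
    simp only [Int.toNat_of_nonneg h0]
    have : (t * ((-s * i : ℤ) % p)) % p = i := by
      rw [← Int.emod_eq_of_lt (a := (i : ℤ)) (b := p) (by omega) (by omega)]
      refine emod_congr ?_
      obtain ⟨c, hc⟩ := hst
      rw [Int.emod_eq_of_lt (a := (i : ℤ)) (b := p) (by omega) (by omega)]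
      refine ⟨-c * i - t * ((-s * i : ℤ) / p), ?_⟩
      have := Int.mul_ediv_add_emod (-s * i) p
      linear_combination t * this - i * hc
    rw [this]
    apply hG
    refine ⟨(-s * i : ℤ) / p, ?_⟩
    have := Int.mul_ediv_add_emod (-s * i) p
    linear_combination -this

theorem FF_eq_Fc {p q w h : ℕ} {u t m T u0 v0 Y : ℤ} (hp : 0 < p) (hq : 0 < q)
    (hwp : ¬ (p : ℤ) ∣ w) (hl : (p : ℤ) ∣ w * q - 1) (hh : (p : ℤ) ∣ h - u)
    (ht : (p : ℤ) ∣ w * u * t + 1)
    (hu0 : (p : ℤ) * q ∣ u0 - m * (q * w - 1)) (hY : (p : ℤ) ∣ Y + w * m)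
    (hv0 : (p : ℤ) * q ∣ v0 - (T - m))
    (hT0 : 0 ≤ T) (hTN : T < p * q) :
    FF p q w u m T = Fc p q w h (Uc p q w u t) u0 v0 Y := by
  have hp' : (0 : ℤ) < p := by exact_mod_cast hp
  have hq' : (0 : ℤ) < q := by exact_mod_cast hq
  obtain ⟨a7, ha7⟩ := hl
  obtain ⟨a8, ha8⟩ := hh
  have key := sum_reindex hp ht (fun i k =>
    (vis (p * q) q p (i * u * (q * w - 1)) (i * u * (q * w - 1) + q * k) k u0 v0 Y
    - vis (p * q) q p (i * u * (q * w - 1) + q * w) (i * u * (q * w - 1) + q * k) (k - w) u0 v0 Y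
    - vis (p * q) q p (i * u * (q * w - 1)) (i * u * (q * w - 1) + q * k - q * h) (k - h) u0 v0 Y
    + vis (p * q) q p (i * u * (q * w - 1) + q * w) (i * u * (q * w - 1) + q * k - q * h)
        (k - w - h) u0 v0 Y)) (by
    intro i k k' hk
    obtain ⟨c, hc⟩ := hk
    congr 1
    · congr 1
      · congr 1
        · exact vis_congr (by simp) ⟨c, by linear_combination (q : ℤ) * hc⟩ ⟨c, hc⟩
        · exact vis_congr (by simp) ⟨c, by linear_combination (q : ℤ) * hc⟩
            ⟨c, by linear_combination hc⟩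
      · exact vis_congr (by simp) ⟨c, by linear_combination (q : ℤ) * hc⟩
          ⟨c, by linear_combination hc⟩
    · exact vis_congr (by simp) ⟨c, by linear_combination (q : ℤ) * hc⟩
          ⟨c, by linear_combination hc⟩)
  unfold FF Fc Uc
  rw [← key]
  refine Finset.sum_congr rfl fun i _ => ?_
  have A := aT_eq_vis (p := p) (q := q) (lam := w) (u := u) (j := i) (m := m) (T := T) (u0 := u0)
    (v0 := v0) (Y := Y) (Uc := i * u * (q * w - 1)) (Uc' := i * u * (q * w - 1) + q * w)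
    (Vc := i * u * (q * w - 1) + q * (-(w * u) * i)) (row := -(w * u) * i)
    (row' := -(w * u) * i - w) hp' hq' hwp ⟨a7, ha7⟩ hu0 hY hv0 hT0 hTN
    (by simp) rfl ⟨0, by ring⟩ ⟨0, by ring⟩ rfl
  have B := aT_eq_vis (p := p) (q := q) (lam := w) (u := u) (j := q + i) (m := m) (T := T)
    (u0 := u0) (v0 := v0) (Y := Y) (Uc := i * u * (q * w - 1))
    (Uc' := i * u * (q * w - 1) + q * w)
    (Vc := i * u * (q * w - 1) + q * (-(w * u) * i) - q * h) (row := -(w * u) * i - h)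
    (row' := -(w * u) * i - w - h) hp' hq' hwp ⟨a7, ha7⟩ hu0 hY hv0 hT0 hTN
    ⟨-u * a7, by linear_combination -(q : ℤ) * u * ha7⟩ rfl
    ⟨-a8, by linear_combination -(q : ℤ) * ha8⟩
    ⟨u * a7 - a8, by linear_combination u * ha7 - ha8⟩ (by ring)
  rw [A, B]
  ring

end Pool.Agent.H67.Flat
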