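import Pool.Agent.H67.Flat.CfgBridge

/-!
# Abstract configurations: complement, and the passage to helper98's `Cfg`
-/

namespace Pool.Agent.H67.Flat

open Finset
open Pool.Agent.H98.Flat

/-- a generic family of rectangles (no condition on `w + h`) -/
structure Pre (p q w h : ℕ) (U : ℤ → ℤ) : Prop where
  hq : 0 < q
  hw : 0 < w
  hwp : w < p
  hh : 0 < h
  hhp : h < p
  per : ∀ k, ((p : ℤ) * q) ∣ U (k + p) - U k
  UU : ∀ i j, ((p : ℤ) * q) ∣ U i - U j → (p : ℤ) ∣ i - j
  UW : ∀ i j, ¬ ((p : ℤ) * q) ∣ U i - (U j + q * w)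
  VV : ∀ i j, ((p : ℤ) * q) ∣ (U i + q * i) - (U j + q * j) → (p : ℤ) ∣ i - j
  VH : ∀ i j, ¬ ((p : ℤ) * q) ∣ (U i + q * i) - (U j + q * j - q * h)

/-- the complementary configuration -/
def cU (q w : ℕ) (U : ℤ → ℤ) (k : ℤ) : ℤ := U (k + w) + q * w

theorem Pre.compl {p q w h : ℕ} {U : ℤ → ℤ} (P : Pre p q w h U) :
    Pre p q (p - w) h (cU q w U) where
  hq := P.hq
  hw := by have := P.hwp; omega
  hwp := by have := P.hw; have := P.hwp; omega
  hh := P.hh
  hhp := P.hhp
  per := by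
    intro k
    have := P.per (k + w)
    unfold cU
    rw [show U (k + p + w) + (q : ℤ) * w - (U (k + w) + q * w) = U (k + w + p) - U (k + w) by
      rw [show k + (p : ℤ) + w = k + w + p by ring]; ring]
    exact this
  UU := by
    intro i j h
    unfold cU at h
    rw [add_sub_add_right_eq_sub] at h
    have := P.UU _ _ h
    rwa [add_sub_add_right_eq_sub] at this
  UW := by
    intro i j h
    unfold cU at h
    have hc : ((p - w : ℕ) : ℤ) = p - w := Nat.cast_sub P.hwp.le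
    rw [hc] at h
    apply P.UW (j + w) (i + w)
    obtain ⟨c, hc⟩ := h
    exact ⟨-c - 1, by linear_combination -hc⟩
  VV := by
    intro i j h
    unfold cU at h
    have := P.VV (i + w) (j + w) (by
      rw [show U (i + w) + (q : ℤ) * (i + w) - (U (j + w) + q * (j + w))
        = U (i + w) + q * w + q * i - (U (j + w) + q * w + q * j) by ring]
      exact h)
    rwa [add_sub_add_right_eq_sub] at this
  VH := by
    intro i j hd
    unfold cU at hd
    apply P.VH (i + w) (j + w)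
    rwa [show U (i + w) + (q : ℤ) * (i + w) - (U (j + w) + q * (j + w) - q * h)
        = U (i + w) + q * w + q * i - (U (j + w) + q * w + q * j - q * h) by ring]

theorem Fc_compl {p q w h : ℕ} {U : ℤ → ℤ} (P : Pre p q w h U) (u0 v0 Y : ℤ) :
    Fc p q (p - w) h (cU q w U) u0 v0 Y = - Fc p q w h U u0 v0 Y := by
  have hc : ((p - w : ℕ) : ℤ) = p - w := Nat.cast_sub P.hwp.le
  set G : ℤ → ℤ := fun k =>
    -(vis (p * q) q p (U k) (U k + q * k) k u0 v0 Y
    - vis (p * q) q p (U k + q * w) (U k + q * k) (k - w) u0 v0 Y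
    - vis (p * q) q p (U k) (U k + q * k - q * h) (k - h) u0 v0 Y
    + vis (p * q) q p (U k + q * w) (U k + q * k - q * h) (k - w - h) u0 v0 Y) with hG
  have per : ∀ k, G (k + p) = G k := by
    intro k
    obtain ⟨c, hc⟩ := P.per k
    simp only [hG]
    congr 1
    have p1 : (p : ℤ) ∣ k + p - k := ⟨1, by ring⟩
    have p2 : (p : ℤ) ∣ k + p - w - (k - w) := ⟨1, by ring⟩
    have p3 : (p : ℤ) ∣ k + p - h - (k - h) := ⟨1, by ring⟩
    have p4 : (p : ℤ) ∣ k + p - w - h - (k - w - h) := ⟨1, by ring⟩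
    have u1 : ((p : ℤ) * q) ∣ U (k + p) - U k := ⟨c, hc⟩
    have u2 : ((p : ℤ) * q) ∣ U (k + p) + q * w - (U k + q * w) :=
      ⟨c, by linear_combination hc⟩
    have v1 : ((p : ℤ) * q) ∣ U (k + p) + q * (k + p) - (U k + q * k) :=
      ⟨c + 1, by linear_combination hc⟩
    have v2 : ((p : ℤ) * q) ∣ U (k + p) + q * (k + p) - q * h - (U k + q * k - q * h) :=
      ⟨c + 1, by linear_combination hc⟩
    rw [vis_congr u1 v1 p1, vis_congr u2 v1 p2, vis_congr u1 v2 p3, vis_congr u2 v2 p4]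
  have s := sum_period p G per w
  have : - Fc p q w h U u0 v0 Y = ∑ i ∈ range p, G i := by
    unfold Fc
    rw [← Finset.sum_neg_distrib]
  rw [this, ← s]
  unfold Fc cU
  refine Finset.sum_congr rfl fun i _ => ?_
  simp only [hG, hc]
  have e1 : (w : ℤ) + i = i + w := add_comm _ _
  rw [e1]
  have a1 : vis (p * q) q p (U (i + w) + q * w) (U (i + w) + q * w + q * i) i u0 v0 Y
      = vis (p * q) q p (U (i + w) + q * w) (U (i + w) + q * (i + w)) (i + w - w) u0 v0 Y :=
    vis_congr (by simp) ⟨0, by ring⟩ ⟨0, by ring⟩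
  have a2 : vis (p * q) q p (U (i + w) + q * w + q * (p - w)) (U (i + w) + q * w + q * i)
      (i - (p - w)) u0 v0 Y
      = vis (p * q) q p (U (i + w)) (U (i + w) + q * (i + w)) (i + w) u0 v0 Y :=
    vis_congr ⟨1, by ring⟩ ⟨0, by ring⟩ ⟨-1, by ring⟩
  have a3 : vis (p * q) q p (U (i + w) + q * w) (U (i + w) + q * w + q * i - q * h)
      (i - h) u0 v0 Y
      = vis (p * q) q p (U (i + w) + q * w) (U (i + w) + q * (i + w) - q * h)
        (i + w - w - h) u0 v0 Y :=
    vis_congr (by simp) ⟨0, by ring⟩ ⟨0, by ring⟩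
  have a4 : vis (p * q) q p (U (i + w) + q * w + q * (p - w)) (U (i + w) + q * w + q * i - q * h)
      (i - (p - w) - h) u0 v0 Y
      = vis (p * q) q p (U (i + w)) (U (i + w) + q * (i + w) - q * h) (i + w - h) u0 v0 Y :=
    vis_congr ⟨1, by ring⟩ ⟨0, by ring⟩ ⟨-1, by ring⟩
  rw [a1, a2, a3, a4]
  ring

/-- passage to helper98's structure -/
def Pre.cfg {p q w h : ℕ} {U : ℤ → ℤ} (P : Pre p q w h U) (hwh : w + h ≤ p) : Cfg where
  p := p
  q := q
  w := w
  h := h
  U := U
  hq := P.hq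
  hw := P.hw
  hh := P.hh
  hwh := hwh
  per := P.per

theorem Pre.gen {p q w h : ℕ} {U : ℤ → ℤ} (P : Pre p q w h U) (hwh : w + h ≤ p) :
    Cfg.Gen (P.cfg hwh) where
  UU := P.UU
  UW := P.UW
  VV := P.VV
  VH := P.VH

theorem Pre.Fint_eq {p q w h : ℕ} {U : ℤ → ℤ} (P : Pre p q w h U) (hwh : w + h ≤ p)
    (u0 v0 Y : ℤ) : (P.cfg hwh).Fint u0 v0 Y = Fc p q w h U u0 v0 Y := rfl

/-- the configuration of a ternary cyclotomic polynomial is generic -/
theorem pre_Uc {p q w h : ℕ} {u t : ℤ} (hp : p.Prime) (hq : q.Prime) (hpq : p < q)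
    (hw0 : 0 < w) (hwp : w < p) (hh0 : 0 < h) (hhp : h < p)
    (hl : (p : ℤ) ∣ w * q - 1) (ht : (p : ℤ) ∣ w * u * t + 1) (huq : ¬ (q : ℤ) ∣ u) :
    Pre p q w h (Uc p q w u t) := by
  have hp' : (0 : ℤ) < p := by exact_mod_cast hp.pos
  have hq' : (0 : ℤ) < q := by exact_mod_cast hq.pos
  have hqp : Prime (q : ℤ) := Nat.prime_iff_prime_int.1 hq
  have hpp : Prime (p : ℤ) := Nat.prime_iff_prime_int.1 hp
  obtain ⟨a7, ha7⟩ := hl
  -- the key step
  have idx : ∀ i j : ℤ, (q : ℤ) ∣ Uc p q w u t i - Uc p q w u t j → (p : ℤ) ∣ i - j := by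
    intro i j hd
    unfold Uc at hd
    have h1 : (q : ℤ) ∣ ((t * i) % p - (t * j) % p) * u := by
      obtain ⟨c, hc⟩ := hd
      exact ⟨((t * i) % p - (t * j) % p) * u * w - c, by linear_combination -hc⟩
    have i0 := Int.emod_nonneg (t * i) hp'.ne'
    have i1 := Int.emod_lt_of_pos (t * i) hp'
    have j0 := Int.emod_nonneg (t * j) hp'.ne'
    have j1 := Int.emod_lt_of_pos (t * j) hp'
    have h2 : (t * i) % p - (t * j) % p = 0 := by
      refine Int.eq_zero_of_abs_lt_dvd ((hqp.dvd_or_dvd h1).resolve_right huq) ?_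
      rw [abs_lt]; constructor <;> omega
    have h3 : (p : ℤ) ∣ t * i - t * j := Int.ModEq.dvd (by
        show (t * j) % p = (t * i) % p; omega)
    have h4 : (p : ℤ) ∣ t * (i - j) := by rwa [mul_sub]
    refine (hpp.dvd_or_dvd h4).resolve_left ?_
    intro h5
    have : (p : ℤ) ∣ 1 := by
      have := dvd_sub ht (h5.mul_left (w * u))
      simpa using this
    exact hpp.not_isUnit (isUnit_of_dvd_one this)
  have hUp : ∀ i, (p : ℤ) ∣ Uc p q w u t i := by
    intro i
    unfold Uc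
    exact ⟨(t * i) % p * u * a7, by linear_combination ((t * i) % p * u) * ha7⟩
  have qN : ∀ x : ℤ, (p : ℤ) * q ∣ x → (q : ℤ) ∣ x := fun x hx => (dvd_mul_left _ _).trans hx
  have pN : ∀ x : ℤ, (p : ℤ) * q ∣ x → (p : ℤ) ∣ x := fun x hx => (dvd_mul_right _ _).trans hx
  have hph : ¬ (p : ℤ) ∣ h := by
    intro h1
    have := Int.le_of_dvd (by exact_mod_cast hh0) h1
    omega
  refine ⟨hq.pos, hw0, hwp, hh0, hhp, ?_, ?_, ?_, ?_, ?_⟩
  · intro k
    unfold Uc
    have : (t * (k + p)) % (p : ℤ) = (t * k) % p := by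
      rw [mul_add, Int.add_mul_emod_self_right]
    rw [this]; simp
  · intro i j h1
    exact idx i j (qN _ h1)
  · intro i j h1
    have h2 := pN _ h1
    have h3 := dvd_sub (hUp i) (hUp j)
    have h4 := dvd_sub h3 h2
    have : (p : ℤ) ∣ 1 := by
      obtain ⟨c, hc⟩ := h4
      exact ⟨c - a7, by linear_combination hc - ha7⟩
    exact hpp.not_isUnit (isUnit_of_dvd_one this)
  · intro i j h1
    apply idx
    obtain ⟨c, hc⟩ := qN _ h1
    exact ⟨c - i + j, by linear_combination hc⟩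
  · intro i j h1
    have h2 : (p : ℤ) ∣ i - j := by
      apply idx
      obtain ⟨c, hc⟩ := qN _ h1
      exact ⟨c - i + j - h, by linear_combination hc⟩
    apply hph
    obtain ⟨d, hd⟩ := h2
    have h3 : Uc p q w u t i = Uc p q w u t j := by
      unfold Uc
      have : (t * i) % (p : ℤ) = (t * j) % p := emod_congr ⟨t * d, by linear_combination t * hd⟩
      rw [this]
    rw [h3] at h1
    obtain ⟨c, hc⟩ := h1
    have : (q : ℤ) * (p * (c - d) - h) = 0 := by linear_combination q * hd - hc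
    have h6 : (p : ℤ) * (c - d) - h = 0 := by
      rcases mul_eq_zero.1 this with h7 | h7
      · omega
      · exact h7
    exact ⟨c - d, by omega⟩

end Pool.Agent.H67.Flat
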