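import Pool.Agent.H67.Flat.CfgBridge2

/-!
# Flat ternary cyclotomic polynomials give flat rectangle configurations
-/

namespace Pool.Agent.H67.Flat

open Finset
open Pool.Agent.H98.Flat

theorem Fc_bound_zero {p q r w h : ℕ} {u t : ℤ} (hp : p.Prime) (hq : q.Prime) (hr : r.Prime)
    (hpq : p < q) (hqr : q < r) (hw0 : 0 < w) (hwp : w < p)
    (hl : (p : ℤ) ∣ w * q - 1) (hh : (p : ℤ) ∣ h - u) (ht : (p : ℤ) ∣ w * u * t + 1)
    (hur : (p : ℤ) * q ∣ u * r - 1 ∨ (p : ℤ) * q ∣ u * r + 1)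
    (hflat : ∀ n : ℕ, |(Polynomial.cyclotomic (p * q * r) ℤ).coeff n| ≤ 1)
    {u0 : ℤ} (hu0 : (p : ℤ) ∣ u0) (v0 Y : ℤ) :
    |Fc p q w h (Uc p q w u t) u0 v0 Y| ≤ 1 := by
  have hp' : (0 : ℤ) < p := by exact_mod_cast hp.pos
  have hq' : (0 : ℤ) < q := by exact_mod_cast hq.pos
  have hN : (0 : ℤ) < p * q := mul_pos hp' hq'
  obtain ⟨b, hb⟩ := hu0
  obtain ⟨a7, ha7⟩ := hl
  set m : ℤ := (q * w - 1) * u0 - q * w * q * Y with hm
  set T : ℤ := (v0 + m) % (p * q) with hT
  have hT0 := Int.emod_nonneg (v0 + m) hN.ne'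
  have hT1 := Int.emod_lt_of_pos (v0 + m) hN
  have hTe := Int.mul_ediv_add_emod (v0 + m) (p * q)
  rw [← hT] at hT0 hT1 hTe
  have hwp' : ¬ (p : ℤ) ∣ w := by
    intro h1
    have := Int.le_of_dvd (by exact_mod_cast hw0) h1
    omega
  rw [← FF_eq_Fc (m := m) (T := T) hp.pos hq.pos hwp' ⟨a7, ha7⟩ hh ht
    ⟨b * (2 - q * w) * w + a7 * w * q * Y, by
      rw [hm]; linear_combination (q * w * (2 - q * w) : ℤ) * hb + (w * q * q * Y : ℤ) * ha7⟩
    ⟨-Y * a7 * (1 + w * q) + w * a7 * u0, by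
      rw [hm]; linear_combination (-Y * (1 + w * q) + w * u0 : ℤ) * ha7⟩
    ⟨(v0 + m) / (p * q), by linear_combination -hTe⟩ hT0 hT1]
  exact FF_bound hp hq hr hpq hqr ⟨a7, ha7⟩ hur hflat m T

/-- some vertical wall is at abscissa `x` -/
def Wall (C : Cfg) (x : ℤ) : Prop := (∃ k, C.N ∣ x - C.U k) ∨ ∃ k, C.N ∣ x - (C.U k + C.W)

theorem Wall_congr {C : Cfg} {x y : ℤ} (h : C.N ∣ x - y) (hw : Wall C x) : Wall C y := by
  rcases hw with ⟨k, hk⟩ | ⟨k, hk⟩
  · left; exact ⟨k, by have := dvd_sub hk h; rwa [show x - C.U k - (x - y) = y - C.U k by ring] at this⟩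
  · right; exact ⟨k, by
      have := dvd_sub hk h
      rwa [show x - (C.U k + C.W) - (x - y) = y - (C.U k + C.W) by ring] at this⟩

theorem Fint_step {C : Cfg} {u : ℤ} (hw : ¬ Wall C u) (v Y : ℤ) :
    C.Fint (u + 1) v Y = C.Fint u v Y := by
  have e1 := C.Fint_eq u v Y
  have e2 := C.Fint_eq (u - 1) v Y
  rw [show u - 1 + 1 = u by ring] at e2
  have h1 : ∀ k, ¬ C.N ∣ u - C.U k := fun k h => hw (Or.inl ⟨k, h⟩)
  have h2 : ∀ k, ¬ C.N ∣ u - (C.U k + C.W) := fun k h => hw (Or.inr ⟨k, h⟩)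
  have hg := C.g_jump Y u
  have hg0 : C.g Y u - C.g Y (u - 1) = 0 := by
    rw [hg, Finset.sum_eq_zero (fun i _ => dv_not (h1 _)),
      Finset.sum_eq_zero (fun i _ => dv_not (h2 _))]
    rfl
  have hR : C.R u v = C.R (u - 1) v := by
    unfold Cfg.R
    refine Finset.sum_congr rfl fun k _ => ?_
    have : C.hor k u = C.hor k (u - 1) := by
      have := ph_jump C.N_pos (a := C.U k) C.W_pos.le C.W_lt.le u
      rw [dv_not (h1 _), dv_not (by rw [sub_sub]; exact h2 _)] at this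
      unfold Cfg.hor
      omega
    rw [this]
  rw [e1, e2, hR]
  omega

/-- the bound at all abscissae, from the bound at the multiples of `p` -/
theorem Fint_all {C : Cfg} (hp3 : 2 ≤ C.p)
    (res : ∀ x, Wall C x → (C.p : ℤ) ∣ x ∨ (C.p : ℤ) ∣ x - 1)
    (tie : ∀ x, (C.p : ℤ) ∣ x → Wall C x → ¬ Wall C (x + 1))
    (h0 : ∀ x, (C.p : ℤ) ∣ x → ∀ v Y, |C.Fint x v Y| ≤ 1) :
    ∀ x v Y, |C.Fint x v Y| ≤ 1 := by
  have hp' : (0 : ℤ) < C.p := by exact_mod_cast C.p_pos
  -- from `x` with residue `≥ 2` upwards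
  have up : ∀ (n : ℕ) (x : ℤ), (C.p : ℤ) ∣ x + n → (n : ℤ) + 2 ≤ C.p →
      ∀ v Y, |C.Fint x v Y| ≤ 1 := by
    intro n
    induction n with
    | zero => intro x hx _; exact h0 x (by simpa using hx)
    | succ n ih =>
      intro x hx hn v Y
      push_cast at hx hn
      have hnw : ¬ Wall C x := by
        intro hw
        rcases res x hw with h1 | h1
        · have := dvd_sub hx h1
          rw [show x + ((n : ℤ) + 1) - x = n + 1 by ring] at this
          have := Int.le_of_dvd (by omega) this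
          omega
        · have := dvd_sub hx h1
          rw [show x + ((n : ℤ) + 1) - (x - 1) = n + 2 by ring] at this
          have := Int.le_of_dvd (by omega) this
          omega
      rw [← Fint_step hnw v Y]
      exact ih (x + 1) (by rwa [show x + 1 + (n : ℤ) = x + (n + 1) by ring]) (by omega) v Y
  intro x v Y
  have r0 := Int.emod_nonneg x hp'.ne'
  have r1 := Int.emod_lt_of_pos x hp'
  have re := Int.mul_ediv_add_emod x C.p
  rcases lt_or_ge (x % (C.p : ℤ)) 1 with c | c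
  · exact h0 x ⟨x / C.p, by omega⟩ v Y
  rcases lt_or_ge (x % (C.p : ℤ)) 2 with c2 | c2
  · -- residue one
    have hx1 : (C.p : ℤ) ∣ x - 1 := ⟨x / C.p, by omega⟩
    by_cases hw : Wall C (x - 1)
    · have hw' : ¬ Wall C x := by
        have := tie (x - 1) hx1 hw
        rwa [sub_add_cancel] at this
      rw [← Fint_step hw' v Y]
      rcases Nat.lt_or_ge C.p 3 with hp2 | hp2
      · -- p = 2
        have : C.p = 2 := by omega
        refine h0 (x + 1) ?_ v Y
        have := dvd_add hx1 (dvd_refl (C.p : ℤ))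
        rw [show x - 1 + (C.p : ℤ) = x + 1 by omega] at this
        exact this
      · refine up (C.p - 2) (x + 1) ?_ ?_ v Y
        · rw [Nat.cast_sub (by omega)]
          have := dvd_add hx1 (dvd_refl (C.p : ℤ))
          rwa [show x - 1 + (C.p : ℤ) = x + 1 + (C.p - (2 : ℕ)) by push_cast; ring] at this
        · rw [Nat.cast_sub (by omega)]; push_cast; omega
    · have := Fint_step hw v Y
      rw [sub_add_cancel] at this
      rw [this]
      exact h0 (x - 1) hx1 v Y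
  · refine up (C.p - x % C.p).toNat x ?_ ?_ v Y
    · rw [Int.toNat_of_nonneg (by omega)]
      exact ⟨x / C.p + 1, by rw [mul_add]; omega⟩
    · rw [Int.toNat_of_nonneg (by omega)]; omega

end Pool.Agent.H67.Flat
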