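import Pool.Agent.H98.Flat.Corner

/-!
# The two window rule E0
-/

namespace Pool.Agent.H67.Flat

open Finset
open Pool.Agent.H98.Flat

/-- level `Y` belongs to the arc `(K-n, K]` modulo `p` -/
def lv (p K n Y : ℤ) : ℤ := if (K - Y) % p < n then 1 else 0

theorem lv01 (p K n Y : ℤ) : lv p K n Y = 0 ∨ lv p K n Y = 1 := by
  unfold lv; split_ifs <;> simp

theorem lv_congr {p K K' n Y Y' : ℤ} (h : p ∣ (K - Y) - (K' - Y')) : lv p K n Y = lv p K' n Y' := by
  unfold lv; rw [emod_congr h]

/-- the height -/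
def Fq (C : Cfg) (Y u v : ℤ) : ℤ := C.R u v - C.g Y u + C.f Y v

theorem sum_dv_window {N : ℤ} {p n : ℕ} (hp : 0 < p) (hn : n ≤ p) {f : ℤ → ℤ}
    (hf : ∀ i j, N ∣ f i - f j → (p : ℤ) ∣ i - j) (hf' : ∀ i j, (p : ℤ) ∣ i - j → N ∣ f i - f j)
    {c j : ℤ} (hc : N ∣ c - f j) (Y : ℤ) :
    ∑ i ∈ range n, dv N (c - f (Y + i)) = lv p j n Y := by
  have hp' : (0 : ℤ) < p := by exact_mod_cast hp
  have l0 := Int.emod_nonneg (j - Y) hp'.ne'
  have key : ∀ i : ℕ, i < n → (N ∣ c - f (Y + i) ↔ (j - Y) % (p : ℤ) = i) := by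
    intro i hi
    constructor
    · intro h
      have h1 := dvd_sub h hc
      rw [sub_sub_sub_cancel_left] at h1
      have h2 := hf _ _ h1
      rw [← Int.emod_eq_of_lt (a := (i : ℤ)) (b := p) (by omega) (by omega)]
      exact emod_congr (by rwa [show j - Y - (i : ℤ) = j - (Y + i) by ring])
    · intro h
      have h1 : (p : ℤ) ∣ j - (Y + i) := by
        have := Int.mul_ediv_add_emod (j - Y) p
        exact ⟨(j - Y) / p, by omega⟩
      have h2 := dvd_add hc (hf' _ _ h1)
      rwa [sub_add_sub_cancel] at h2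
  unfold lv
  by_cases h : (j - Y) % (p : ℤ) < n
  · rw [if_pos h]
    rw [Finset.sum_eq_single ((j - Y) % (p : ℤ)).toNat]
    · exact dv_of ((key _ (by omega)).2 (by omega))
    · intro i hi hne
      exact dv_not (fun h1 => hne (by have := (key i (Finset.mem_range.1 hi)).1 h1; omega))
    · intro h1
      exact absurd (Finset.mem_range.2 (by omega)) h1
  · rw [if_neg h]
    refine Finset.sum_eq_zero fun i hi => dv_not fun h1 => h ?_
    have := (key i (Finset.mem_range.1 hi)).1 h1
    have := Finset.mem_range.1 hi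
    omega

theorem sum_dv_mul {N : ℤ} {p : ℕ} (hp : 0 < p) {f X : ℤ → ℤ}
    (hf : ∀ i j, N ∣ f i - f j → (p : ℤ) ∣ i - j) (hf' : ∀ i j, (p : ℤ) ∣ i - j → N ∣ f i - f j)
    (hX : ∀ i j, (p : ℤ) ∣ i - j → X i = X j)
    {c j : ℤ} (hc : N ∣ c - f j) :
    ∑ k ∈ range p, dv N (c - f k) * X k = X j := by
  have hp' : (0 : ℤ) < p := by exact_mod_cast hp
  have l0 := Int.emod_nonneg j hp'.ne'
  have l1 := Int.emod_lt_of_pos j hp'
  have hm : (p : ℤ) ∣ j - ((j % p).toNat : ℤ) := by
    rw [Int.toNat_of_nonneg l0]; exact Int.dvd_self_sub_emod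
  rw [Finset.sum_eq_single (j % (p : ℤ)).toNat]
  · rw [hX _ _ hm, dv_of, one_mul]
    have := dvd_add hc (hf' _ _ hm)
    rwa [sub_add_sub_cancel] at this
  · intro k hk hne
    have hk := Finset.mem_range.1 hk
    rw [dv_not, zero_mul]
    intro h1
    have h2 := dvd_sub h1 hc
    rw [sub_sub_sub_cancel_left] at h2
    have h3 := hf _ _ h2
    apply hne
    have : j % (p : ℤ) = k := by
      rw [← Int.emod_eq_of_lt (a := (k : ℤ)) (b := p) (by omega) (by omega)]
      exact emod_congr h3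
    omega
  · intro h1
    exact absurd (Finset.mem_range.2 (by omega)) h1

/-- `c` is the left (`e = 1`) or right (`e = -1`) wall of row `j`, with level arc `(J-h, J]` -/
def VW (C : Cfg) (j c J e : ℤ) : Prop :=
  (e = 1 ∧ C.N ∣ c - C.U j ∧ J = j) ∨ (e = -1 ∧ C.N ∣ c - (C.U j + C.W) ∧ J = j - C.w)

/-- `b` is the top (`e = -1`) or bottom (`e = 1`) wall of row `i`, with level arc `(K-w, K]` -/
def HW (C : Cfg) (i b K e : ℤ) : Prop :=
  (e = -1 ∧ C.N ∣ b - C.V i ∧ K = i) ∨ (e = 1 ∧ C.N ∣ b - (C.V i - C.H) ∧ K = i - C.h)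

theorem R_jump_u (C : Cfg) (u v : ℤ) : C.R u v - C.R (u - 1) v =
    ∑ k ∈ range C.p, dv C.N (u - C.U k) * C.ver k v
      - ∑ k ∈ range C.p, dv C.N (u - (C.U k + C.W)) * C.ver k v := by
  unfold Cfg.R
  rw [← Finset.sum_sub_distrib, ← Finset.sum_sub_distrib]
  refine Finset.sum_congr rfl fun k _ => ?_
  have := ph_jump C.N_pos (a := C.U k) C.W_pos.le C.W_lt.le u
  rw [sub_sub] at this
  unfold Cfg.hor
  linear_combination (C.ver k v) * this

theorem R_jump_v (C : Cfg) (u v : ℤ) : C.R u v - C.R u (v - 1) =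
    ∑ k ∈ range C.p, dv C.N (v - (C.V k - C.H)) * C.hor k u
      - ∑ k ∈ range C.p, dv C.N (v - C.V k) * C.hor k u := by
  unfold Cfg.R
  rw [← Finset.sum_sub_distrib, ← Finset.sum_sub_distrib]
  refine Finset.sum_congr rfl fun k _ => ?_
  have := ph_jump C.N_pos (a := C.V k - C.H) C.H_pos.le C.H_lt.le v
  rw [show v - (C.V k - C.H) - C.H = v - C.V k by ring] at this
  unfold Cfg.ver
  linear_combination (C.hor k u) * this

theorem vjump {C : Cfg} (G : C.Gen) {j c J e : ℤ} (hV : VW C j c J e) (Y v : ℤ) :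
    Fq C Y c v - Fq C Y (c - 1) v = e * (C.ver j v - lv C.p J C.h Y) := by
  have hR := R_jump_u C c v
  have hg := C.g_jump Y c
  have hhp : C.h ≤ C.p := by have := C.hwh; omega
  have hX : ∀ i j, (C.p : ℤ) ∣ i - j → C.ver i v = C.ver j v := fun i j h =>
    C.ver_congr h (by simp)
  unfold Fq
  rcases hV with ⟨rfl, hc, hJ⟩ | ⟨rfl, hc, hJ⟩ <;> rw [hJ]
  · have a1 := sum_dv_mul C.p_pos G.UU (fun i j h => C.U_congr h) hX hc
    have a2 : ∑ k ∈ range C.p, dv C.N (c - (C.U k + C.W)) * C.ver k v = 0 := by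
      refine Finset.sum_eq_zero fun k _ => ?_
      rw [dv_not, zero_mul]
      intro h1
      apply G.UW j k
      have := dvd_sub h1 hc
      rwa [sub_sub_sub_cancel_left] at this
    have a3 := sum_dv_window C.p_pos hhp G.UU (fun i j h => C.U_congr h) hc Y
    have a4 : ∑ i ∈ range C.h, dv C.N (c - (C.U (Y + C.w + i) + C.W)) = 0 := by
      refine Finset.sum_eq_zero fun k _ => dv_not ?_
      intro h1
      apply G.UW j (Y + C.w + k)
      have := dvd_sub h1 hc
      rwa [sub_sub_sub_cancel_left] at this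
    omega
  · have a1 : ∑ k ∈ range C.p, dv C.N (c - C.U k) * C.ver k v = 0 := by
      refine Finset.sum_eq_zero fun k _ => ?_
      rw [dv_not, zero_mul]
      intro h1
      apply G.UW k j
      have := dvd_sub hc h1
      rwa [sub_sub_sub_cancel_left] at this
    have a2 := sum_dv_mul (f := fun k => C.U k + C.W) C.p_pos
      (fun i j h => G.UU i j (by simpa using h))
      (fun i j h => by have := C.U_congr h; simpa using this) hX hc
    have a3 : ∑ i ∈ range C.h, dv C.N (c - C.U (Y + i)) = 0 := by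
      refine Finset.sum_eq_zero fun k _ => dv_not ?_
      intro h1
      apply G.UW (Y + k) j
      have := dvd_sub hc h1
      rwa [sub_sub_sub_cancel_left] at this
    have a4 := sum_dv_window (f := fun k => C.U k + C.W) C.p_pos hhp
      (fun i j h => G.UU i j (by simpa using h))
      (fun i j h => by have := C.U_congr h; simpa using this) hc (Y + C.w)
    have a5 : lv C.p j C.h (Y + C.w) = lv C.p (j - C.w) C.h Y := lv_congr ⟨0, by ring⟩
    omega

theorem hjump {C : Cfg} (G : C.Gen) {i b K e : ℤ} (hH : HW C i b K e) (Y u : ℤ) :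
    Fq C Y u b - Fq C Y u (b - 1) = e * (C.hor i u - lv C.p K C.w Y) := by
  have hR := R_jump_v C u b
  have hf := C.f_jump Y b
  have hwp : C.w ≤ C.p := by have := C.hwh; omega
  have hX : ∀ i j, (C.p : ℤ) ∣ i - j → C.hor i u = C.hor j u := fun i j h =>
    C.hor_congr h (by simp)
  unfold Fq
  rcases hH with ⟨rfl, hc, hJ⟩ | ⟨rfl, hc, hJ⟩ <;> rw [hJ]
  · have a1 := sum_dv_mul C.p_pos G.VV (fun i j h => C.V_congr h) hX hc
    have a2 : ∑ k ∈ range C.p, dv C.N (b - (C.V k - C.H)) * C.hor k u = 0 := by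
      refine Finset.sum_eq_zero fun k _ => ?_
      rw [dv_not, zero_mul]
      intro h1
      apply G.VH i k
      have := dvd_sub h1 hc
      rwa [sub_sub_sub_cancel_left] at this
    have a3 := sum_dv_window C.p_pos hwp G.VV (fun i j h => C.V_congr h) hc Y
    have a4 : ∑ k ∈ range C.w, dv C.N (b - (C.V (Y + C.h + k) - C.H)) = 0 := by
      refine Finset.sum_eq_zero fun k _ => dv_not ?_
      intro h1
      apply G.VH i (Y + C.h + k)
      have := dvd_sub h1 hc
      rwa [sub_sub_sub_cancel_left] at this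
    omega
  · have a1 : ∑ k ∈ range C.p, dv C.N (b - C.V k) * C.hor k u = 0 := by
      refine Finset.sum_eq_zero fun k _ => ?_
      rw [dv_not, zero_mul]
      intro h1
      apply G.VH k i
      have := dvd_sub hc h1
      rwa [sub_sub_sub_cancel_left] at this
    have a2 := sum_dv_mul (f := fun k => C.V k - C.H) C.p_pos
      (fun i j h => G.VV i j (by simpa using h))
      (fun i j h => by have := C.V_congr h; simpa using this) hX hc
    have a3 : ∑ k ∈ range C.w, dv C.N (b - C.V (Y + k)) = 0 := by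
      refine Finset.sum_eq_zero fun k _ => dv_not ?_
      intro h1
      apply G.VH (Y + k) i
      have := dvd_sub hc h1
      rwa [sub_sub_sub_cancel_left] at this
    have a4 := sum_dv_window (f := fun k => C.V k - C.H) C.p_pos hwp
      (fun i j h => G.VV i j (by simpa using h))
      (fun i j h => by have := C.V_congr h; simpa using this) hc (Y + C.h)
    have a5 : lv C.p i C.w (Y + C.h) = lv C.p (i - C.h) C.w Y := lv_congr ⟨0, by ring⟩
    omega

/-- the crossing lemma: at an active level the value is determined by the signs -/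
theorem cross {C : Cfg} (G : C.Gen) (hfl : C.IsFlat) {j c J e i b K e' : ℤ}
    (hij : ¬ (C.p : ℤ) ∣ j - i)
    (hV : VW C j c J e) (hH : HW C i b K e') {Y : ℤ}
    (h1 : C.ver j b ≠ lv C.p J C.h Y) (h2 : C.hor i c ≠ lv C.p K C.w Y) :
    2 * Fq C Y c b = e * (C.ver j b - lv C.p J C.h Y) + e' * (C.hor i c - lv C.p K C.w Y) := by
  have v1 : C.ver j (b - 1) = C.ver j b := by
    have := ph_jump C.N_pos (a := C.V j - C.H) C.H_pos.le C.H_lt.le b
    unfold Cfg.ver
    have n1 : ¬ C.N ∣ b - (C.V j - C.H) := by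
      intro h
      rcases hH with ⟨_, hb, _⟩ | ⟨_, hb, _⟩
      · apply G.VH i j
        have := dvd_sub h hb
        rwa [sub_sub_sub_cancel_left] at this
      · apply hij
        apply G.VV
        have := dvd_sub hb h
        rwa [show b - (C.V i - C.H) - (b - (C.V j - C.H)) = C.V j - C.V i by ring] at this
    have n2 : ¬ C.N ∣ b - (C.V j - C.H) - C.H := by
      rw [show b - (C.V j - C.H) - C.H = b - C.V j by ring]
      intro h
      rcases hH with ⟨_, hb, _⟩ | ⟨_, hb, _⟩
      · apply hij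
        apply G.VV
        have := dvd_sub hb h
        rwa [sub_sub_sub_cancel_left] at this
      · apply G.VH j i
        have := dvd_sub hb h
        rwa [sub_sub_sub_cancel_left] at this
    rw [dv_not n1, dv_not n2] at this
    omega
  have v2 : C.hor i (c - 1) = C.hor i c := by
    have := ph_jump C.N_pos (a := C.U i) C.W_pos.le C.W_lt.le c
    unfold Cfg.hor
    have n1 : ¬ C.N ∣ c - C.U i := by
      intro h
      rcases hV with ⟨_, hb, _⟩ | ⟨_, hb, _⟩
      · apply hij
        apply G.UU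
        have := dvd_sub h hb
        rwa [sub_sub_sub_cancel_left] at this
      · apply G.UW i j
        have := dvd_sub hb h
        rwa [sub_sub_sub_cancel_left] at this
    have n2 : ¬ C.N ∣ c - C.U i - C.W := by
      rw [sub_sub]
      intro h
      rcases hV with ⟨_, hb, _⟩ | ⟨_, hb, _⟩
      · apply G.UW j i
        have := dvd_sub h hb
        rwa [sub_sub_sub_cancel_left] at this
      · apply hij
        apply G.UU
        have := dvd_sub h hb
        rwa [show c - (C.U i + C.W) - (c - (C.U j + C.W)) = C.U j - C.U i by ring] at this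
    rw [dv_not n1, dv_not n2] at this
    omega
  have j1 := vjump G hV Y b
  have j2 := vjump G hV Y (b - 1)
  have j3 := hjump G hH Y c
  rw [v1] at j2
  have f1 := abs_le.1 (hfl c b Y)
  have f2 := abs_le.1 (hfl (c - 1) b Y)
  have f3 := abs_le.1 (hfl c (b - 1) Y)
  have f4 := abs_le.1 (hfl (c - 1) (b - 1) Y)
  change _ ≤ Fq C Y _ _ ∧ Fq C Y _ _ ≤ _ at f1 f2 f3 f4
  have e1 : e = 1 ∨ e = -1 := by rcases hV with ⟨h, _⟩ | ⟨h, _⟩ <;> simp [h]
  have e2 : e' = 1 ∨ e' = -1 := by rcases hH with ⟨h, _⟩ | ⟨h, _⟩ <;> simp [h]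
  rcases C.ver01 j b with a1 | a1 <;> rcases lv01 C.p J C.h Y with a2 | a2 <;>
    rcases C.hor01 i c with a3 | a3 <;> rcases lv01 C.p K C.w Y with a4 | a4 <;>
    rw [a1, a2] at h1 j1 j2 <;> rw [a3, a4] at h2 j3 <;> rw [a1, a2, a3, a4] <;>
    first
    | exact absurd rfl h1
    | exact absurd rfl h2
    | (rcases e1 with rfl | rfl <;> rcases e2 with rfl | rfl <;> omega)

end Pool.Agent.H67.Flat
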