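import Pool.Agent.H67.Flat.E0

/-!
# The two window rule E0, second part
-/

namespace Pool.Agent.H67.Flat

open Finset
open Pool.Agent.H98.Flat

/-- the configuration with the rectangle of row `0` moved by `(d, d)` -/
def mv (C : Cfg) (d : ℤ) : Cfg where
  p := C.p
  q := C.q
  w := C.w
  h := C.h
  U := fun k => C.U k + if (C.p : ℤ) ∣ k then d else 0
  hq := C.hq
  hw := C.hw
  hh := C.hh
  hwh := C.hwh
  per := by
    intro k
    have h := C.per k
    have : (C.p : ℤ) ∣ k + C.p ↔ (C.p : ℤ) ∣ k := by simp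
    simp only [this]
    rwa [add_sub_add_right_eq_sub]

theorem mv_U (C : Cfg) (d k : ℤ) (h : ¬ (C.p : ℤ) ∣ k) : (mv C d).U k = C.U k := by
  change C.U k + (if (C.p : ℤ) ∣ k then d else 0) = _
  rw [if_neg h, add_zero]
theorem mv_U0 (C : Cfg) (d k : ℤ) (h : (C.p : ℤ) ∣ k) : (mv C d).U k = C.U k + d := by
  change C.U k + (if (C.p : ℤ) ∣ k then d else 0) = _
  rw [if_pos h]
theorem mv_V (C : Cfg) (d k : ℤ) (h : ¬ (C.p : ℤ) ∣ k) : (mv C d).V k = C.V k := by
  unfold Cfg.V; rw [mv_U C d k h]; rfl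
theorem mv_V0 (C : Cfg) (d k : ℤ) (h : (C.p : ℤ) ∣ k) : (mv C d).V k = C.V k + d := by
  unfold Cfg.V; rw [mv_U0 C d k h]
  change C.U k + d + (C.q : ℤ) * k = _
  ring

/-- sums of residue indicators for two functions which differ only at the multiples of `p` -/
theorem sum_window_diff {N : ℤ} {p n : ℕ} (hp : 0 < p) (hn : n ≤ p) {f f' : ℤ → ℤ} {d : ℤ}
    (h1 : ∀ k, ¬ (p : ℤ) ∣ k → f' k = f k) (h2 : ∀ k, (p : ℤ) ∣ k → f' k = f k + d)
    (h3 : ∀ k, (p : ℤ) ∣ k → N ∣ f k - f 0) (u Y : ℤ) :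
    ∑ i ∈ range n, dv N (u - f (Y + i)) - ∑ i ∈ range n, dv N (u - f' (Y + i))
      = lv p 0 n Y * (dv N (u - f 0) - dv N (u - f 0 - d)) := by
  have hp' : (0 : ℤ) < p := by exact_mod_cast hp
  have l0 := Int.emod_nonneg (0 - Y) hp'.ne'
  have l1 := Int.emod_lt_of_pos (0 - Y) hp'
  rw [← Finset.sum_sub_distrib]
  have key : ∀ i : ℕ, i < n → ((p : ℤ) ∣ Y + i ↔ (0 - Y) % (p : ℤ) = i) := by
    intro i hi
    constructor
    · intro h
      rw [← Int.emod_eq_of_lt (a := (i : ℤ)) (b := p) (by omega) (by omega)]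
      exact emod_congr (by
        rw [show 0 - Y - (i : ℤ) = -(Y + i) by ring]; exact (dvd_neg).2 h)
    · intro h
      have := Int.mul_ediv_add_emod (0 - Y) p
      exact ⟨-((0 - Y) / p), by rw [mul_neg]; omega⟩
  unfold lv
  by_cases h : (0 - Y) % (p : ℤ) < n
  · rw [if_pos h, one_mul]
    rw [Finset.sum_eq_single ((0 - Y) % (p : ℤ)).toNat]
    · have h4 := (key ((0 - Y) % (p : ℤ)).toNat (by omega)).2 (by omega)
      rw [h2 _ h4]
      have h5 := h3 _ h4
      rw [dv_congr (x' := u - f 0), dv_congr (x := u - (f _ + d)) (x' := u - f 0 - d)]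
      · rw [show u - (f (Y + (((0 - Y) % (p : ℤ)).toNat : ℤ)) + d) - (u - f 0 - d)
          = -(f (Y + (((0 - Y) % (p : ℤ)).toNat : ℤ)) - f 0) by ring]
        exact (dvd_neg).2 h5
      · rw [sub_sub_sub_cancel_left, ← dvd_neg, neg_sub]; exact h5
    · intro i hi hne
      rw [h1 _ (fun h6 => hne (by have := (key i (Finset.mem_range.1 hi)).1 h6; omega)), sub_self]
    · intro h7
      exact absurd (Finset.mem_range.2 (by omega)) h7
  · rw [if_neg h, zero_mul]
    refine Finset.sum_eq_zero fun i hi => ?_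
    rw [h1, sub_self]
    intro h6
    apply h
    have := (key i (Finset.mem_range.1 hi)).1 h6
    have := Finset.mem_range.1 hi
    omega

/-- difference of `g` -/
theorem dg_form (C : Cfg) {d : ℤ} (h0 : C.U 0 = 0) (hd : 0 ≤ d) (hW : d + C.W < C.N) (Y u : ℤ) :
    C.g Y u - (mv C d).g Y u = (C.g Y (-1) - (mv C d).g Y (-1))
      + lv C.p 0 C.h Y * ph C.N 0 d u - lv C.p (-C.w) C.h Y * ph C.N C.W d u := by
  have hW0 := C.W_pos
  have hN := C.N_pos
  have hhp : C.h ≤ C.p := by have := C.hwh; omega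
  have jump : ∀ x, C.g Y x - (mv C d).g Y x
      - lv C.p 0 C.h Y * ph C.N 0 d x + lv C.p (-C.w) C.h Y * ph C.N C.W d x
      = C.g Y (x - 1) - (mv C d).g Y (x - 1)
      - lv C.p 0 C.h Y * ph C.N 0 d (x - 1) + lv C.p (-C.w) C.h Y * ph C.N C.W d (x - 1) := by
    intro x
    have g1 := C.g_jump Y x
    have g2 := (mv C d).g_jump Y x
    change _ = ∑ i ∈ range C.h, dv C.N (x - (mv C d).U (Y + i))
      - ∑ i ∈ range C.h, dv C.N (x - ((mv C d).U (Y + C.w + i) + C.W)) at g2
    have s1 := sum_window_diff (N := C.N) C.p_pos hhp (mv_U C d) (mv_U0 C d)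
      (fun k hk => C.U_congr (j := 0) (by simpa using hk)) x Y
    have s2 := sum_window_diff (N := C.N) (f := fun k => C.U k + C.W)
      (f' := fun k => (mv C d).U k + C.W) (d := d) C.p_pos hhp
      (fun k hk => by simp only [mv_U C d k hk])
      (fun k hk => by simp only [mv_U0 C d k hk]; ring)
      (fun k hk => by simpa using C.U_congr (j := 0) (by simpa using hk)) x (Y + C.w)
    have s3 : lv C.p 0 C.h (Y + C.w) = lv C.p (-C.w) C.h Y := lv_congr ⟨0, by ring⟩
    have p1 := ph_jump hN (a := 0) hd (by omega) x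
    have p2 := ph_jump hN (a := C.W) hd (by omega) x
    simp only [h0, sub_zero, zero_add] at s1 s2 p1
    rw [s3] at s2
    linear_combination g1 - g2 + s1 - s2 - lv C.p 0 C.h Y * p1 + lv C.p (-C.w) C.h Y * p2
  have c := const_of_jump (fun x => C.g Y x - (mv C d).g Y x
      - lv C.p 0 C.h Y * ph C.N 0 d x + lv C.p (-C.w) C.h Y * ph C.N C.W d x) jump u (-1)
  have z1 : ph C.N 0 d (-1) = 0 := by
    apply ph_of_le
    have : (-1 - 0 : ℤ) % C.N = C.N - 1 := by
      refine ((Int.ediv_emod_unique (q := -1) hN).2 ⟨?_, by omega, by omega⟩).2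
      rw [mul_neg]; omega
    rw [this]; omega
  have z2 : ph C.N C.W d (-1) = 0 := by
    apply ph_of_le
    have : (-1 - C.W : ℤ) % C.N = C.N - 1 - C.W := by
      refine ((Int.ediv_emod_unique (q := -1) hN).2 ⟨?_, by omega, by omega⟩).2
      rw [mul_neg]; omega
    rw [this]; omega
  simp only [z1, z2, mul_zero, sub_zero, add_zero] at c
  linear_combination c

/-- difference of `f` -/
theorem df_form (C : Cfg) {d : ℤ} (h0 : C.U 0 = 0) (hd : 0 ≤ d) (hH : d + C.H < C.N) (Y v : ℤ) :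
    C.f Y v - (mv C d).f Y v = (C.f Y (-C.H - 1) - (mv C d).f Y (-C.H - 1))
      + lv C.p 0 C.w Y * ph C.N 0 d v - lv C.p (-C.h) C.w Y * ph C.N (-C.H) d v := by
  have hH0 := C.H_pos
  have hN := C.N_pos
  have hwp : C.w ≤ C.p := by have := C.hwh; omega
  have hV0 : C.V 0 = 0 := by unfold Cfg.V; rw [h0]; ring
  have jump : ∀ x, C.f Y x - (mv C d).f Y x
      - lv C.p 0 C.w Y * ph C.N 0 d x + lv C.p (-C.h) C.w Y * ph C.N (-C.H) d x
      = C.f Y (x - 1) - (mv C d).f Y (x - 1)
      - lv C.p 0 C.w Y * ph C.N 0 d (x - 1) + lv C.p (-C.h) C.w Y * ph C.N (-C.H) d (x - 1) := by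
    intro x
    have g1 := C.f_jump Y x
    have g2 := (mv C d).f_jump Y x
    change _ = ∑ i ∈ range C.w, dv C.N (x - (mv C d).V (Y + i))
      - ∑ i ∈ range C.w, dv C.N (x - ((mv C d).V (Y + C.h + i) - C.H)) at g2
    have s1 := sum_window_diff (N := C.N) C.p_pos hwp (mv_V C d) (mv_V0 C d)
      (fun k hk => C.V_congr (j := 0) (by simpa using hk)) x Y
    have s2 := sum_window_diff (N := C.N) (f := fun k => C.V k - C.H)
      (f' := fun k => (mv C d).V k - C.H) (d := d) C.p_pos hwp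
      (fun k hk => by simp only [mv_V C d k hk])
      (fun k hk => by simp only [mv_V0 C d k hk]; ring)
      (fun k hk => by simpa using C.V_congr (j := 0) (by simpa using hk)) x (Y + C.h)
    have s3 : lv C.p 0 C.w (Y + C.h) = lv C.p (-C.h) C.w Y := lv_congr ⟨0, by ring⟩
    have p1 := ph_jump hN (a := 0) hd (by omega) x
    have p2 := ph_jump hN (a := -C.H) hd (by omega) x
    simp only [hV0, sub_zero, zero_sub] at s1 s2 p1
    rw [s3] at s2
    linear_combination g1 - g2 + s1 - s2 - lv C.p 0 C.w Y * p1 + lv C.p (-C.h) C.w Y * p2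
  have c := const_of_jump (fun x => C.f Y x - (mv C d).f Y x
      - lv C.p 0 C.w Y * ph C.N 0 d x + lv C.p (-C.h) C.w Y * ph C.N (-C.H) d x) jump v (-C.H - 1)
  have z1 : ph C.N 0 d (-C.H - 1) = 0 := by
    apply ph_of_le
    have : (-C.H - 1 - 0 : ℤ) % C.N = C.N - 1 - C.H := by
      refine ((Int.ediv_emod_unique (q := -1) hN).2 ⟨?_, by omega, by omega⟩).2
      rw [mul_neg]; omega
    rw [this]; omega
  have z2 : ph C.N (-C.H) d (-C.H - 1) = 0 := by
    apply ph_of_le
    have : (-C.H - 1 - -C.H : ℤ) % C.N = C.N - 1 := by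
      refine ((Int.ediv_emod_unique (q := -1) hN).2 ⟨?_, by omega, by omega⟩).2
      rw [mul_neg]; omega
    rw [this]; omega
  simp only [z1, z2, mul_zero, sub_zero, add_zero] at c
  linear_combination c

/-- the two constants agree -/
theorem const_eq (C : Cfg) {d : ℤ} (h0 : C.U 0 = 0) (hd : 0 ≤ d) (hW : d + C.W < C.N)
    (hH : d + C.H < C.N) (Y : ℤ) :
    C.g Y (-1) - (mv C d).g Y (-1) = C.f Y (-C.H - 1) - (mv C d).f Y (-C.H - 1) := by
  have hN := C.N_pos
  have hW0 := C.W_pos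
  have hq0 : (0 : ℤ) < C.q := by exact_mod_cast C.hq
  have hp' : (0 : ℤ) < C.p := by exact_mod_cast C.p_pos
  -- representative
  set y := (0 - Y) % (C.p : ℤ) with hy
  have y0 := Int.emod_nonneg (0 - Y) hp'.ne'
  have y1 := Int.emod_lt_of_pos (0 - Y) hp'
  have ye := Int.mul_ediv_add_emod (0 - Y) C.p
  rw [← hy] at y0 y1 ye
  have hYy : (C.p : ℤ) ∣ Y - (-y) := ⟨-((0 - Y) / C.p), by rw [mul_neg]; omega⟩
  have e1 := C.gid (-y) (-1) (C.q * (-y)) (by nlinarith) le_rfl
  have e2 := (mv C d).gid (-y) (-1) (C.q * (-y)) (by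
    change (C.q : ℤ) * _ ≤ _
    nlinarith) le_rfl
  rw [C.g_congr hYy (by simp : C.N ∣ (-1 : ℤ) - (-1)),
    (mv C d).g_congr hYy (by simp : (mv C d).N ∣ (-1 : ℤ) - (-1)), e1, e2]
  set v : ℤ := -1 + C.q * (-y) with hv
  have df := df_form C h0 hd hH (-y) v
  rw [C.f_congr hYy (by simp : C.N ∣ (-C.H - 1 : ℤ) - (-C.H - 1)),
    (mv C d).f_congr hYy (by simp : (mv C d).N ∣ (-C.H - 1 : ℤ) - (-C.H - 1))]
  -- `R` agrees
  have hR : C.R (-1) v = (mv C d).R (-1) v := by
    unfold Cfg.R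
    refine Finset.sum_congr rfl fun k _ => ?_
    by_cases hk : (C.p : ℤ) ∣ k
    · have a1 : C.hor k (-1) = 0 := by
        rw [C.hor_congr (j := 0) (by simpa using hk) (by simp : C.N ∣ (-1 : ℤ) - (-1))]
        unfold Cfg.hor
        rw [h0]
        apply ph_of_le
        have : (-1 - 0 : ℤ) % C.N = C.N - 1 := by
          refine ((Int.ediv_emod_unique (q := -1) hN).2 ⟨?_, by omega, by omega⟩).2
          rw [mul_neg]; omega
        rw [this]; omega
      have a2 : (mv C d).hor k (-1) = 0 := by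
        rw [(mv C d).hor_congr (j := 0) (u' := -1)
          (by change (C.p : ℤ) ∣ _; simpa using hk) (by simp : (mv C d).N ∣ (-1 : ℤ) - (-1))]
        unfold Cfg.hor
        rw [mv_U0 C d 0 (by simp), h0]
        change ph C.N (0 + d) C.W (-1) = 0
        apply ph_of_le
        have : (-1 - (0 + d) : ℤ) % C.N = C.N - 1 - d := by
          refine ((Int.ediv_emod_unique (q := -1) hN).2 ⟨?_, by omega, by omega⟩).2
          rw [mul_neg]; omega
        rw [this]; omega
      rw [a1, a2, zero_mul, zero_mul]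
    · have a1 : (mv C d).hor k (-1) = C.hor k (-1) := by
        unfold Cfg.hor; rw [mv_U C d k hk]; rfl
      have a2 : (mv C d).ver k v = C.ver k v := by
        unfold Cfg.ver; rw [mv_V C d k hk]; rfl
      rw [a1, a2]
  -- the correction terms vanish
  have t1 : lv C.p 0 C.w (-y) * ph C.N 0 d v = 0 := by
    unfold lv
    split_ifs with c
    · rw [one_mul]
      apply ph_of_le
      have c' : y < C.w := by
        rw [show (0 - -y : ℤ) = y by ring, Int.emod_eq_of_lt y0 y1] at c; exact c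
      have c2 : (C.q : ℤ) * y ≤ C.q * C.w := by nlinarith
      have c3 : 0 ≤ (C.q : ℤ) * y := by positivity
      have c4 : (C.q : ℤ) * C.w = C.W := rfl
      have : (v - 0) % C.N = C.N - 1 - C.q * y := by
        refine ((Int.ediv_emod_unique (q := -1) hN).2 ⟨?_, by omega, by omega⟩).2
        rw [mul_neg, hv]; ring
      rw [this]; omega
    · rw [zero_mul]
  have t2 : lv C.p (-C.h) C.w (-y) * ph C.N (-C.H) d v = 0 := by
    unfold lv
    split_ifs with c
    · rw [one_mul]
      apply ph_of_le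
      have hhp : C.h < C.p := by have := C.hwh; have := C.hw; omega
      have c' : (C.h : ℤ) ≤ y ∧ y < C.h + C.w := by
        rw [show (-(C.h : ℤ) - -y) = y - C.h by ring] at c
        rcases lt_or_ge y C.h with h | h
        · have : (y - C.h) % (C.p : ℤ) = y - C.h + C.p := by
            refine ((Int.ediv_emod_unique (q := -1) hp').2 ⟨?_, by omega, by omega⟩).2
            rw [mul_neg]; omega
          rw [this] at c
          have := C.hwh
          omega
        · rw [Int.emod_eq_of_lt (by omega) (by omega)] at c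
          exact ⟨h, by omega⟩
      have c2 : (C.q : ℤ) * (y - C.h) ≤ C.q * C.w := by nlinarith [c'.2]
      have c3 : 0 ≤ (C.q : ℤ) * (y - C.h) := by
        have := c'.1
        apply mul_nonneg hq0.le; omega
      have c4 : (C.q : ℤ) * C.w = C.W := rfl
      have c5 : C.H = C.q * C.h := rfl
      have : (v - -C.H) % C.N = C.N - 1 - C.q * (y - C.h) := by
        refine ((Int.ediv_emod_unique (q := -1) hN).2 ⟨?_, by omega, by omega⟩).2
        rw [mul_neg, hv, c5]; ring
      rw [this]; omega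
    · rw [zero_mul]
  rw [hR]
  change (mv C d).R (-1) v + C.f (-y) v - ((mv C d).R (-1) v + (mv C d).f (-y) v) = _
  linear_combination df + t1 - t2

/-- the correction function of the two window rule -/
def PHI (C : Cfg) (d c b Y : ℤ) : ℤ :=
  - (ph C.N 0 d c * lv C.p 0 C.h Y) + ph C.N C.W d c * lv C.p (-C.w) C.h Y
    + ph C.N 0 d b * lv C.p 0 C.w Y - ph C.N (-C.H) d b * lv C.p (-C.h) C.w Y

theorem Fq_diag {C : Cfg} {r c b : ℤ} (hr : ∃ s, C.N ∣ b - c - s ∧ C.q * (r - 1) ≤ s ∧ s ≤ C.q * r) :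
    Fq C r c b = 0 := by
  obtain ⟨s, h1, h2, h3⟩ := hr
  have := C.gid r c s h2 h3
  have e1 : C.N ∣ (c + s) - b := by
    rw [← dvd_neg]; rwa [show -(c + s - b) = b - c - s by ring]
  unfold Fq
  rw [C.R_congr (by simp : C.N ∣ c - c) e1, C.f_congr (by simp : (C.p : ℤ) ∣ r - r) e1] at this
  omega

/-- **E0**: the two window rule -/
theorem E0 {C : Cfg} {d : ℤ} (h0 : C.U 0 = 0) (hd : 0 ≤ d) (hW : d + C.W < C.N)
    (hH : d + C.H < C.N) (G : C.Gen) (G' : (mv C d).Gen) (hfl : C.IsFlat)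
    (hfl' : (mv C d).IsFlat) {j c J e i b K e' : ℤ}
    (hj : ¬ (C.p : ℤ) ∣ j) (hi : ¬ (C.p : ℤ) ∣ i) (hij : ¬ (C.p : ℤ) ∣ j - i)
    (hV : VW C j c J e) (hHw : HW C i b K e')
    {r : ℤ} (hr : ∃ s, C.N ∣ b - c - s ∧ C.q * (r - 1) ≤ s ∧ s ≤ C.q * r)
    {Y : ℤ} (h1 : C.ver j b ≠ lv C.p J C.h Y) (h2 : C.hor i c ≠ lv C.p K C.w Y) :
    PHI C d c b Y = PHI C d c b r := by
  have hV' : VW (mv C d) j c J e := by
    unfold VW
    rw [mv_U C d j hj]
    exact hV
  have hH' : HW (mv C d) i b K e' := by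
    unfold HW
    rw [mv_V C d i hi]
    exact hHw
  have v' : (mv C d).ver j b = C.ver j b := by
    unfold Cfg.ver; rw [mv_V C d j hj]; rfl
  have o' : (mv C d).hor i c = C.hor i c := by
    unfold Cfg.hor; rw [mv_U C d i hi]; rfl
  have c1 := cross G hfl hij hV hHw h1 h2
  have c2 := cross (C := mv C d) G' hfl' hij hV' hH' (Y := Y) (by rw [v']; exact h1)
    (by rw [o']; exact h2)
  rw [v', o'] at c2
  change _ = e * (C.ver j b - lv C.p J C.h Y) + e' * (C.hor i c - lv C.p K C.w Y) at c2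
  have z1 := Fq_diag (C := C) hr
  have z2 := Fq_diag (C := mv C d) (r := r) (c := c) (b := b) hr
  have k1 := const_eq C h0 hd hW hH Y
  have k2 := const_eq C h0 hd hW hH r
  have g1 := dg_form C h0 hd hW Y c
  have g2 := dg_form C h0 hd hW r c
  have f1 := df_form C h0 hd hH Y b
  have f2 := df_form C h0 hd hH r b
  unfold Fq at c1 c2 z1 z2
  unfold PHI
  have c3 : C.R c b - C.g Y c + C.f Y b = (mv C d).R c b - (mv C d).g Y c + (mv C d).f Y b := by
    omega
  linear_combination c3 - z1 + z2 + g1 - g2 - f1 + f2 + k1 - k2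

/-- membership of the level of `b - c` in the arc of a vertical wall -/
theorem lv_ver {C : Cfg} {j c J e b r s : ℤ} (hV : VW C j c J e)
    (n1 : ¬ C.N ∣ b - (C.V j - C.H)) (n2 : ¬ C.N ∣ b - C.V j)
    (hs : C.N ∣ b - c - s) (h2 : C.q * (r - 1) < s) (h3 : s ≤ C.q * r) :
    lv C.p J C.h r = C.ver j b := by
  have hN := C.N_pos
  have hq0 : (0 : ℤ) < C.q := by exact_mod_cast C.hq
  have hp' : (0 : ℤ) < C.p := by exact_mod_cast C.p_pos
  have hNe : C.N = C.q * C.p := by unfold Cfg.N; ring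
  have hHe : C.H = C.q * C.h := rfl
  -- `b - (V j - H) = s + H - q J` mod `N`
  have key : C.N ∣ (b - (C.V j - C.H)) - (s + C.H - C.q * J) := by
    rcases hV with ⟨_, hc, hJ⟩ | ⟨_, hc, hJ⟩
    · have := dvd_add hs hc
      rw [hJ]
      rwa [show b - c - s + (c - C.U j) = b - (C.V j - C.H) - (s + C.H - C.q * j) by
        unfold Cfg.V; ring] at this
    · have := dvd_add hs hc
      rw [hJ]
      rwa [show b - c - s + (c - (C.U j + C.W))
        = b - (C.V j - C.H) - (s + C.H - C.q * (j - C.w)) by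
        unfold Cfg.V Cfg.W; ring] at this
  unfold Cfg.ver ph
  rw [emod_congr key]
  -- write `J - r = x + p z`
  have x0 := Int.emod_nonneg (J - r) hp'.ne'
  have x1 := Int.emod_lt_of_pos (J - r) hp'
  have xe := Int.mul_ediv_add_emod (J - r) C.p
  unfold lv
  set x := (J - r) % (C.p : ℤ)
  set z := (J - r) / (C.p : ℤ)
  set y := C.q * r - s with hy
  have y0 : 0 ≤ y := by omega
  have y1 : y < C.q := by nlinarith
  have e1 : s + C.H - C.q * J = (C.H - y - C.q * x) + C.N * (-z) := by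
    rw [hNe]
    linear_combination (C.q : ℤ) * xe - hy
  rw [e1, Int.add_mul_emod_self_left]
  have m1 : ¬ C.N ∣ C.H - y - C.q * x := by
    intro h
    apply n1
    obtain ⟨k, hk⟩ := h
    obtain ⟨k', hk'⟩ := key
    exact ⟨k' + k - z, by rw [e1, hk] at hk'; linear_combination hk'⟩
  have m2 : ¬ C.N ∣ C.H - y - C.q * x - C.H := by
    intro h
    apply n2
    obtain ⟨k, hk⟩ := h
    obtain ⟨k', hk'⟩ := key
    exact ⟨k' + k - z, by rw [e1] at hk'; linear_combination hk' + hk⟩
  have qx0 : 0 ≤ C.q * x := by positivity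
  have qx1 : C.q * x + C.q ≤ C.N := by rw [hNe]; nlinarith
  have hHN := C.H_lt
  have hH0 := C.H_pos
  by_cases cx : x < C.h
  · have : C.q * x + C.q ≤ C.H := by rw [hHe]; nlinarith
    rw [if_pos cx, Int.emod_eq_of_lt (by omega) (by omega), if_pos]
    rcases eq_or_ne (C.H - y - C.q * x) C.H with h | h
    · exact absurd (by rw [h]; simp) m2
    · omega
  · have : C.H ≤ C.q * x := by rw [hHe]; nlinarith
    have h5 : (C.H - y - C.q * x) ≠ 0 := fun h => m1 (by rw [h]; simp)
    have : (C.H - y - C.q * x) % C.N = C.H - y - C.q * x + C.N := by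
      refine ((Int.ediv_emod_unique (q := -1) hN).2 ⟨?_, by omega, by omega⟩).2
      rw [mul_neg]; omega
    rw [if_neg cx, this, if_neg (by omega)]

/-- membership of the level of `b - c` in the arc of a horizontal wall -/
theorem lv_hor {C : Cfg} {i c K e b r s : ℤ} (hH : HW C i b K e)
    (n1 : ¬ C.N ∣ c - C.U i) (n2 : ¬ C.N ∣ c - (C.U i + C.W))
    (hs : C.N ∣ b - c - s) (h2 : C.q * (r - 1) < s) (h3 : s ≤ C.q * r) :
    lv C.p K C.w r = C.hor i c := by
  have hN := C.N_pos
  have hq0 : (0 : ℤ) < C.q := by exact_mod_cast C.hq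
  have hp' : (0 : ℤ) < C.p := by exact_mod_cast C.p_pos
  have hNe : C.N = C.q * C.p := by unfold Cfg.N; ring
  have hWe : C.W = C.q * C.w := rfl
  have key : C.N ∣ (c - C.U i) - (C.q * K - s) := by
    rcases hH with ⟨_, hb, hK⟩ | ⟨_, hb, hK⟩
    · have := dvd_sub hb hs
      rw [hK]
      rwa [show b - C.V i - (b - c - s) = c - C.U i - (C.q * i - s) by
        unfold Cfg.V; ring] at this
    · have := dvd_sub hb hs
      rw [hK]
      rwa [show b - (C.V i - C.H) - (b - c - s)
        = c - C.U i - (C.q * (i - C.h) - s) by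
        unfold Cfg.V Cfg.H; ring] at this
  unfold Cfg.hor ph
  rw [emod_congr key]
  have x0 := Int.emod_nonneg (K - r) hp'.ne'
  have x1 := Int.emod_lt_of_pos (K - r) hp'
  have xe := Int.mul_ediv_add_emod (K - r) C.p
  unfold lv
  set x := (K - r) % (C.p : ℤ)
  set z := (K - r) / (C.p : ℤ)
  set y := C.q * r - s with hy
  have y0 : 0 ≤ y := by omega
  have y1 : y < C.q := by nlinarith
  have e1 : C.q * K - s = (C.q * x + y) + C.N * z := by
    rw [hNe]
    linear_combination -(C.q : ℤ) * xe - hy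
  rw [e1, Int.add_mul_emod_self_left]
  have qx0 : 0 ≤ C.q * x := by positivity
  have qx1 : C.q * x + C.q ≤ C.N := by rw [hNe]; nlinarith
  have hWN := C.W_lt
  have hW0 := C.W_pos
  rw [Int.emod_eq_of_lt (by omega) (by omega)]
  by_cases cx : x < C.w
  · have : C.q * x + C.q ≤ C.W := by rw [hWe]; nlinarith
    rw [if_pos cx, if_pos (by omega)]
  · have : C.W ≤ C.q * x := by rw [hWe]; nlinarith
    rw [if_neg cx, if_neg (by omega)]

end Pool.Agent.H67.Flat
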