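import Pool.Agent.H67.Flat.E0b

/-!
# Translations of configurations; the second window is a translate of the first
-/

namespace Pool.Agent.H67.Flat

open Finset
open Pool.Agent.H98.Flat

/-- replace the abscissae -/
def wU (C : Cfg) (U' : ℤ → ℤ) (per' : ∀ k, ((C.p : ℤ) * C.q) ∣ U' (k + C.p) - U' k) : Cfg where
  p := C.p
  q := C.q
  w := C.w
  h := C.h
  U := U'
  hq := C.hq
  hw := C.hw
  hh := C.hh
  hwh := C.hwh
  per := per'

/-- the translate by `(a, a + q δ)` and `δ` rows -/
def tr (C : Cfg) (a δ : ℤ) : Cfg :=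
  wU C (fun k => C.U (k - δ) + a) (by
    intro k
    have := C.per (k - δ)
    rwa [add_sub_add_right_eq_sub, show k + (C.p : ℤ) - δ = k - δ + C.p by ring])

theorem tr_V (C : Cfg) (a δ k : ℤ) : (tr C a δ).V k = C.V (k - δ) + (a + C.q * δ) := by
  unfold Cfg.V
  change C.U (k - δ) + a + (C.q : ℤ) * k = _
  ring

theorem tr_hor (C : Cfg) (a δ k u : ℤ) : (tr C a δ).hor k u = C.hor (k - δ) (u - a) := by
  unfold Cfg.hor
  change ph C.N (C.U (k - δ) + a) C.W u = _
  exact ph_congr ⟨0, by ring⟩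

theorem tr_ver (C : Cfg) (a δ k v : ℤ) :
    (tr C a δ).ver k v = C.ver (k - δ) (v - (a + C.q * δ)) := by
  unfold Cfg.ver
  rw [tr_V]
  change ph C.N (C.V (k - δ) + (a + C.q * δ) - C.H) C.H v = _
  exact ph_congr ⟨0, by ring⟩

theorem tr_R (C : Cfg) (a δ u v : ℤ) :
    (tr C a δ).R u v = C.R (u - a) (v - (a + C.q * δ)) := by
  have h1 := C.R_shift (-δ) (u - a) (v - (a + C.q * δ))
  rw [h1]
  unfold Cfg.R
  refine Finset.sum_congr rfl fun k _ => ?_
  rw [tr_hor, tr_ver, show (k : ℤ) - δ = -δ + k by ring]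

theorem tr_ell (C : Cfg) (a δ k : ℤ) : (tr C a δ).ell k = C.ell (k - δ) := by
  unfold Cfg.ell
  change (C.U (k + C.h - δ) + a - (C.U (k - δ) + a)) % C.N = _
  rw [add_sub_add_right_eq_sub, show k + (C.h : ℤ) - δ = k - δ + C.h by ring]

theorem tr_g (C : Cfg) (a δ y u : ℤ) : (tr C a δ).g y u = C.g (y - δ) (u - a) := by
  unfold Cfg.g
  congr 1
  · refine Finset.sum_congr rfl fun i _ => ?_
    rw [tr_ell, show y + (i : ℤ) - δ = y - δ + i by ring]
    change ph C.N (C.U (y + i - δ) + a) _ u = _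
    rw [show y + (i : ℤ) - δ = y - δ + i by ring]
    exact ph_congr ⟨0, by ring⟩
  · refine Finset.sum_congr rfl fun i _ => ?_
    change ph C.N (C.U (y + C.w + i - δ) + a) C.W u = _
    rw [show y + (C.w : ℤ) + i - δ = y - δ + C.w + i by ring]
    exact ph_congr ⟨0, by ring⟩

theorem tr_f (C : Cfg) (a δ y v : ℤ) : (tr C a δ).f y v = C.f (y - δ) (v - (a + C.q * δ)) := by
  unfold Cfg.f
  refine Finset.sum_congr rfl fun i _ => ?_
  rw [tr_ell, tr_V, show y + (i : ℤ) - δ = y - δ + i by ring]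
  exact ph_congr ⟨0, by ring⟩

theorem tr_flat {C : Cfg} (h : C.IsFlat) (a δ : ℤ) : (tr C a δ).IsFlat := by
  intro u v y
  rw [tr_R, tr_g, tr_f]
  exact h _ _ _

theorem tr_gen {C : Cfg} (G : C.Gen) (a δ : ℤ) : (tr C a δ).Gen where
  UU := by
    intro i j h
    have h1 : C.N ∣ C.U (i - δ) + a - (C.U (j - δ) + a) := h
    rw [add_sub_add_right_eq_sub] at h1
    have := G.UU _ _ h1
    rwa [sub_sub_sub_cancel_right] at this
  UW := by
    intro i j h
    have h1 : C.N ∣ C.U (i - δ) + a - (C.U (j - δ) + a + C.W) := h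
    apply G.UW (i - δ) (j - δ)
    rwa [show C.U (i - δ) + a - (C.U (j - δ) + a + C.W) = C.U (i - δ) - (C.U (j - δ) + C.W) by
      ring] at h1
  VV := by
    intro i j h
    rw [tr_V, tr_V] at h
    have h1 : C.N ∣ C.V (i - δ) + (a + C.q * δ) - (C.V (j - δ) + (a + C.q * δ)) := h
    rw [add_sub_add_right_eq_sub] at h1
    have := G.VV _ _ h1
    rwa [sub_sub_sub_cancel_right] at this
  VH := by
    intro i j h
    rw [tr_V, tr_V] at h
    have h1 : C.N ∣ C.V (i - δ) + (a + C.q * δ) - (C.V (j - δ) + (a + C.q * δ) - C.H) := h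
    apply G.VH (i - δ) (j - δ)
    rwa [show C.V (i - δ) + (a + C.q * δ) - (C.V (j - δ) + (a + C.q * δ) - C.H)
      = C.V (i - δ) - (C.V (j - δ) - C.H) by ring] at h1

/-- congruent abscissae give the same counts -/
theorem wU_flat {C : Cfg} (hfl : C.IsFlat) {U' : ℤ → ℤ}
    {per' : ∀ k, ((C.p : ℤ) * C.q) ∣ U' (k + C.p) - U' k} (h : ∀ k, C.N ∣ U' k - C.U k) :
    (wU C U' per').IsFlat := by
  have hV : ∀ k, C.N ∣ (wU C U' per').V k - C.V k := by
    intro k
    unfold Cfg.V
    change C.N ∣ U' k + (C.q : ℤ) * k - (C.U k + C.q * k)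
    rw [add_sub_add_right_eq_sub]; exact h k
  have hhor : ∀ k u, (wU C U' per').hor k u = C.hor k u := by
    intro k u
    unfold Cfg.hor
    change ph C.N (U' k) C.W u = _
    exact ph_congr (by rw [sub_sub_sub_cancel_left, ← dvd_neg, neg_sub]; exact h k)
  have hver : ∀ k v, (wU C U' per').ver k v = C.ver k v := by
    intro k v
    unfold Cfg.ver
    change ph C.N ((wU C U' per').V k - C.H) C.H v = _
    exact ph_congr (by
      rw [sub_sub_sub_cancel_left, sub_sub_sub_cancel_right, ← dvd_neg, neg_sub]; exact hV k)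
  have hell : ∀ k, (wU C U' per').ell k = C.ell k := by
    intro k
    unfold Cfg.ell
    change (U' (k + C.h) - U' k) % C.N = _
    apply emod_congr
    have := dvd_sub (h (k + C.h)) (h k)
    rwa [show U' (k + C.h) - C.U (k + C.h) - (U' k - C.U k)
      = U' (k + C.h) - U' k - (C.U (k + C.h) - C.U k) by ring] at this
  intro u v y
  have hR : (wU C U' per').R u v = C.R u v := by
    unfold Cfg.R
    exact Finset.sum_congr rfl fun k _ => by rw [hhor, hver]
  have hg : (wU C U' per').g y u = C.g y u := by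
    unfold Cfg.g
    congr 1
    · refine Finset.sum_congr rfl fun i _ => ?_
      rw [hell]
      change ph C.N (U' (y + i)) _ u = _
      exact ph_congr (by rw [sub_sub_sub_cancel_left, ← dvd_neg, neg_sub]; exact h _)
    · refine Finset.sum_congr rfl fun i _ => ?_
      change ph C.N (U' (y + C.w + i)) C.W u = _
      exact ph_congr (by rw [sub_sub_sub_cancel_left, ← dvd_neg, neg_sub]; exact h _)
  have hf : (wU C U' per').f y v = C.f y v := by
    unfold Cfg.f
    refine Finset.sum_congr rfl fun i _ => ?_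
    rw [hell]
    exact ph_congr (by rw [sub_sub_sub_cancel_left, ← dvd_neg, neg_sub]; exact hV _)
  rw [hR, hg, hf]
  exact hfl u v y

theorem wU_R {C : Cfg} {U' : ℤ → ℤ}
    {per' : ∀ k, ((C.p : ℤ) * C.q) ∣ U' (k + C.p) - U' k} (h : ∀ k, C.N ∣ U' k - C.U k)
    (u v : ℤ) : (wU C U' per').R u v = C.R u v := by
  have hV : ∀ k, C.N ∣ (wU C U' per').V k - C.V k := by
    intro k
    unfold Cfg.V
    change C.N ∣ U' k + (C.q : ℤ) * k - (C.U k + C.q * k)
    rw [add_sub_add_right_eq_sub]; exact h k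
  unfold Cfg.R
  refine Finset.sum_congr rfl fun k _ => ?_
  have hhor : (wU C U' per').hor k u = C.hor k u := by
    unfold Cfg.hor
    change ph C.N (U' k) C.W u = _
    exact ph_congr (by rw [sub_sub_sub_cancel_left, ← dvd_neg, neg_sub]; exact h k)
  have hver : (wU C U' per').ver k v = C.ver k v := by
    unfold Cfg.ver
    change ph C.N ((wU C U' per').V k - C.H) C.H v = _
    exact ph_congr (by
      rw [sub_sub_sub_cancel_left, sub_sub_sub_cancel_right, ← dvd_neg, neg_sub]; exact hV k)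
  rw [hhor, hver]

theorem wU_gen {C : Cfg} (G : C.Gen) {U' : ℤ → ℤ}
    {per' : ∀ k, ((C.p : ℤ) * C.q) ∣ U' (k + C.p) - U' k} (h : ∀ k, C.N ∣ U' k - C.U k) :
    (wU C U' per').Gen where
  UU := by
    intro i j h1
    have h1 : C.N ∣ U' i - U' j := h1
    apply G.UU
    have := dvd_add (dvd_sub h1 (h i)) (h j)
    rwa [show U' i - U' j - (U' i - C.U i) + (U' j - C.U j) = C.U i - C.U j by ring] at this
  UW := by
    intro i j h1
    have h1 : C.N ∣ U' i - (U' j + C.W) := h1
    apply G.UW i j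
    have := dvd_add (dvd_sub h1 (h i)) (h j)
    rwa [show U' i - (U' j + C.W) - (U' i - C.U i) + (U' j - C.U j)
      = C.U i - (C.U j + C.W) by ring] at this
  VV := by
    intro i j h1
    have h1 : C.N ∣ U' i + C.q * i - (U' j + C.q * j) := h1
    apply G.VV
    unfold Cfg.V
    have := dvd_add (dvd_sub h1 (h i)) (h j)
    rwa [show U' i + C.q * i - (U' j + C.q * j) - (U' i - C.U i) + (U' j - C.U j)
      = C.U i + C.q * i - (C.U j + C.q * j) by ring] at this
  VH := by
    intro i j h1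
    have h1 : C.N ∣ U' i + C.q * i - (U' j + C.q * j - C.H) := h1
    apply G.VH i j
    unfold Cfg.V
    have := dvd_add (dvd_sub h1 (h i)) (h j)
    rwa [show U' i + C.q * i - (U' j + C.q * j - C.H) - (U' i - C.U i) + (U' j - C.U j)
      = C.U i + C.q * i - (C.U j + C.q * j - C.H) by ring] at this

end Pool.Agent.H67.Flat
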